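import Mathlib
import Pool.Agent.H30.Mid.R45

set_option autoImplicit false
open Finset

/-! # The exceptional columns of a rectangle: colour changes of its outer ring

`w × h` : a rectangle above or below the row. A port whose tile has the same colour as the two neighbours
in the ring is joined to a neighbour. So there are at most `2 * (number of colour changes) + 10` columns
of the row whose strands leave the rectangle somewhere else. -/

namespace Pool.Agent.H30.Sp

open Pool.Agent.H75.Perc Pool.Agent.H75.TwoArm Pool.Agent.Q1 Pool.Agent.H81.G1 Pool.Agent.H30.Mid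
open Pool.Agent.H69.M6b (lbt lbt_inj lbt_odd pr0 PR Pn TD rect_tiles se Kp Bx' Wires tt)

variable {L : Finset (ℤ × ℤ)} {xL yB : ℤ} {w h : ℕ} {M : ℕ → ℕ}

/-- colour of the tile of the port `k` -/
def rc (L : Finset (ℤ × ℤ)) (xL yB : ℤ) (w h k : ℕ) : Prop :=
  lbt (se (TT xL yB) w h k).1.1 (se (TT xL yB) w h k).1.2 ∈ L

/-- neighbouring tiles of the same colour have opposite states -/
lemma us_next {x y x' y' : ℤ} (h1 : (x + y + x' + y') % 2 = 1) (h2 : lbt x y ∈ L ↔ lbt x' y' ∈ L) :
    us L (x', y') = !us L (x, y) := by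
  by_cases h3 : lbt x y ∈ L
  · rw [us_open h3, us_open (h2.1 h3)]
    by_cases h4 : (x + y) % 2 = 1
    · rw [decide_eq_true h4, decide_eq_false (by omega)]; rfl
    · rw [decide_eq_false h4, decide_eq_true (by omega)]; rfl
  · rw [us_closed h3, us_closed (fun h => h3 (h2.2 h))]
    by_cases h4 : (x + y) % 2 = 0
    · rw [decide_eq_true h4, decide_eq_false (by omega)]; rfl
    · rw [decide_eq_false h4, decide_eq_true (by omega)]; rfl

lemma us_nextv {i j : ℕ} (h2 : lbt (TT xL yB i j).1 (TT xL yB i j).2 ∈ L ↔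
    lbt (TT xL yB i (j + 1)).1 (TT xL yB i (j + 1)).2 ∈ L) :
    us L (TT xL yB i (j + 1)) = !us L (TT xL yB i j) := by
  refine us_next (x := (TT xL yB i j).1) (y := (TT xL yB i j).2) (x' := (TT xL yB i (j + 1)).1)
    (y' := (TT xL yB i (j + 1)).2) ?_ h2
  unfold TT; simp only; omega

lemma us_nexth {i j : ℕ} (h2 : lbt (TT xL yB i j).1 (TT xL yB i j).2 ∈ L ↔
    lbt (TT xL yB (i + 1) j).1 (TT xL yB (i + 1) j).2 ∈ L) :
    us L (TT xL yB (i + 1) j) = !us L (TT xL yB i j) := by
  refine us_next (x := (TT xL yB i j).1) (y := (TT xL yB i j).2) (x' := (TT xL yB (i + 1) j).1)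
    (y' := (TT xL yB (i + 1) j).2) ?_ h2
  unfold TT; simp only; omega

/-- ports at the ends of the sides -/
def cor (w h : ℕ) : Finset ℕ :=
  {0, h - 1, h, h + w - 1, h + w, 2 * h + w - 1, 2 * h + w, 2 * (h + w) - 1}

lemma card_cor (w h : ℕ) : (cor w h).card ≤ 8 := by
  unfold cor
  refine (card_insert_le _ _).trans (Nat.succ_le_succ ?_)
  refine (card_insert_le _ _).trans (Nat.succ_le_succ ?_)
  refine (card_insert_le _ _).trans (Nat.succ_le_succ ?_)
  refine (card_insert_le _ _).trans (Nat.succ_le_succ ?_)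
  refine (card_insert_le _ _).trans (Nat.succ_le_succ ?_)
  refine (card_insert_le _ _).trans (Nat.succ_le_succ ?_)
  exact card_le_two

/-- **A port whose tile has the same colour as its neighbours is joined to a neighbour.** -/
theorem ring_nb (hw : 0 < w) (hh : 0 < h)
    (hT : TD (uf L) (ud L) (Bx' (TT xL yB) w 0 h) (h + w) (se (TT xL yB) w h)
      (fun k => UW (se (TT xL yB) w h k)) (Kp w h) M) {k : ℕ} (hk : k < 2 * (h + w))
    (hc : k ∉ cor w h) (h1 : rc L xL yB w h (k - 1) ↔ rc L xL yB w h k)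
    (h2 : rc L xL yB w h k ↔ rc L xL yB w h (k + 1)) : M k = k - 1 ∨ M k = k + 1 := by
  unfold cor at hc
  simp only [mem_insert, mem_singleton, not_or] at hc
  unfold rc at h1 h2
  rcases Nat.lt_or_ge k h with q1 | q1
  · -- left
    obtain ⟨j, rfl, hj0, hj1⟩ : ∃ j, k = h - 1 - (j + 1) ∧ j + 2 < h ∧ 0 < h - 1 - (j + 1) :=
      ⟨h - 1 - k - 1, by omega, by omega, by omega⟩
    have e0 : h - 1 - (j + 1) - 1 = h - 1 - (j + 2) := by omega
    have e2 : h - 1 - (j + 1) + 1 = h - 1 - j := by omega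
    rw [e0] at h1
    rw [e2] at h2
    rw [se_left (by omega), se_left (by omega)] at h1 h2
    have f0 : h - 1 - (h - 1 - (j + 2)) = j + 2 := by omega
    have f1 : h - 1 - (h - 1 - (j + 1)) = j + 1 := by omega
    have f2 : h - 1 - (h - 1 - j) = j := by omega
    rw [f0, f1] at h1
    rw [f1, f2] at h2
    simp only at h1 h2
    have g1 := us_nextv (L := L) (xL := xL) (yB := yB) (i := 0) (j := j + 1) h1.symm
    have g2 := us_nextv (L := L) (xL := xL) (yB := yB) (i := 0) (j := j) h2.symm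
    cases hs : us L (TT xL yB 0 (j + 1))
    · left
      rw [hs] at g1
      have := dead_left hw hh hT (j := j + 1) (by omega) hs (by rw [g1]; rfl)
      rw [this]; omega
    · right
      rw [hs] at g2
      have := dead_left hw hh hT (j := j) (by omega) (by
        cases h5 : us L (TT xL yB 0 j)
        · rfl
        · rw [h5] at g2; exact absurd g2 (by decide)) hs
      have := TD_pair hT (by omega) this
      rw [this]; omega
  rcases Nat.lt_or_ge k (h + w) with q2 | q2
  · -- bottom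
    obtain ⟨i, rfl, hi0⟩ : ∃ i, k = h + (i + 1) ∧ i + 2 < w :=
      ⟨k - h - 1, by omega, by omega⟩
    have e0 : h + (i + 1) - 1 = h + i := by omega
    have e2 : h + (i + 1) + 1 = h + (i + 2) := by omega
    rw [e0] at h1
    rw [e2] at h2
    rw [se_bot (by omega), se_bot (by omega)] at h1 h2
    simp only at h1 h2
    have g1 := us_nexth (L := L) (xL := xL) (yB := yB) (i := i) (j := 0) h1
    have g2 := us_nexth (L := L) (xL := xL) (yB := yB) (i := i + 1) (j := 0) h2
    cases hs : us L (TT xL yB (i + 1) 0)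
    · right
      rw [hs] at g2
      exact dead_bot hw hh hT (i := i + 1) (by omega) hs (by rw [g2]; rfl)
    · left
      rw [hs] at g1
      have := dead_bot hw hh hT (i := i) (by omega) (by
        cases h5 : us L (TT xL yB i 0)
        · rfl
        · rw [h5] at g1; exact absurd g1 (by decide)) hs
      have := TD_pair hT (by omega) this
      rw [this]; omega
  rcases Nat.lt_or_ge k (2 * h + w) with q3 | q3
  · -- right
    obtain ⟨j, rfl, hj0⟩ : ∃ j, k = h + w + (j + 1) ∧ j + 2 < h :=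
      ⟨k - (h + w) - 1, by omega, by omega⟩
    have e0 : h + w + (j + 1) - 1 = h + w + j := by omega
    have e2 : h + w + (j + 1) + 1 = h + w + (j + 2) := by omega
    rw [e0] at h1
    rw [e2] at h2
    rw [se_right (by omega), se_right (by omega)] at h1 h2
    simp only at h1 h2
    have g1 := us_nextv (L := L) (xL := xL) (yB := yB) (i := w - 1) (j := j) h1
    have g2 := us_nextv (L := L) (xL := xL) (yB := yB) (i := w - 1) (j := j + 1) h2
    cases hs : us L (TT xL yB (w - 1) (j + 1))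
    · left
      rw [hs] at g1
      have := dead_right hw hh hT (j := j) (by omega) (by
        cases h5 : us L (TT xL yB (w - 1) j)
        · rw [h5] at g1; exact absurd g1 (by decide)
        · rfl) hs
      have := TD_pair hT (by omega) this
      rw [this]; omega
    · right
      rw [hs] at g2
      exact dead_right hw hh hT (j := j + 1) (by omega) hs (by rw [g2]; rfl)
  · -- top
    obtain ⟨i, rfl, hi0⟩ : ∃ i, k = 2 * (h + w) - 1 - (i + 1) ∧ i + 2 < w :=
      ⟨2 * (h + w) - 1 - k - 1, by omega, by omega⟩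
    have e0 : 2 * (h + w) - 1 - (i + 1) - 1 = 2 * (h + w) - 1 - (i + 2) := by omega
    have e2 : 2 * (h + w) - 1 - (i + 1) + 1 = 2 * (h + w) - 1 - i := by omega
    rw [e0] at h1
    rw [e2] at h2
    rw [se_top (by omega), se_top (by omega)] at h1 h2
    simp only at h1 h2
    have g1 := us_nexth (L := L) (xL := xL) (yB := yB) (i := i + 1) (j := h - 1) h1.symm
    have g2 := us_nexth (L := L) (xL := xL) (yB := yB) (i := i) (j := h - 1) h2.symm
    cases hs : us L (TT xL yB (i + 1) (h - 1))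
    · right
      rw [hs] at g2
      have := dead_top hw hh hT (i := i) (by omega) (by
        cases h5 : us L (TT xL yB i (h - 1))
        · rw [h5] at g2; exact absurd g2 (by decide)
        · rfl) hs
      have := TD_pair hT (by omega) this
      rw [this]; omega
    · left
      rw [hs] at g1
      have := dead_top hw hh hT (i := i + 1) (by omega) hs (by rw [g1]; rfl)
      rw [this]; omega

/-- **Number of the exceptional columns.** `Ch` : colour changes of the ring outside the row. -/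
theorem exc_ring {N p0 : ℕ} {up : Bool} (hw : 0 < w) (hh : 0 < h)
    (hT : TD (uf L) (ud L) (Bx' (TT xL yB) w 0 h) (h + w) (se (TT xL yB) w h)
      (fun k => UW (se (TT xL yB) w h k)) (Kp w h) M) (hp : up = false → N ≤ p0 + 1)
    (hlt : ∀ c : Fin N, prt up p0 c < 2 * (h + w)) (Ch : Finset ℕ)
    (hcol : ∀ k, k + 1 < 2 * (h + w) → k ∉ Ch → (∀ c : Fin N, k ≠ prt up p0 c) →
      (∀ c : Fin N, k + 1 ≠ prt up p0 c) → k + 1 ≠ h → k + 1 ≠ h + w → k + 1 ≠ 2 * h + w →
      (rc L xL yB w h k ↔ rc L xL yB w h (k + 1))) :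
    (exc N M up p0).card ≤ 2 * Ch.card + 10 := by
  classical
  -- neighbours of the row
  set Nb : Finset ℕ := if up then {p0 - 1, p0 + N} else {p0 - N, p0 + 1} with hNb
  have hNc : Nb.card ≤ 2 := by rw [hNb]; split_ifs <;> exact card_le_two
  set live : Finset ℕ := Ch ∪ Ch.image (· + 1) ∪ cor w h ∪ Nb with hlive
  have hcard : live.card ≤ 2 * Ch.card + 10 := by
    rw [hlive]
    refine (card_union_le _ _).trans ?_
    have h1 := card_union_le (Ch ∪ Ch.image (· + 1)) (cor w h)
    have h2 := card_union_le Ch (Ch.image (· + 1))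
    have h3 : (Ch.image (· + 1)).card ≤ Ch.card := card_image_le
    have h4 := card_cor w h
    omega
  refine le_trans (exc_card hT hp hlt live ?_) hcard
  intro l hl hlv
  by_cases hrow : ∃ c : Fin N, l = prt up p0 c
  · exact Or.inl hrow
  right
  push Not at hrow
  rw [hlive] at hlv
  simp only [mem_union, not_or] at hlv
  obtain ⟨⟨⟨l1, l2⟩, l3⟩, l4⟩ := hlv
  have hl0 := l3
  unfold cor at hl0
  simp only [mem_insert, mem_singleton, not_or] at hl0
  -- neighbours are not in the row
  have hn : ∀ c : Fin N, l - 1 ≠ prt up p0 c ∧ l + 1 ≠ prt up p0 c := by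
    intro c
    have hc := c.2
    have hr0 : ∀ c' : ℕ, c' < N → l ≠ (if up then p0 + c' else p0 - c') := fun c' hc' =>
      hrow ⟨c', hc'⟩
    rw [hNb] at l4
    have hp' := hp
    unfold prt
    cases up
    · have hp1 := hp' rfl
      simp only [Bool.false_eq_true, if_false, mem_insert, mem_singleton, not_or] at l4 hr0 ⊢
      constructor
      · intro h5
        -- l - 1 = p0 - c, so l = p0 - c + 1
        rcases Nat.eq_zero_or_pos (c : ℕ) with h6 | h6
        · omega
        · exact hr0 ((c : ℕ) - 1) (by omega) (by omega)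
      · intro h5
        rcases Nat.lt_or_ge ((c : ℕ) + 1) N with h6 | h6
        · exact hr0 ((c : ℕ) + 1) h6 (by omega)
        · omega
    · simp only [if_true, mem_insert, mem_singleton, not_or] at l4 hr0 ⊢
      constructor
      · intro h5
        rcases Nat.lt_or_ge ((c : ℕ) + 1) N with h6 | h6
        · exact hr0 ((c : ℕ) + 1) h6 (by omega)
        · omega
      · intro h5
        rcases Nat.eq_zero_or_pos (c : ℕ) with h6 | h6
        · omega
        · exact hr0 ((c : ℕ) - 1) (by omega) (by omega)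
  have q1 : rc L xL yB w h (l - 1) ↔ rc L xL yB w h l := by
    have := hcol (l - 1) (by omega) (fun h5 => l2 (mem_image.2 ⟨l - 1, h5, by omega⟩))
      (fun c => (hn c).1) (fun c => by rw [show l - 1 + 1 = l by omega]; exact hrow c)
      (by omega) (by omega) (by omega)
    rwa [show l - 1 + 1 = l by omega] at this
  have q2 : rc L xL yB w h l ↔ rc L xL yB w h (l + 1) :=
    hcol l (by omega) l1 hrow (fun c => (hn c).2) (by omega) (by omega) (by omega)
  intro c
  rcases ring_nb hw hh hT hl l3 q1 q2 with h5 | h5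
  · rw [h5]; exact (hn c).1
  · rw [h5]; exact (hn c).2

/-! ### In coordinates -/

section

variable {xa yb : ℤ} {N o : ℕ} {CL CB CR CT : Finset ℤ}

/-- colour changes in port numbers -/
noncomputable def chp (xa yb : ℤ) (w h : ℕ) (CL CB CR CT : Finset ℤ) : Finset ℕ :=
  CL.image (fun y => (yb + h - 2 - y).toNat) ∪ CB.image (fun x => h + (x - xa).toNat) ∪
    CR.image (fun y => h + w + (y - yb).toNat) ∪ CT.image (fun x => 2 * (h + w) - 2 - (x - xa).toNat)

lemma card_chp : (chp xa yb w h CL CB CR CT).card ≤ CL.card + CB.card + CR.card + CT.card := by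
  unfold chp
  refine (card_union_le _ _).trans (Nat.add_le_add ?_ card_image_le)
  refine (card_union_le _ _).trans (Nat.add_le_add ?_ card_image_le)
  exact (card_union_le _ _).trans (Nat.add_le_add card_image_le card_image_le)

/-- colour of the ring -/
lemma ring_col {up : Bool} {p0 : ℕ} (hw0 : 0 < w) (hh0 : 0 < h) (hL : ∀ y, yb ≤ y → y + 1 < yb + h → y ∉ CL →
      (lbt xa y ∈ L ↔ lbt xa (y + 1) ∈ L))
    (hR : ∀ y, yb ≤ y → y + 1 < yb + h → y ∉ CR →
      (lbt (xa + w - 1) y ∈ L ↔ lbt (xa + w - 1) (y + 1) ∈ L))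
    (hB : ∀ x, xa ≤ x → x + 1 < xa + w → x ∉ CB →
      (∀ c : Fin N, h + (x - xa).toNat ≠ prt up p0 c) →
      (∀ c : Fin N, h + (x + 1 - xa).toNat ≠ prt up p0 c) → (lbt x yb ∈ L ↔ lbt (x + 1) yb ∈ L))
    (hT : ∀ x, xa ≤ x → x + 1 < xa + w → x ∉ CT →
      (∀ c : Fin N, 2 * (h + w) - 1 - (x - xa).toNat ≠ prt up p0 c) →
      (∀ c : Fin N, 2 * (h + w) - 1 - (x + 1 - xa).toNat ≠ prt up p0 c) →
      (lbt x (yb + h - 1) ∈ L ↔ lbt (x + 1) (yb + h - 1) ∈ L)) (k : ℕ) (hk : k + 1 < 2 * (h + w))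
    (hc : k ∉ chp xa yb w h CL CB CR CT) (r1 : ∀ c : Fin N, k ≠ prt up p0 c)
    (r2 : ∀ c : Fin N, k + 1 ≠ prt up p0 c) (n1 : k + 1 ≠ h) (n2 : k + 1 ≠ h + w)
    (n3 : k + 1 ≠ 2 * h + w) : rc L xa yb w h k ↔ rc L xa yb w h (k + 1) := by
  unfold chp at hc
  simp only [mem_union, not_or] at hc
  obtain ⟨⟨⟨c1, c2⟩, c3⟩, c4⟩ := hc
  unfold rc
  rcases Nat.lt_or_ge k h with q1 | q1
  · rw [se_left q1, se_left (by omega)]
    unfold TT
    simp only [Nat.cast_zero, add_zero]
    have h1 := hL (yb + h - 2 - k) (by omega) (by omega) (fun h5 => c1 (mem_image.2 ⟨_, h5, by omega⟩))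
    have e1 : yb + ((h - 1 - k : ℕ) : ℤ) = yb + h - 2 - k + 1 := by omega
    have e2 : yb + ((h - 1 - (k + 1) : ℕ) : ℤ) = yb + h - 2 - k := by omega
    rw [e1, e2]
    exact h1.symm
  rcases Nat.lt_or_ge k (h + w) with q2 | q2
  · obtain ⟨i, rfl⟩ : ∃ i, k = h + i := ⟨k - h, by omega⟩
    rw [show h + i + 1 = h + (i + 1) by ring, se_bot (by omega), se_bot (by omega)]
    unfold TT
    simp only [Nat.cast_zero, add_zero, Nat.cast_add, Nat.cast_one]
    have h1 := hB (xa + i) (by omega) (by omega)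
      (fun h5 => c2 (mem_image.2 ⟨_, h5, by omega⟩))
      (fun c => by rw [show (xa + (i : ℤ) - xa).toNat = i by omega]; exact r1 c)
      (fun c => by
        rw [show (xa + (i : ℤ) + 1 - xa).toNat = i + 1 by omega, ← Nat.add_assoc]; exact r2 c)
    rw [show xa + ((i : ℤ) + 1) = xa + i + 1 by ring]
    exact h1
  rcases Nat.lt_or_ge k (2 * h + w) with q3 | q3
  · obtain ⟨j, rfl⟩ : ∃ j, k = h + w + j := ⟨k - (h + w), by omega⟩
    rw [show h + w + j + 1 = h + w + (j + 1) by ring, se_right (by omega), se_right (by omega)]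
    unfold TT
    simp only
    have h1 := hR (yb + j) (by omega) (by omega)
      (fun h5 => c3 (mem_image.2 ⟨_, h5, by omega⟩))
    have e1 : xa + ((w - 1 : ℕ) : ℤ) = xa + w - 1 := by omega
    rw [e1]
    push_cast
    rw [show yb + ((j : ℤ) + 1) = yb + j + 1 by ring]
    exact h1
  · obtain ⟨i, hi, rfl⟩ : ∃ i, i + 1 < w ∧ k = 2 * (h + w) - 1 - (i + 1) :=
      ⟨2 * (h + w) - 1 - k - 1, by omega, by omega⟩
    have e0 : 2 * (h + w) - 1 - (i + 1) + 1 = 2 * (h + w) - 1 - i := by omega
    rw [e0] at r2 ⊢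
    rw [se_top (by omega), se_top (by omega)]
    unfold TT
    simp only
    have h1 := hT (xa + i) (by omega) (by omega)
      (fun h5 => c4 (mem_image.2 ⟨_, h5, by omega⟩))
      (fun c => by rw [show (xa + (i : ℤ) - xa).toNat = i by omega]; exact r2 c)
      (fun c => by
        rw [show (xa + (i : ℤ) + 1 - xa).toNat = i + 1 by omega]; exact r1 c)
    have e1 : yb + ((h - 1 : ℕ) : ℤ) = yb + h - 1 := by omega
    rw [e1]
    push_cast
    rw [show xa + ((i : ℤ) + 1) = xa + i + 1 by ring]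
    exact h1.symm

end

/-- **The frame of a row**: boxes `[x0 - o, x0 - o + W)` above and below the row `[x0, x0 + N) × {y0}`;
`C..` : colour changes on the four sides of the two boxes outside the row. -/
theorem frame_box {N : ℕ} {x0 y0 : ℤ} {o W HU HD : ℕ} (hN : 0 < N) (hoN : o + N ≤ W) (hW : 0 < W) (hHU : 0 < HU)
    (hHD : 0 < HD) {CUL CUR CUT CUB CDL CDR CDT CDB : Finset ℤ}
    (hUL : ∀ y, y0 < y → y < y0 + HU → y ∉ CUL →
      (lbt (x0 - o) y ∈ L ↔ lbt (x0 - o) (y + 1) ∈ L))
    (hUR : ∀ y, y0 < y → y < y0 + HU → y ∉ CUR →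
      (lbt (x0 - o + W - 1) y ∈ L ↔ lbt (x0 - o + W - 1) (y + 1) ∈ L))
    (hUT : ∀ x, x0 - o ≤ x → x + 1 < x0 - o + W → x ∉ CUT →
      (lbt x (y0 + HU) ∈ L ↔ lbt (x + 1) (y0 + HU) ∈ L))
    (hUB : ∀ x, x0 - o ≤ x → x + 1 < x0 - o + W → x ∉ CUB → (x + 1 < x0 ∨ x0 + N ≤ x) →
      (lbt x (y0 + 1) ∈ L ↔ lbt (x + 1) (y0 + 1) ∈ L))
    (hDL : ∀ y, y0 - HD ≤ y → y + 1 < y0 → y ∉ CDL →
      (lbt (x0 - o) y ∈ L ↔ lbt (x0 - o) (y + 1) ∈ L))
    (hDR : ∀ y, y0 - HD ≤ y → y + 1 < y0 → y ∉ CDR →
      (lbt (x0 - o + W - 1) y ∈ L ↔ lbt (x0 - o + W - 1) (y + 1) ∈ L))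
    (hDB : ∀ x, x0 - o ≤ x → x + 1 < x0 - o + W → x ∉ CDB →
      (lbt x (y0 - HD) ∈ L ↔ lbt (x + 1) (y0 - HD) ∈ L))
    (hDT : ∀ x, x0 - o ≤ x → x + 1 < x0 - o + W → x ∉ CDT → (x + 1 < x0 ∨ x0 + N ≤ x) →
      (lbt x (y0 - 1) ∈ L ↔ lbt (x + 1) (y0 - 1) ∈ L)) :
    ∃ F : Frame L N x0 y0,
      F.EU.card ≤ 2 * (CUL.card + CUB.card + CUR.card + CUT.card) + 10 ∧
      F.ED.card ≤ 2 * (CDL.card + CDB.card + CDR.card + CDT.card) + 10 ∧
      ∀ x y : ℤ, F.In (lbt x y) → x0 - o ≤ x ∧ x < x0 - o + W ∧ y0 - HD ≤ y ∧ y ≤ y0 + HU := by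
  obtain ⟨M, hM⟩ := rectTD L (x0 - o) (y0 + 1) (w := W) (h := HU) hW hHU
  obtain ⟨M', hM'⟩ := rectTD L (x0 - o) (y0 - HD) (w := W) (h := HD) hW hHD
  refine ⟨⟨o, W, HU, o, W, HD, hoN, hHU, hoN, hHD, M, M', hM, hM'⟩, ?_, ?_, ?_⟩
  · have h1 := exc_ring (N := N) (p0 := HU + o) (up := true) hW hHU hM (fun h => by simp at h)
      (fun c => by unfold prt; have := c.2; simp only [if_true]; omega)
      (chp (x0 - o) (y0 + 1) W HU CUL CUB CUR CUT) (ring_col hW (by assumption) ?_ ?_ ?_ ?_)
    · refine h1.trans ?_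
      have := card_chp (xa := x0 - o) (yb := y0 + 1) (w := W) (h := HU) (CL := CUL) (CB := CUB)
        (CR := CUR) (CT := CUT)
      omega
    · exact fun y a1 a2 a3 => hUL y (by omega) (by omega) a3
    · exact fun y a1 a2 a3 => hUR y (by omega) (by omega) a3
    · intro x a1 a2 a3 a4 a5
      refine hUB x a1 a2 a3 ?_
      by_contra h5
      rcases lt_or_ge x x0 with h6 | h6
      · have := a5 ⟨(x + 1 - x0).toNat, by omega⟩
        unfold prt at this
        simp only [if_true] at this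
        omega
      · have := a4 ⟨(x - x0).toNat, by omega⟩
        unfold prt at this
        simp only [if_true] at this
        omega
    · intro x a1 a2 a3 _ _
      have := hUT x a1 a2 a3
      rwa [show y0 + 1 + (HU : ℤ) - 1 = y0 + HU by ring]
  · have h1 := exc_ring (N := N) (p0 := 2 * (HD + W) - 1 - o) (up := false) hW hHD hM'
      (fun h => by omega)
      (fun c => by unfold prt; have := c.2; simp only [Bool.false_eq_true, if_false]; omega)
      (chp (x0 - o) (y0 - HD) W HD CDL CDB CDR CDT) (ring_col hW (by assumption) ?_ ?_ ?_ ?_)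
    · refine h1.trans ?_
      have := card_chp (xa := x0 - o) (yb := y0 - HD) (w := W) (h := HD) (CL := CDL) (CB := CDB)
        (CR := CDR) (CT := CDT)
      omega
    · exact fun y a1 a2 a3 => hDL y (by omega) (by omega) a3
    · exact fun y a1 a2 a3 => hDR y (by omega) (by omega) a3
    · exact fun x a1 a2 a3 _ _ => hDB x a1 a2 a3
    · intro x a1 a2 a3 a4 a5
      have h7 := hDT x a1 a2 a3 ?_
      · rwa [show y0 - (HD : ℤ) + HD - 1 = y0 - 1 by ring]
      by_contra h5
      rcases lt_or_ge x x0 with h6 | h6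
      · have := a5 ⟨(x + 1 - x0).toNat, by omega⟩
        unfold prt at this
        simp only [Bool.false_eq_true, if_false] at this
        omega
      · have := a4 ⟨(x - x0).toNat, by omega⟩
        unfold prt at this
        simp only [Bool.false_eq_true, if_false] at this
        omega
  · intro x y hxy
    rcases hxy with ⟨x', y', e, a1, a2, a3, a4⟩ | ⟨x', y', e, a1, a2, a3, a4⟩ | ⟨c, e⟩
    · obtain ⟨rfl, rfl⟩ := lbt_inj e
      simp only at a1 a2 a3 a4
      omega
    · obtain ⟨rfl, rfl⟩ := lbt_inj e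
      simp only at a1 a2 a3 a4
      omega
    · have hc := c.2
      obtain ⟨rfl, rfl⟩ := lbt_inj e
      omega

end Pool.Agent.H30.Sp
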