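import Mathlib
import Pool.Agent.H69.M6b.EnvWin
import Pool.Agent.H30.Mid.RGeo
import Pool.Agent.H81.G1.Glu

set_option autoImplicit false
open Finset

/-! # The glued configuration of a row of any plane-like environment

`[xa, xb) × [ya, yb)` : a box of the glued plane which contains the frame. -/

namespace Pool.Agent.H30.Sp

open Pool.Agent.H75.Perc Pool.Agent.H75.TwoArm Pool.Agent.Q1 Pool.Agent.H81.G1 Pool.Agent.H30.Mid
open Pool.Agent.H69.M6b (lbt lbt_inj lbt_odd lbt_diff Lay3)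
open Pool.Agent.Q1.M6b.Gl
open Pool.Agent.Q1.M6b.Gd (Iso Nr RowGeo sm)
open Pool.Agent.H74.R45 Pool.Agent.H13.R45 Pool.Agent.H33.Q1

variable {x y xa xb ya yb x0 y0 : ℤ} {N : ℕ} {W EL EU ω : Finset (ℤ × ℤ)} {X : Env}

/-- open labels of the glued configuration which are not random -/
noncomputable def WGb (xa xb ya yb y0 : ℤ) (W EU : Finset (ℤ × ℤ)) : Finset (ℤ × ℤ) :=
  (W ∩ RT xa xb ya y0) ∪ ((RT xa xb (y0 + 1) (yb + 1) \ (W ∪ EU)).map (tr (1, -1)))

lemma WGb_R45 {w h j : ℤ} : WGb (-2) (w + 2) (-2) h (j - 1) W EU = WGl w h j W EU := by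
  unfold WGb WGl
  rw [sub_add_cancel]

lemma mem_WGb : lbt x y ∈ WGb xa xb ya yb y0 W EU ↔
    (lbt x y ∈ W ∧ xa ≤ x ∧ x < xb ∧ ya ≤ y ∧ y < y0) ∨
    ((xa ≤ x ∧ x < xb ∧ y0 ≤ y ∧ y < yb) ∧ lbt x (y + 1) ∉ W ∧ lbt x (y + 1) ∉ EU) := by
  unfold WGb
  rw [mem_union, mem_inter, mem_tr, lbt_tr, mem_sdiff, mem_union, not_or, lbt_lt, lt_mem_RT, lbt_lt,
    lt_mem_RT]
  constructor
  · rintro (h1 | h1)
    · exact Or.inl h1
    · exact Or.inr ⟨⟨h1.1.1, h1.1.2.1, by omega, by omega⟩, h1.2⟩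
  · rintro (h1 | h1)
    · exact Or.inl h1
    · exact Or.inr ⟨⟨h1.1.1, h1.1.2.1, by omega, by omega⟩, h1.2⟩

lemma WGb_odd {e : ℤ × ℤ} (he : e ∈ WGb xa xb ya yb y0 W EU) : (e.1 + e.2) % 2 = 1 := by
  unfold WGb at he
  rw [mem_union, mem_inter, mem_tr, mem_sdiff] at he
  rcases he with he | he
  · exact odd_RT he.2
  · have := odd_RT he.1
    simp only [Prod.fst_sub, Prod.snd_sub] at this
    omega

/-- the layers: rows of the labels -/
lemma lay_row (L3 : Lay3 X N x0 y0 EL EU) : (∀ x y : ℤ, lbt x y ∈ EL → y < y0) ∧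
    (∀ x y : ℤ, lbt x y ∈ EU → y0 < y) ∧ (∀ e ∈ EL ∪ EU, (e.1 + e.2) % 2 = 1) ∧
    (∀ e ∈ EL ∪ EU, e ∈ X.E) := by
  have h1 : ∀ e ∈ EL ∪ EU, e ∈ X.E := fun e he => by
    rw [← L3.eq, mem_sdiff] at he; exact he.1
  refine ⟨fun x y h => ?_, fun x y h => ?_, fun e he => X.odd e (h1 e he), h1⟩
  · have := L3.low _ h
    rw [lbt_diff] at this
    omega
  · have := L3.upp _ h
    rw [lbt_diff] at this
    omega

lemma gE_odd' (L3 : Lay3 X N x0 y0 EL EU) {e : ℤ × ℤ} (he : e ∈ gE EL EU (1, -1)) :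
    (e.1 + e.2) % 2 = 1 := by
  obtain ⟨-, -, h, -⟩ := lay_row L3
  unfold gE at he
  rw [mem_union, mem_tr] at he
  rcases he with he | he
  · exact h e (mem_union_left _ he)
  · have := h _ (mem_union_right _ he)
    simp only [Prod.fst_sub, Prod.snd_sub] at this
    omega

/-- the random labels are not among the fixed open labels -/
theorem disj_WGb (hX : PO X W) (L3 : Lay3 X N x0 y0 EL EU) :
    Disjoint (gE EL EU (1, -1)) (WGb xa xb ya yb y0 W EU) := by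
  obtain ⟨a1, a2, a3, a4⟩ := lay_row L3
  rw [disjoint_left]
  intro e he he'
  obtain ⟨x, y, rfl⟩ := exists_lbt (gE_odd' L3 he)
  rw [mem_gE] at he
  rw [mem_WGb] at he'
  rcases he with he | he
  · have h2 := a1 _ _ he
    rcases he' with h3 | h3
    · exact disjoint_left.1 hX.disj (a4 _ (mem_union_left _ he)) h3.1
    · omega
  · have h2 := a2 _ _ he
    rcases he' with h3 | h3
    · omega
    · exact h3.2.2 he

/-- open labels after freezing also the layers in the glued state `ω` -/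
noncomputable def LG (X : Env) (W : Finset (ℤ × ℤ)) (N : ℕ) (x0 y0 : ℤ) (EL EU ω : Finset (ℤ × ℤ)) :
    Finset (ℤ × ℤ) := fW X W (RS N x0 y0) (ug EL EU (1, -1) ω)

lemma outL_LG (hX : PO X W) :
    OutL (X.freeze (RS N x0 y0) (ug EL EU (1, -1) ω)) (LG X W N x0 y0 EL EU ω) := (hX.freeze _ _).outL

lemma mem_LG (L3 : Lay3 X N x0 y0 EL EU) {e : ℤ × ℤ} : e ∈ LG X W N x0 y0 EL EU ω ↔
    e ∈ W ∨ (e ∈ ω ∧ e ∈ EL) ∨ (e ∈ EU ∧ e + (1, -1) ∉ ω) := by
  unfold LG fW
  rw [mem_union, mem_inter, L3.eq, mem_ug]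
  constructor
  · rintro (h2 | h2)
    · exact Or.inl h2
    · exact Or.inr h2.1
  · rintro (h2 | h2)
    · exact Or.inl h2
    · refine Or.inr ⟨h2, ?_⟩
      rcases h2 with h3 | h3
      · exact mem_union_left _ h3.2
      · exact mem_union_right _ h3.1

/-- outside the layers the labels are those of `W` -/
lemma mem_LG_out (L3 : Lay3 X N x0 y0 EL EU) {e : ℤ × ℤ} (h1 : e ∉ EL) (h2 : e ∉ EU) :
    e ∈ LG X W N x0 y0 EL EU ω ↔ e ∈ W := by
  rw [mem_LG L3]
  constructor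
  · rintro (h3 | h3 | h3)
    · exact h3
    · exact absurd h3.2 h1
    · exact absurd h3.1 h2
  · exact Or.inl

/-- **The glued configuration of a frame.** -/
theorem glab_WGb (hX : PO X W) (L3 : Lay3 X N x0 y0 EL EU) (hω : ω ⊆ gE EL EU (1, -1))
    (F : Frame (LG X W N x0 y0 EL EU ω) N x0 y0)
    (hF : ∀ x y : ℤ, F.In (lbt x y) → xa ≤ x ∧ x < xb ∧ ya ≤ y ∧ y ≤ yb) :
    GLab F (ω ∪ WGb xa xb ya yb y0 W EU) := by
  obtain ⟨b1, b2, b3, b4⟩ := lay_row L3
  constructor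
  · intro x y a1 a2 a3 a4
    have hb := hF x y (Or.inr (Or.inl ⟨x, y, rfl, a1, a2, a3, a4⟩))
    rw [mem_LG L3, mem_union, mem_WGb]
    have nU : lbt x y ∉ EU := fun hh => by have := b2 _ _ hh; omega
    constructor
    · rintro (h2 | h2 | h2)
      · have h3 := hω h2
        rw [mem_gE] at h3
        rcases h3 with h3 | h3
        · exact Or.inr (Or.inl ⟨h2, h3⟩)
        · have := b2 _ _ h3; omega
      · exact Or.inl h2.1
      · omega
    · rintro (h2 | h2 | h2)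
      · exact Or.inr (Or.inl ⟨h2, by omega, by omega, by omega, by omega⟩)
      · exact Or.inl h2.1
      · exact absurd h2.1 nU
  · intro x y a1 a2 a3 a4
    have hb := hF x y (Or.inl ⟨x, y, rfl, a1, a2, a3, a4⟩)
    have e1 : lbt x y + vg = lbt x (y - 1) := lbt_add x y
    rw [mem_LG L3, mem_union, e1, mem_WGb, sub_add_cancel]
    have nL : lbt x y ∉ EL := fun hh => by have := b1 _ _ hh; omega
    have e2 : lbt x y + (1, -1) = lbt x (y - 1) := lbt_add x y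
    rw [e2]
    constructor
    · rintro (h2 | h2 | h2)
      · have h3 := hω h2
        rw [mem_gE, sub_add_cancel] at h3
        rcases h3 with h3 | h3
        · have := b1 _ _ h3; omega
        · rintro (h4 | h4 | h4)
          · exact disjoint_left.1 hX.disj (b4 _ (mem_union_right _ h3)) h4
          · exact nL h4.2
          · exact h4.2 h2
      · omega
      · rintro (h4 | h4 | h4)
        · exact h2.2.1 h4
        · exact nL h4.2
        · exact h2.2.2 h4.1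
    · intro h2
      by_cases h3 : lbt x (y - 1) ∈ ω
      · exact Or.inl h3
      · refine Or.inr (Or.inr ⟨⟨by omega, by omega, by omega, by omega⟩, fun h4 => h2 (Or.inl h4),
          fun h4 => h2 (Or.inr (Or.inr ⟨h4, h3⟩))⟩)

/-- labels of the glued configuration below the row, outside the layers -/
lemma mem_WX_low (L3 : Lay3 X N x0 y0 EL EU) (hω : ω ⊆ gE EL EU (1, -1)) (h1 : y < y0)
    (h2 : lbt x y ∉ EL) : lbt x y ∈ ω ∪ WGb xa xb ya yb y0 W EU ↔
      lbt x y ∈ W ∧ xa ≤ x ∧ x < xb ∧ ya ≤ y := by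
  obtain ⟨b1, b2, -, -⟩ := lay_row L3
  rw [mem_union, mem_WGb]
  constructor
  · rintro (h3 | h3 | h3)
    · have h4 := hω h3
      rw [mem_gE] at h4
      rcases h4 with h4 | h4
      · exact absurd h4 h2
      · have := b2 _ _ h4; omega
    · exact ⟨h3.1, h3.2.1, h3.2.2.1, h3.2.2.2.1⟩
    · omega
  · intro h3
    exact Or.inr (Or.inl ⟨h3.1, h3.2.1, h3.2.2.1, h3.2.2.2, h1⟩)

/-- labels of the glued configuration above the row, outside the layers -/
lemma mem_WX_upp (L3 : Lay3 X N x0 y0 EL EU) (hω : ω ⊆ gE EL EU (1, -1)) (h1 : y0 ≤ y)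
    (h2 : lbt x (y + 1) ∉ EU) : lbt x y ∈ ω ∪ WGb xa xb ya yb y0 W EU ↔
      lbt x (y + 1) ∉ W ∧ xa ≤ x ∧ x < xb ∧ y < yb := by
  obtain ⟨b1, b2, -, -⟩ := lay_row L3
  rw [mem_union, mem_WGb]
  constructor
  · rintro (h3 | h3 | h3)
    · have h4 := hω h3
      rw [mem_gE] at h4
      rcases h4 with h4 | h4
      · have := b1 _ _ h4; omega
      · exact absurd h4 h2
    · omega
    · exact ⟨h3.2.1, h3.1.1, h3.1.2.1, h3.1.2.2.2⟩
  · intro h3
    exact Or.inr (Or.inr ⟨⟨h3.2.1, h3.2.2.1, h1, h3.2.2.2⟩, h3.1, h2⟩)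

/-! ### The labels near the row -/

/-- **The labels near a column of the row are random.** -/
theorem near_row {BL BU : Finset (ℤ × ℤ)} {ya yb : ℤ} (hL : ∀ x y : ℤ, x0 ≤ x → x < x0 + N →
      ya ≤ y → y < y0 → lbt x y ∉ BL → lbt x y ∈ EL)
    (hU : ∀ x y : ℤ, x0 ≤ x → x < x0 + N → y0 < y → y < yb → lbt x y ∉ BU → lbt x y ∈ EU)
    (hBL : Sep BL N x0 y0) (hBU : Sep BU N x0 (y0 + 1)) {c : Fin N} {M : ℤ} (hM1 : 1 ≤ M)
    (hR1 : M ≤ y0 - ya) (hR2 : M ≤ yb - y0 - 1)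
    (key : ∀ d : ℤ, (0 ≤ d ∧ d ≤ 3) ∨ ((N : ℤ) - 4 ≤ d ∧ d ≤ N) → M ≤ |((c : ℕ) : ℤ) - d|)
    {e : ℤ × ℤ} (ho : (e.1 + e.2) % 2 = 1)
    (h1 : |e.1 - (sm true y0 (x0 - y0 + 1 + (c : ℕ))).1| ≤ M)
    (h2 : |e.2 - (sm true y0 (x0 - y0 + 1 + (c : ℕ))).2| ≤ M) : e ∈ gE EL EU (1, -1) := by
  have hc := c.2
  have e1 : (sm true y0 (x0 - y0 + 1 + (c : ℕ))).1 = x0 - y0 + 1 + (c : ℕ) := by
    unfold sm; simp
  have e2 : (sm true y0 (x0 - y0 + 1 + (c : ℕ))).2 = x0 + y0 + 1 + (c : ℕ) := by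
    unfold sm; simp; ring
  rw [e1] at h1
  rw [e2] at h2
  rw [abs_le] at h1 h2
  have hcl : 3 < ((c : ℕ) : ℤ) := by
    by_contra hh
    have := key (c : ℕ) (Or.inl ⟨by omega, by omega⟩)
    rw [sub_self, abs_zero] at this
    omega
  have hcr : ((c : ℕ) : ℤ) < N - 4 := by
    by_contra hh
    have := key (c : ℕ) (Or.inr ⟨by omega, by omega⟩)
    rw [sub_self, abs_zero] at this
    omega
  have k1 := key 3 (Or.inl ⟨by omega, by omega⟩)
  have k2 := key (N - 4) (Or.inr ⟨by omega, by omega⟩)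
  rw [abs_of_nonneg (by omega)] at k1
  rw [abs_of_nonpos (by omega)] at k2
  obtain ⟨x, y, rfl⟩ := exists_lbt ho
  unfold lbt at h1 h2
  simp only at h1 h2
  rw [mem_gE]
  rcases lt_or_ge y y0 with hy | hy
  · left
    refine hL x y (by omega) (by omega) (by omega) hy (fun hb => ?_)
    rcases hBL x y hb with h3 | h3
    · rw [abs_of_neg (by omega)] at h3; omega
    · rw [abs_of_neg (by omega)] at h3; omega
  · right
    refine hU x (y + 1) (by omega) (by omega) (by omega) (by omega) (fun hb => ?_)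
    rcases hBU x (y + 1) hb with h3 | h3
    · rw [abs_of_nonneg (by omega)] at h3; omega
    · rw [abs_of_nonneg (by omega)] at h3; omega

end Pool.Agent.H30.Sp
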