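import Mathlib
import Pool.Agent.H30.Sp.Ring
import Pool.Agent.H30.Sp.RowG
import Pool.Agent.H46.Sp.Def
import Pool.Agent.H69.M6b.DataR

set_option autoImplicit false
open Finset

/-! # The row `j - 1` of a window

`WRow` : an environment whose random labels are the row `j - 1`, the labels of `P-` and `P+` outside of a
set `B` of boxes, with the exterior of the window `D`. `rowI_win` : the interface of chapter B. -/

namespace Pool.Agent.H30.Sp

open Pool.Agent.H75.Perc Pool.Agent.H75.TwoArm Pool.Agent.Q1 Pool.Agent.H81.G1 Pool.Agent.H30.Mid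
open Pool.Agent.H69.M6b (lbt lbt_inj lbt_odd lbt_diff Lay3 RowI zr)
open Pool.Agent.Q1.M6b.Gl
open Pool.Agent.Q1.M6b.Gd (Iso Nr RowGeo sm)
open Pool.Agent.H74.R45 Pool.Agent.H13.R45 Pool.Agent.H33.Q1 Pool.Agent.H34.Q1
open Pool.Agent.H46.Sp (Win)
open Pool.Agent.H46.Sp.Win (m_min M_max m_lt_M a_min b_max m_le_a b_le_M m_le_a' b_le_M')

variable {D : Win} {j x y : ℤ} {N : ℕ} {X : Env} {W B ω : Finset (ℤ × ℤ)}

/-- left end and right end of the box around the window -/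
def xa (D : Win) : ℤ := D.a (D.yP - 1) - 2
def xb (D : Win) : ℤ := D.b D.yQ + 2

lemma InZ_iff : D.InZ x y ↔ xa D ≤ x ∧ x < xb D ∧ -2 ≤ y ∧ y ≤ D.h := by
  unfold Win.InZ xa xb
  omega

/-- the exterior tiles -/
def Ou (D : Win) (x y : ℤ) : Prop := y = -2 ∨ y = D.h ∨
  (-1 ≤ y ∧ y < D.h ∧ (x + 2 ≤ D.m y ∨ D.M y + 1 ≤ x))

/-- random labels below the row -/
noncomputable def BLw (D : Win) (j : ℤ) (B : Finset (ℤ × ℤ)) : Finset (ℤ × ℤ) :=
  (D.TS fun x y => -1 ≤ y ∧ y < j - 1 ∧ y + 1 < D.h ∧ D.a (y + 1) ≤ x ∧ x < D.b (y + 1)) \ B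

/-- random labels above the row -/
noncomputable def BUw (D : Win) (j : ℤ) (B : Finset (ℤ × ℤ)) : Finset (ℤ × ℤ) :=
  (D.TS fun x y => j ≤ y ∧ 0 ≤ y ∧ y < D.h ∧ D.a y ≤ x ∧ x < D.b y) \ B

lemma mem_BLw : lbt x y ∈ BLw D j B ↔
    (-1 ≤ y ∧ y < j - 1 ∧ y + 1 < D.h ∧ D.a (y + 1) ≤ x ∧ x < D.b (y + 1)) ∧ lbt x y ∉ B := by
  unfold BLw
  rw [mem_sdiff, lbt_lt, Win.mem_TS]
  constructor
  · rintro ⟨h1, h2⟩; exact ⟨h1.2, h2⟩
  · rintro ⟨h1, h2⟩
    refine ⟨⟨?_, h1⟩, h2⟩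
    have h3 := a_min (D := D) (y := y + 1) (by omega) h1.2.2.1
    have h4 := b_max (D := D) (y := y + 1) (by omega) h1.2.2.1
    unfold Win.InZ
    omega

lemma mem_BUw : lbt x y ∈ BUw D j B ↔
    (j ≤ y ∧ 0 ≤ y ∧ y < D.h ∧ D.a y ≤ x ∧ x < D.b y) ∧ lbt x y ∉ B := by
  unfold BUw
  rw [mem_sdiff, lbt_lt, Win.mem_TS]
  constructor
  · rintro ⟨h1, h2⟩; exact ⟨h1.2, h2⟩
  · rintro ⟨h1, h2⟩
    refine ⟨⟨?_, h1⟩, h2⟩
    have h3 := a_min (D := D) (y := y) h1.2.1 h1.2.2.1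
    have h4 := b_max (D := D) (y := y) h1.2.1 h1.2.2.1
    unfold Win.InZ
    omega

lemma odd_BLw {e : ℤ × ℤ} (he : e ∈ BLw D j B) : (e.1 + e.2) % 2 = 1 := D.odd_TS (mem_sdiff.1 he).1

lemma odd_BUw {e : ℤ × ℤ} (he : e ∈ BUw D j B) : (e.1 + e.2) % 2 = 1 := D.odd_TS (mem_sdiff.1 he).1

lemma mem_RS' {xr y0 : ℤ} : lbt x y ∈ RS N xr y0 ↔ xr ≤ x ∧ x < xr + N ∧ y = y0 := by
  rw [mem_RS]
  constructor
  · rintro ⟨c, hc⟩
    have := c.2
    obtain ⟨h1, h2⟩ := lbt_inj hc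
    omega
  · rintro ⟨h1, h2, h3⟩
    refine ⟨⟨(x - xr).toNat, by omega⟩, ?_⟩
    unfold rl
    rw [h3]
    congr 1
    simp only
    omega

/-- **An environment with the row `j - 1` of the window.** -/
structure WRow (D : Win) (j : ℤ) (N : ℕ) (X : Env) (W B : Finset (ℤ × ℤ)) : Prop where
  j0 : 0 < j
  j1 : j < D.h
  hN : (N : ℤ) = D.M (j - 1) - D.m (j - 1)
  po : PO X W
  XE : X.E = BLw D j B ∪ BUw D j B ∪ RS N (D.m (j - 1)) (j - 1)
  ext : ∀ x y, D.InZ x y → Ou D x y → (lt (x, y) ∈ W ↔ D.InX x y)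
  root : ∀ x y, plab X.c0 = lt (x, y) → ¬ D.InZ x y

namespace WRow

variable (R : WRow D j N X W B)

include R

lemma lay : Lay3 X N (D.m (j - 1)) (j - 1) (BLw D j B) (BUw D j B) where
  row := by unfold HasRow; rw [R.XE]; exact subset_union_right
  eq := by
    rw [R.XE, union_sdiff_right, Finset.sdiff_eq_self_iff_disjoint, disjoint_left]
    intro e he he'
    obtain ⟨c, rfl⟩ := mem_RS.1 he'
    unfold rl at he
    rw [mem_union, mem_BLw, mem_BUw] at he
    omega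
  low e he := by
    obtain ⟨x, y, rfl⟩ := exists_lbt (odd_BLw he)
    have := (mem_BLw.1 he).1
    rw [lbt_diff]
    omega
  upp e he := by
    obtain ⟨x, y, rfl⟩ := exists_lbt (odd_BUw he)
    have := (mem_BUw.1 he).1
    rw [lbt_diff]
    omega

/-- the exterior of the frozen environments -/
lemma ext_LG (hz : D.InZ x y) (ho : Ou D x y) :
    lbt x y ∈ LG X W N (D.m (j - 1)) (j - 1) (BLw D j B) (BUw D j B) ω ↔ D.InX x y := by
  have hj0 := R.j0
  have hj1 := R.j1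
  rw [mem_LG_out R.lay, lbt_lt]
  · exact R.ext x y hz ho
  · intro h
    have h1 := (mem_BLw.1 h).1
    have h2 := m_le_a' (D := D) (y := y) h1.2.2.1
    have h3 := b_le_M' (D := D) (y := y) h1.2.2.1
    rcases ho with h4 | h4 | ⟨-, -, h4 | h4⟩ <;> omega
  · intro h
    have h1 := (mem_BUw.1 h).1
    have h2 := m_le_a (D := D) (y := y) h1.2.1
    have h3 := b_le_M (D := D) (y := y) h1.2.1
    rcases ho with h4 | h4 | ⟨-, -, h4 | h4⟩ <;> omega

end WRow

/-! ### Colour changes -/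

/-- the ends of the rows change only at the rows of `F` -/
def Few (D : Win) (F : Finset ℤ) : Prop :=
  ∀ y, 0 < y → y < D.h → y ∉ F → D.a y = D.a (y - 1) ∧ D.b y = D.b (y - 1)

/-- rows where the colour of the left resp. right side changes -/
noncomputable def chc (D : Win) (c : ℤ → Bool) : Finset ℤ :=
  (Ico (-1) (D.h - 1)).filter fun y => c y ≠ c (y + 1)

lemma m_succ {F : Finset ℤ} (hF : Few D F) (h1 : -1 ≤ y) (h2 : y + 1 < D.h) (h3 : y + 1 ∉ F)
    (h4 : y + 2 ∉ F) : D.m y = D.m (y + 1) := by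
  have hP := D.P0
  have hP1 := D.P1
  unfold Win.m Pool.Agent.H46.Sp.mm
  rcases lt_trichotomy (y + 2) D.yP with h5 | h5 | h5
  · rw [if_pos (by omega), if_pos (by omega)]
    have := (hF (y + 2) (by omega) (by omega) h4).1
    rw [show y + 2 - 1 = y + 1 by ring] at this
    rw [show y + 1 + 1 = y + 2 by ring, this]
  · rw [if_pos (by omega), if_neg (by omega)]
  · rw [if_neg (by omega), if_neg (by omega)]
    have := (hF (y + 1) (by omega) h2 h3).1
    rw [add_sub_cancel_right] at this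
    exact this.symm

lemma M_succ {F : Finset ℤ} (hF : Few D F) (h1 : -1 ≤ y) (h2 : y + 1 < D.h) (h3 : y + 1 ∉ F)
    (h4 : y + 2 ∉ F) : D.M y = D.M (y + 1) := by
  have hQ := D.Q0
  have hQ1 := D.Q1
  unfold Win.M Pool.Agent.H46.Sp.MM
  rcases lt_trichotomy (y + 1) D.yQ with h5 | h5 | h5
  · rw [if_pos (by omega), if_pos (by omega)]
    have := (hF (y + 2) (by omega) (by omega) h4).2
    rw [show y + 2 - 1 = y + 1 by ring] at this
    rw [show y + 1 + 1 = y + 2 by ring, this]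
  · rw [if_pos (by omega), if_neg (by omega)]
  · rw [if_neg (by omega), if_neg (by omega)]
    have := (hF (y + 1) (by omega) h2 h3).2
    rw [add_sub_cancel_right] at this
    exact this.symm

lemma chc_card {F : Finset ℤ} {c : ℤ → Bool}
    (h : ∀ y, -1 ≤ y → y + 1 < D.h → y + 1 ∉ F → y + 2 ∉ F → c y = c (y + 1)) :
    (chc D c).card ≤ 2 * F.card := by
  classical
  have h1 : chc D c ⊆ F.image (· - 1) ∪ F.image (· - 2) := by
    intro y hy
    unfold chc at hy
    rw [mem_filter, mem_Ico] at hy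
    rw [mem_union, mem_image, mem_image]
    by_contra h2
    rw [not_or] at h2
    refine hy.2 (h y hy.1.1 (by omega) (fun h3 => h2.1 ⟨_, h3, by ring⟩)
      (fun h3 => h2.2 ⟨_, h3, by ring⟩))
  refine (card_le_card h1).trans ((card_union_le _ _).trans ?_)
  have h2 : (F.image (· - 1)).card ≤ F.card := card_image_le
  have h3 : (F.image (· - 2)).card ≤ F.card := card_image_le
  omega

lemma chl_card {F : Finset ℤ} (hF : Few D F) : (chc D D.cl).card ≤ 2 * F.card :=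
  chc_card fun y h1 h2 h3 h4 => D.scl y h1 h2 (m_succ hF h1 h2 h3 h4)

lemma chr_card {F : Finset ℤ} (hF : Few D F) : (chc D D.cr).card ≤ 2 * F.card :=
  chc_card fun y h1 h2 h3 h4 => D.scr y h1 h2 (M_succ hF h1 h2 h3 h4)

lemma not_chc {c : ℤ → Bool} (h : y ∉ chc D c) (h1 : -1 ≤ y) (h2 : y + 1 < D.h) : c y = c (y + 1) := by
  unfold chc at h
  rw [mem_filter, mem_Ico] at h
  by_contra h3
  exact h ⟨by omega, h3⟩

/-! ### The exterior in coordinates -/

lemma InX_left (h1 : -1 ≤ y) (h2 : y < D.h) (h3 : xa D ≤ x) (h4 : x + 2 ≤ D.m y) :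
    D.InX x y ↔ D.cl y = true := by
  have h5 := m_lt_M h1 h2
  have h6 := M_max h1 h2
  unfold Win.InX Win.InZ
  unfold xa at h3
  constructor
  · rintro ⟨-, h | h | h | h⟩
    · exact h.2.2.2
    · omega
    · omega
    · omega
  · intro h
    exact ⟨⟨by omega, by omega, by omega, by omega⟩, Or.inl ⟨h1, h2, h4, h⟩⟩

lemma InX_right (h1 : -1 ≤ y) (h2 : y < D.h) (h3 : x < xb D) (h4 : D.M y + 1 ≤ x) :
    D.InX x y ↔ D.cr y = true := by
  have h5 := m_lt_M h1 h2
  have h6 := m_min h1 h2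
  unfold Win.InX Win.InZ
  unfold xb at h3
  constructor
  · rintro ⟨-, h | h | h | h⟩
    · omega
    · exact h.2.2.2
    · omega
    · omega
  · intro h
    exact ⟨⟨by omega, by omega, by omega, by omega⟩, Or.inr (Or.inl ⟨h1, h2, h4, h⟩)⟩

lemma InX_bot (h1 : xa D ≤ x) (h2 : x < xb D) : D.InX x (-2) ↔ D.cb = true := by
  have hh := D.hh
  unfold Win.InX Win.InZ
  unfold xa at h1
  unfold xb at h2
  constructor
  · rintro ⟨-, h | h | h | h⟩
    · omega
    · omega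
    · exact h.2
    · omega
  · intro h
    exact ⟨⟨by omega, by omega, by omega, by omega⟩, Or.inr (Or.inr (Or.inl ⟨rfl, h⟩))⟩

lemma InX_top (h1 : xa D ≤ x) (h2 : x < xb D) : D.InX x D.h ↔ D.ct = true := by
  have hh := D.hh
  unfold Win.InX Win.InZ
  unfold xa at h1
  unfold xb at h2
  constructor
  · rintro ⟨-, h | h | h | h⟩
    · omega
    · omega
    · omega
    · exact h.2
  · intro h
    exact ⟨⟨by omega, by omega, by omega, by omega⟩, Or.inr (Or.inr (Or.inr ⟨rfl, h⟩))⟩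

lemma xa_le (h1 : -1 ≤ y) (h2 : y < D.h) : xa D + 2 ≤ D.m y := by
  have := m_min h1 h2
  unfold xa; omega

lemma le_xb (h1 : -1 ≤ y) (h2 : y < D.h) : D.M y + 2 ≤ xb D := by
  have := M_max h1 h2
  unfold xb; omega

/-! ### The frame -/

/-- **The frame of the row `j - 1`.** -/
theorem frame_win (R : WRow D j N X W B) {F : Finset ℤ} (hF : Few D F)
    (hm1 : D.m j = D.m (j - 1)) (hm2 : D.m (j - 2) = D.m (j - 1)) (hM1 : D.M j = D.M (j - 1))
    (hM2 : D.M (j - 2) = D.M (j - 1)) (ω : Finset (ℤ × ℤ)) :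
    ∃ F' : Frame (LG X W N (D.m (j - 1)) (j - 1) (BLw D j B) (BUw D j B) ω) N (D.m (j - 1)) (j - 1),
      F'.EU.card ≤ 8 * F.card + 18 ∧ F'.ED.card ≤ 8 * F.card + 18 ∧
      ∀ x y : ℤ, F'.In (lbt x y) → xa D ≤ x ∧ x < xb D ∧ -2 ≤ y ∧ y ≤ D.h := by
  classical
  have hj0 := R.j0
  have hj1 := R.j1
  have hN := R.hN
  set L := LG X W N (D.m (j - 1)) (j - 1) (BLw D j B) (BUw D j B) ω with hL
  have hw1 := m_lt_M (D := D) (y := j - 1) (by omega) (by omega)
  have ha1 := xa_le (D := D) (y := j - 1) (by omega) (by omega)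
  have hb1 := le_xb (D := D) (y := j - 1) (by omega) (by omega)
  have eL : ∀ x y, D.InZ x y → Ou D x y → (lbt x y ∈ L ↔ D.InX x y) := fun x y h1 h2 =>
    R.ext_LG h1 h2
  -- colours
  have cL : ∀ x y, -1 ≤ y → y < D.h → xa D ≤ x → x + 2 ≤ D.m y → (lbt x y ∈ L ↔ D.cl y = true) := by
    intro x y h1 h2 h3 h4
    have h5 := m_lt_M h1 h2
    have h6 := le_xb h1 h2
    rw [eL x y (InZ_iff.2 ⟨h3, by omega, by omega, by omega⟩) (Or.inr (Or.inr ⟨h1, h2, Or.inl h4⟩)),
      InX_left h1 h2 h3 h4]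
  have cR : ∀ x y, -1 ≤ y → y < D.h → D.M y + 1 ≤ x → x < xb D → (lbt x y ∈ L ↔ D.cr y = true) := by
    intro x y h1 h2 h3 h4
    have h5 := m_lt_M h1 h2
    have h6 := xa_le h1 h2
    rw [eL x y (InZ_iff.2 ⟨by omega, h4, by omega, by omega⟩) (Or.inr (Or.inr ⟨h1, h2, Or.inr h3⟩)),
      InX_right h1 h2 h4 h3]
  have hh := D.hh
  have cB : ∀ x, xa D ≤ x → x < xb D → (lbt x (-2) ∈ L ↔ D.cb = true) := by
    intro x h1 h2
    rw [eL x (-2) (InZ_iff.2 ⟨h1, h2, by omega, by omega⟩) (Or.inl rfl), InX_bot h1 h2]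
  have cT : ∀ x, xa D ≤ x → x < xb D → (lbt x D.h ∈ L ↔ D.ct = true) := by
    intro x h1 h2
    rw [eL x D.h (InZ_iff.2 ⟨h1, h2, by omega, by omega⟩) (Or.inr (Or.inl rfl)), InX_top h1 h2]
  obtain ⟨o, ho⟩ : ∃ o : ℕ, (o : ℤ) = D.m (j - 1) - xa D := ⟨(D.m (j - 1) - xa D).toNat, by omega⟩
  obtain ⟨Wd, hWd⟩ : ∃ o : ℕ, (o : ℤ) = xb D - xa D := ⟨(xb D - xa D).toNat, by omega⟩
  obtain ⟨HU, hHU⟩ : ∃ o : ℕ, (o : ℤ) = D.h - (j - 1) := ⟨(D.h - (j - 1)).toNat, by omega⟩
  obtain ⟨HD, hHD⟩ : ∃ o : ℕ, (o : ℤ) = j + 1 := ⟨(j + 1).toNat, by omega⟩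
  have ex : D.m (j - 1) - (o : ℤ) = xa D := by omega
  have ex2 : xa D + (Wd : ℤ) = xb D := by omega
  have ey : j - 1 + (HU : ℤ) = D.h := by omega
  have ey2 : j - 1 - (HD : ℤ) = -2 := by omega
  have n1 : (chc D D.cl).card ≤ 2 * F.card := chl_card hF
  have n2 : (chc D D.cr).card ≤ 2 * F.card := chr_card hF
  refine Exists.elim (frame_box (L := L) (N := N) (x0 := D.m (j - 1)) (y0 := j - 1) (o := o)
    (W := Wd) (HU := HU) (HD := HD) (by omega) (by omega) (by omega) (by omega) (by omega)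
    (CUL := insert (D.h - 1) (chc D D.cl)) (CUR := insert (D.h - 1) (chc D D.cr)) (CUT := ∅)
    (CUB := {D.m j - 2, D.M j}) (CDL := insert (-2) (chc D D.cl)) (CDR := insert (-2) (chc D D.cr))
    (CDT := {D.m (j - 2) - 2, D.M (j - 2)}) (CDB := ∅) ?_ ?_ ?_ ?_ ?_ ?_ ?_ ?_) ?_
  · -- upper box, left
    intro y h1 h2 h3
    rw [ex]
    rw [ey] at h2
    rw [mem_insert, not_or] at h3
    have g1 := xa_le (D := D) (y := y) (by omega) h2
    have g2 := xa_le (D := D) (y := y + 1) (by omega) (by omega)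
    rw [cL _ _ (by omega) h2 le_rfl g1, cL _ _ (by omega) (by omega) le_rfl g2,
      not_chc h3.2 (by omega) (by omega)]
  · -- upper box, right
    intro y h1 h2 h3
    rw [ex, ex2]
    rw [ey] at h2
    rw [mem_insert, not_or] at h3
    have g1 := le_xb (D := D) (y := y) (by omega) h2
    have g2 := le_xb (D := D) (y := y + 1) (by omega) (by omega)
    rw [cR _ _ (by omega) h2 (by omega) (by omega), cR _ _ (by omega) (by omega) (by omega) (by omega),
      not_chc h3.2 (by omega) (by omega)]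
  · -- upper box, top
    intro x h1 h2 _
    rw [ex] at h1 h2
    rw [ex2] at h2
    rw [ey, cT x h1 (by omega), cT (x + 1) (by omega) h2]
  · -- upper box, bottom
    intro x h1 h2 h3 h4
    rw [ex] at h1 h2
    rw [ex2] at h2
    rw [sub_add_cancel]
    simp only [mem_insert, mem_singleton, not_or] at h3
    rcases h4 with h4 | h4
    · rw [cL _ _ (by omega) hj1 h1 (by omega), cL _ _ (by omega) hj1 (by omega) (by omega)]
    · rw [cR _ _ (by omega) hj1 (by omega) (by omega), cR _ _ (by omega) hj1 (by omega) (by omega)]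
  · -- lower box, left
    intro y h1 h2 h3
    rw [ex]
    rw [ey2] at h1
    rw [mem_insert, not_or] at h3
    have g1 := xa_le (D := D) (y := y) (by omega) (by omega)
    have g2 := xa_le (D := D) (y := y + 1) (by omega) (by omega)
    rw [cL _ _ (by omega) (by omega) le_rfl g1, cL _ _ (by omega) (by omega) le_rfl g2,
      not_chc h3.2 (by omega) (by omega)]
  · -- lower box, right
    intro y h1 h2 h3
    rw [ex, ex2]
    rw [ey2] at h1
    rw [mem_insert, not_or] at h3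
    have g1 := le_xb (D := D) (y := y) (by omega) (by omega)
    have g2 := le_xb (D := D) (y := y + 1) (by omega) (by omega)
    rw [cR _ _ (by omega) (by omega) (by omega) (by omega),
      cR _ _ (by omega) (by omega) (by omega) (by omega), not_chc h3.2 (by omega) (by omega)]
  · -- lower box, bottom
    intro x h1 h2 _
    rw [ex] at h1 h2
    rw [ex2] at h2
    rw [ey2, cB x h1 (by omega), cB (x + 1) (by omega) h2]
  · -- lower box, top
    intro x h1 h2 h3 h4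
    rw [ex] at h1 h2
    rw [ex2] at h2
    rw [show j - 1 - 1 = j - 2 by ring]
    simp only [mem_insert, mem_singleton, not_or] at h3
    rcases h4 with h4 | h4
    · rw [cL _ _ (by omega) (by omega) h1 (by omega), cL _ _ (by omega) (by omega) (by omega) (by omega)]
    · rw [cR _ _ (by omega) (by omega) (by omega) (by omega),
        cR _ _ (by omega) (by omega) (by omega) (by omega)]
  · rintro F' ⟨f1, f2, f3⟩
    refine ⟨F', ?_, ?_, ?_⟩
    · refine f1.trans ?_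
      have h1 := card_insert_le (D.h - 1) (chc D D.cl)
      have h2 := card_insert_le (D.h - 1) (chc D D.cr)
      have h3 : ({D.m j - 2, D.M j} : Finset ℤ).card ≤ 2 := card_le_two
      rw [card_empty]
      omega
    · refine f2.trans ?_
      have h1 := card_insert_le (-2) (chc D D.cl)
      have h2 := card_insert_le (-2) (chc D D.cr)
      have h3 : ({D.m (j - 2) - 2, D.M (j - 2)} : Finset ℤ).card ≤ 2 := card_le_two
      rw [card_empty]
      omega
    · intro x y hxy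
      have h1 := f3 x y hxy
      rw [ex, ex2, ey, ey2] at h1
      exact h1

/-! ### The interface of chapter B -/

/-- the rows near the row `j - 1` have the same ends -/
structure Flat (D : Win) (j r : ℤ) : Prop where
  r2 : 2 ≤ r
  lo : r ≤ j
  hi : j + r ≤ D.h
  ab : ∀ y, j - r ≤ y → y < j + r → D.a y = D.a j ∧ D.b y = D.b j

namespace Flat

variable {r : ℤ} (H : Flat D j r)

include H

lemma m_eq (h1 : j - 2 ≤ y) (h2 : y ≤ j) : D.m y = D.a j := by
  have := H.r2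
  unfold Win.m Pool.Agent.H46.Sp.mm
  split_ifs
  · exact (H.ab _ (by omega) (by omega)).1
  · exact (H.ab _ (by omega) (by omega)).1

lemma M_eq (h1 : j - 2 ≤ y) (h2 : y ≤ j) : D.M y = D.b j := by
  have := H.r2
  unfold Win.M Pool.Agent.H46.Sp.MM
  split_ifs
  · exact (H.ab _ (by omega) (by omega)).2
  · exact (H.ab _ (by omega) (by omega)).2

end Flat

/-- special columns at the walls -/
noncomputable def Swx (N : ℕ) (x0 y0 : ℤ) : Finset ℤ :=
  (({0, 1, 2, 3} : Finset ℤ) ∪ {(N : ℤ) - 4, (N : ℤ) - 3, (N : ℤ) - 2, (N : ℤ) - 1, (N : ℤ)}).image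
    fun c => x0 - y0 + 1 + c

lemma card_Swx (x0 y0 : ℤ) : (Swx N x0 y0).card ≤ 9 := by
  unfold Swx
  refine card_image_le.trans ((card_union_le _ _).trans ?_)
  have h1 : ({0, 1, 2, 3} : Finset ℤ).card ≤ 4 := by decide
  have h2 : ({(N : ℤ) - 4, (N : ℤ) - 3, (N : ℤ) - 2, (N : ℤ) - 1, (N : ℤ)} : Finset ℤ).card ≤ 5 := by
    refine (card_insert_le _ _).trans (Nat.succ_le_succ ?_)
    refine (card_insert_le _ _).trans (Nat.succ_le_succ ?_)
    refine (card_insert_le _ _).trans (Nat.succ_le_succ ?_)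
    exact card_le_two
  omega

lemma mem_Swx {x0 y0 c : ℤ} (hc : (0 ≤ c ∧ c ≤ 3) ∨ ((N : ℤ) - 4 ≤ c ∧ c ≤ N)) :
    x0 - y0 + 1 + c ∈ Swx N x0 y0 := by
  unfold Swx
  refine mem_image.2 ⟨c, ?_, rfl⟩
  rw [mem_union]
  simp only [mem_insert, mem_singleton]
  omega

/-- the fixed open labels of the glued configuration -/
noncomputable def WGw (D : Win) (j : ℤ) (W B : Finset (ℤ × ℤ)) : Finset (ℤ × ℤ) :=
  WGb (xa D) (xb D) (-2) D.h (j - 1) W (BUw D j B)

/-- **The interface of chapter B for the row `j - 1` of a window.** -/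
theorem rowI_win (R : WRow D j N X W B) {F : Finset ℤ} (hF : Few D F) {r : ℤ} (H : Flat D j r)
    (hB : Sep B N (D.m (j - 1)) (j - 1)) (hB' : Sep B N (D.m (j - 1)) j) {k : ℕ} (hk1 : 1 ≤ k)
    (hkN : k + 1 ≤ N) {K0 : ℤ} (hK0 : 6 ≤ K0) (hNK : (N : ℤ) < K0 * (r + 1)) {R0 : ℕ}
    (hR : (R0 : ℤ) ≤ r) {g : ℕ} (hg : 16 * F.card + 36 ≤ g) :
    RowI X N (D.m (j - 1)) (j - 1) k (BLw D j B) (BUw D j B) (WGw D j W B) K0 g 9 R0
      (Swx N (D.m (j - 1)) (j - 1)) := by
  have hj0 := R.j0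
  have hj1 := R.j1
  have hN := R.hN
  have r2 := H.r2
  have hlo := H.lo
  have hhi := H.hi
  have e1 := H.m_eq (y := j - 1) (by omega) (by omega)
  have e2 := H.M_eq (y := j - 1) (by omega) (by omega)
  have hmem : ∀ x, D.m (j - 1) ≤ x → x < D.m (j - 1) + N → D.a j ≤ x ∧ x < D.b j := by
    intro x h1 h2; omega
  have hL : ∀ x y : ℤ, D.m (j - 1) ≤ x → x < D.m (j - 1) + N → j - 1 - r ≤ y → y < j - 1 →
      lbt x y ∉ B → lbt x y ∈ BLw D j B := by
    intro x y h1 h2 h3 h4 h5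
    have h6 := H.ab (y + 1) (by omega) (by omega)
    have h7 := hmem x h1 h2
    exact mem_BLw.2 ⟨⟨by omega, h4, by omega, by omega, by omega⟩, h5⟩
  have hU : ∀ x y : ℤ, D.m (j - 1) ≤ x → x < D.m (j - 1) + N → j - 1 < y → y < j + r →
      lbt x y ∉ B → lbt x y ∈ BUw D j B := by
    intro x y h1 h2 h3 h4 h5
    have h6 := H.ab y (by omega) (by omega)
    have h7 := hmem x h1 h2
    exact mem_BUw.2 ⟨⟨by omega, by omega, by omega, by omega, by omega⟩, h5⟩
  refine ⟨R.lay, ?_, disj_WGb R.po R.lay, ?_, ?_, card_Swx _ _⟩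
  · have h3 := rowGeo_glued (EL := BLw D j B) (EU := BUw D j B) (BL := B) (BU := B) (N := N) (k := k)
      (x0 := D.m (j - 1)) (y0 := j - 1) (ya := j - 1 - r) (yb := j + r) (K0 := K0) hk1 hkN hK0
      (by rw [show j - 1 - (j - 1 - r) + 1 = r + 1 by ring]; exact hNK)
      (by rw [show j + r - (j - 1) = r + 1 by ring]; exact hNK) hL hU hB
      (by rw [sub_add_cancel]; exact hB')
    exact h3
  · intro ζ hζ
    obtain ⟨F', f1, f2, f3⟩ := frame_win R hF
      ((H.m_eq (y := j) (by omega) le_rfl).trans e1.symm)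
      ((H.m_eq (y := j - 2) le_rfl (by omega)).trans e1.symm)
      ((H.M_eq (y := j) (by omega) le_rfl).trans e2.symm)
      ((H.M_eq (y := j - 2) le_rfl (by omega)).trans e2.symm) ζ
    refine ⟨_, F', outL_LG R.po, ?_, glab_WGb R.po R.lay hζ F' f3, by omega⟩
    intro hI
    obtain ⟨x, y, e⟩ := exists_lbt (odd_plab' X.c0)
    rw [e] at hI
    exact R.root x y e (InZ_iff.2 (f3 x y hI))
  · intro Sp hSp c M hM1 hM e ho h1 h2
    obtain ⟨hMR, hMs⟩ := hM
    refine near_row hL hU hB (by rw [sub_add_cancel]; exact hB') hM1 (by omega) (by omega) ?_ ho h1 h2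
    intro d hd
    have h3 := hMs _ (hSp (mem_Swx (x0 := D.m (j - 1)) (y0 := j - 1) hd))
    have e3 : (sc (D.m (j - 1)) (j - 1) c).1 = D.m (j - 1) - (j - 1) + 1 + ((c : ℕ) : ℤ) := by
      unfold sc sm; simp
    rw [e3, show D.m (j - 1) - (j - 1) + 1 + ((c : ℕ) : ℤ) - (D.m (j - 1) - (j - 1) + 1 + d) =
      ((c : ℕ) : ℤ) - d by ring] at h3
    exact h3

end Pool.Agent.H30.Sp
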