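import Mathlib
import Pool.Agent.H30.Mid.Gix

set_option autoImplicit false
open Finset

/-! # Index zero outside a region: colours, bad tiles, sides

`Z O κ x y` : the two corners of the colour `κ` of the tile `(x, y)` (vertices for `κ = true` = open,
faces for `κ = false` = closed) have index zero. It passes to a neighbouring tile of the colour `κ`, and
to all four corners of a bad tile (a tile whose four sides are not in `O`). -/

namespace Pool.Agent.H30.Sp

open Pool.Agent.H75.Perc Pool.Agent.H75.TwoArm Pool.Agent.Q1 Pool.Agent.H33.Q1 Pool.Agent.H30.Mid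
open Pool.Agent.Q1.M6b.Nest Pool.Agent.H74.R45 Pool.Agent.H13.R45

variable {W O Gt : Finset (ℤ × ℤ)} {x y : ℤ} {κ : Bool}

/-- the corners of the colour `κ` of the tile `(x, y)` are `(x, y)`, `(x + 1, y + 1)` -/
def dg (κ : Bool) (x y : ℤ) : Prop := (x + y) % 2 = 0 ↔ κ = true

instance : Decidable (dg κ x y) := by unfold dg; infer_instance

/-- index zero at the corners of the colour `κ` -/
def Z (O : Finset (ℤ × ℤ)) (κ : Bool) (x y : ℤ) : Prop :=
  (dg κ x y → ix O x y = 0 ∧ ix O (x + 1) (y + 1) = 0) ∧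
  (¬ dg κ x y → ix O (x + 1) y = 0 ∧ ix O x (y + 1) = 0)

/-- the corners of the colour `κ` have the same index -/
def Eq2 (O : Finset (ℤ × ℤ)) (κ : Bool) (x y : ℤ) : Prop :=
  (dg κ x y → ix O x y = ix O (x + 1) (y + 1)) ∧ (¬ dg κ x y → ix O (x + 1) y = ix O x (y + 1))

/-- bad tile: the four sides are not in `O` -/
def Bd (O : Finset (ℤ × ℤ)) (x y : ℤ) : Prop :=
  ve (x, y) ∉ O ∧ ve (x + 1, y) ∉ O ∧ he (x, y) ∉ O ∧ he (x, y + 1) ∉ O

lemma dg_succ_x : dg κ (x + 1) y ↔ ¬ dg κ x y := by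
  unfold dg; cases κ <;> simp <;> omega

lemma dg_succ_y : dg κ x (y + 1) ↔ ¬ dg κ x y := by
  unfold dg; cases κ <;> simp <;> omega

lemma dg_not : dg (!κ) x y ↔ ¬ dg κ x y := by
  unfold dg; cases κ <;> simp

/-- a tile of the colour `κ` -/
lemma eq2_color (hO : Inv W O) (h : lt (x, y) ∈ W ↔ κ = true) : Eq2 O κ x y := by
  unfold Eq2 dg
  cases κ
  · have hn : lt (x, y) ∉ W := fun h1 => by simpa using h.1 h1
    simp only [Bool.false_eq_true, iff_false]
    exact ⟨fun h0 => ix_clo1 hO hn (by omega), fun h0 => ix_clo0 hO hn (by omega)⟩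
  · have hn : lt (x, y) ∈ W := h.2 rfl
    simp only [iff_true]
    exact ⟨fun h0 => ix_open0 hO hn h0, fun h0 => ix_open1 hO hn (by omega)⟩

/-- the four corners of a bad tile -/
lemma bd_all (hO : Inv W O) (h : Bd O x y) : ix O x (y + 1) = ix O x y ∧ ix O (x + 1) y = ix O x y ∧
    ix O (x + 1) (y + 1) = ix O x y := by
  obtain ⟨h1, h2, h3, h4⟩ := h
  have e1 := ix_ve hO h1
  have e2 := ix_ve hO h2
  have e3 := ix_he hO h3
  exact ⟨e1.symm, e3.symm, e2.symm.trans e3.symm⟩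

lemma eq2_bad (hO : Inv W O) (h : Bd O x y) : Eq2 O κ x y := by
  obtain ⟨e1, e2, e3⟩ := bd_all hO h
  exact ⟨fun _ => e3.symm, fun _ => e2.trans e1.symm⟩

/-- all corners of a bad tile -/
lemma z_bad (hO : Inv W O) (h : Bd O x y) (hz : Z O κ x y) (κ' : Bool) : Z O κ' x y := by
  obtain ⟨e1, e2, e3⟩ := bd_all hO h
  have h0 : ix O x y = 0 := by
    by_cases hd : dg κ x y
    · exact (hz.1 hd).1
    · rw [← e2]; exact (hz.2 hd).1
  rw [h0] at e1 e2 e3
  exact ⟨fun _ => ⟨h0, e3⟩, fun _ => ⟨e2, e1⟩⟩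

/-! ### Steps to the neighbours -/

lemma z_right (h : Z O κ x y) (he : Eq2 O κ (x + 1) y) : Z O κ (x + 1) y := by
  unfold Z Eq2 at *
  rw [dg_succ_x, not_not] at he
  rw [dg_succ_x, not_not]
  refine ⟨fun hd => ?_, fun hd => ?_⟩
  · have h1 := (h.2 hd).1
    exact ⟨h1, by rw [← he.1 hd]; exact h1⟩
  · have h1 := (h.1 hd).2
    exact ⟨by rw [he.2 hd]; exact h1, h1⟩

lemma z_left (h : Z O κ (x + 1) y) (he : Eq2 O κ x y) : Z O κ x y := by
  unfold Z Eq2 at *
  rw [dg_succ_x, not_not] at h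
  refine ⟨fun hd => ?_, fun hd => ?_⟩
  · have h1 := (h.2 hd).2
    exact ⟨by rw [he.1 hd]; exact h1, h1⟩
  · have h1 := (h.1 hd).1
    exact ⟨h1, by rw [← he.2 hd]; exact h1⟩

lemma z_up (h : Z O κ x y) (he : Eq2 O κ x (y + 1)) : Z O κ x (y + 1) := by
  unfold Z Eq2 at *
  rw [dg_succ_y, not_not] at he
  rw [dg_succ_y, not_not]
  refine ⟨fun hd => ?_, fun hd => ?_⟩
  · have h1 := (h.2 hd).2
    exact ⟨h1, by rw [← he.1 hd]; exact h1⟩
  · have h1 := (h.1 hd).2
    exact ⟨h1, by rw [← he.2 hd]; exact h1⟩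

lemma z_right' (h : Z O κ (x - 1) y) (he : Eq2 O κ x y) : Z O κ x y := by
  have h1 := z_right (x := x - 1) h (by rwa [sub_add_cancel])
  rwa [sub_add_cancel] at h1

lemma z_up' (h : Z O κ x (y - 1)) (he : Eq2 O κ x y) : Z O κ x y := by
  have h1 := z_up (y := y - 1) h (by rwa [sub_add_cancel])
  rwa [sub_add_cancel] at h1

/-- along a row to the right -/
lemma z_row_r {p q : ℤ} (h : Z O κ p y) (hE : ∀ x', p < x' → x' ≤ q → Eq2 O κ x' y) {x : ℤ}
    (h1 : p ≤ x) (h2 : x ≤ q) : Z O κ x y := by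
  have key : ∀ n : ℕ, p + n ≤ q → Z O κ (p + n) y := by
    intro n
    induction n with
    | zero => intro _; simpa using h
    | succ n ih =>
      intro hn
      push_cast at hn ⊢
      rw [← add_assoc]
      exact z_right (ih (by omega)) (hE _ (by omega) (by omega))
  have h3 := key (x - p).toNat (by omega)
  rwa [show p + ((x - p).toNat : ℤ) = x by omega] at h3

/-- along a row to the left -/
lemma z_row_l {p q : ℤ} (h : Z O κ q y) (hE : ∀ x', p ≤ x' → x' < q → Eq2 O κ x' y) {x : ℤ}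
    (h1 : p ≤ x) (h2 : x ≤ q) : Z O κ x y := by
  have key : ∀ n : ℕ, p ≤ q - n → Z O κ (q - n) y := by
    intro n
    induction n with
    | zero => intro _; simpa using h
    | succ n ih =>
      intro hn
      push_cast at hn ⊢
      refine z_left ?_ (hE _ (by omega) (by omega))
      rw [show q - ((n : ℤ) + 1) + 1 = q - n by ring]
      exact ih (by omega)
  have h3 := key (q - x).toNat (by omega)
  rwa [show q - ((q - x).toNat : ℤ) = x by omega] at h3

/-- along a row -/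
lemma z_row {p q x0 : ℤ} (h : Z O κ x0 y) (hp : p ≤ x0) (hq : x0 ≤ q)
    (hE : ∀ x', p ≤ x' → x' ≤ q → Eq2 O κ x' y) {x : ℤ} (h1 : p ≤ x) (h2 : x ≤ q) : Z O κ x y := by
  rcases le_or_gt x0 x with h3 | h3
  · exact z_row_r (p := x0) (q := q) h (fun x' a b => hE x' (by omega) b) h3 h2
  · exact z_row_l (p := p) (q := x0) h (fun x' a b => hE x' a (by omega)) h1 h3.le

/-! ### Rays -/

lemma z_fr (h1 : fr y x O = 0) (h2 : fr y (x + 1) O = 0) : Z O false x y := by
  unfold Z dg fr at *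
  simp only [Bool.false_eq_true, iff_false]
  refine ⟨fun hd => ?_, fun hd => ?_⟩
  · rw [if_pos (by omega)] at h1
    rw [if_neg (by omega)] at h2
    exact ⟨h1, h2⟩
  · rw [if_neg (by omega)] at h1
    rw [if_pos (by omega)] at h2
    exact ⟨h2, h1⟩

lemma z_fu (h1 : fu x y O = 0) (h2 : fu x (y + 1) O = 0) : Z O false x y := by
  unfold Z dg fu at *
  simp only [Bool.false_eq_true, iff_false]
  refine ⟨fun hd => ?_, fun hd => ?_⟩
  · rw [if_pos (by omega)] at h1
    rw [if_neg (by omega)] at h2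
    exact ⟨h1, h2⟩
  · rw [if_neg (by omega)] at h1
    rw [if_pos (by omega)] at h2
    exact ⟨h1, h2⟩

lemma z_ray_l (hO : Inv W O) (h : ∀ x' : ℤ, x' ≤ x → lt (x', y) ∉ W) : Z O false x y :=
  z_fr (ray_l hO fun x' hx => h x' (by omega)) (ray_l hO fun x' hx => h x' (by omega))

lemma z_ray_r (hO : Inv W O) (h : ∀ x' : ℤ, x ≤ x' → lt (x', y) ∉ W) : Z O false x y :=
  z_fr (ray_r hO fun x' hx => h x' hx) (ray_r hO fun x' hx => h x' (by omega))

lemma z_ray_u (hO : Inv W O) (h : ∀ y' : ℤ, y ≤ y' → lt (x, y') ∉ W) : Z O false x y :=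
  z_fu (ray_u hO fun y' hy => h y' hy) (ray_u hO fun y' hy => h y' (by omega))

lemma z_ray_d (hO : Inv W O) (h : ∀ y' : ℤ, y' ≤ y → lt (x, y') ∉ W) : Z O false x y :=
  z_fu (ray_d hO fun y' hy => h y' (by omega)) (ray_d hO fun y' hy => h y' (by omega))

/-- the corners of a tile with index zero at the corners of its colour -/
theorem z_lab (hO : Inv W O) (hz : ∀ κ : Bool, (lt (x, y) ∈ W ↔ κ = true) → Z O κ x y) {c : ℤ × ℤ}
    (hc : lab c = lt (x, y)) :
    (lt (x, y) ∈ W → ixv O (vx c) = 0) ∧ (lt (x, y) ∉ W → ixf O (fi c) = 0) := by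
  refine ix_tile hO (fun hw => ?_) (fun hw => ?_) hc
  · have h1 := hz true (by simp [hw])
    unfold Z dg at h1
    simp only [iff_true] at h1
    exact ⟨fun h => (h1.1 h).1, fun h => (h1.2 (by omega)).1⟩
  · have h1 := hz false (by simp [hw])
    unfold Z dg at h1
    simp only [Bool.false_eq_true, iff_false] at h1
    exact ⟨fun h => (h1.2 (by omega)).1, fun h => (h1.1 (by omega)).1⟩

/-! ### The sides of a region -/

/-- the gates of a set of tiles: their four sides -/
noncomputable def gts (Bs : Finset (ℤ × ℤ)) : Finset (ℤ × ℤ) :=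
  Bs.biUnion fun p => {ve (p.1, p.2), ve (p.1 + 1, p.2), he (p.1, p.2), he (p.1, p.2 + 1)}

lemma card_gts (Bs : Finset (ℤ × ℤ)) : (gts Bs).card ≤ 4 * Bs.card := by
  unfold gts
  refine (card_biUnion_le_card_mul _ _ 4 fun p _ => ?_).trans (by rw [mul_comm])
  exact card_le_four

lemma bd_of_gts {Bs : Finset (ℤ × ℤ)} (hg : ∀ g ∈ gts Bs, g ∉ O) (h : (x, y) ∈ Bs) : Bd O x y := by
  have key : ∀ g ∈ ({ve (x, y), ve (x + 1, y), he (x, y), he (x, y + 1)} : Finset (ℤ × ℤ)), g ∉ O :=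
    fun g hgg => hg g (mem_biUnion.2 ⟨(x, y), h, hgg⟩)
  exact ⟨key _ (by simp), key _ (by simp), key _ (by simp), key _ (by simp)⟩

/-- the left side of a region: in the row `y` the tiles `xa ≤ x < A y` are outside (colour `e y`), the
tiles `A y ≤ x < A' y` belong to the line (colour `l y`); `S` : rows where the colours change;
`Bs` : bad tiles. -/
structure LSide (W : Finset (ℤ × ℤ)) (Bs : Finset (ℤ × ℤ)) (xa ya yb : ℤ) (A A' : ℤ → ℤ)
    (e l : ℤ → Bool) (S : Finset ℤ) : Prop where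
  out : ∀ x y : ℤ, ya ≤ y → y < yb → x < xa → lt (x, y) ∉ W
  ext : ∀ x y : ℤ, ya ≤ y → y < yb → xa ≤ x → x < A y → (x, y) ∉ Bs → (lt (x, y) ∈ W ↔ e y = true)
  lin : ∀ x y : ℤ, ya ≤ y → y < yb → A y ≤ x → x < A' y → (x, y) ∉ Bs → (lt (x, y) ∈ W ↔ l y = true)
  bs0 : ∀ y ∈ S, (xa, y) ∈ Bs
  bs1 : ∀ y ∈ S, (A y, y) ∈ Bs
  low : ∀ y : ℤ, ya ≤ y → y < yb → xa ≤ A y
  st : ∀ y : ℤ, ya ≤ y → y < yb → y ∉ S → ya < y ∧ (xa < A y → xa < A (y - 1) ∧ e y = e (y - 1)) ∧
    (A y < A' y → l y = l (y - 1) ∧ ∃ x, A (y - 1) ≤ x ∧ x < A' (y - 1) ∧ A y ≤ x ∧ x < A' y)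

/-- **Index zero on the left side.** -/
theorem LSide.zero {Bs : Finset (ℤ × ℤ)} {xa ya yb : ℤ} {A A' : ℤ → ℤ} {e l : ℤ → Bool}
    {S : Finset ℤ} (L : LSide W Bs xa ya yb A A' e l S) (hO : Inv W O) (hg : ∀ g ∈ gts Bs, g ∉ O) :
    ∀ y : ℤ, ya ≤ y → y < yb → (∀ x, xa ≤ x → x < A y → Z O (e y) x y) ∧
      (∀ x, A y ≤ x → x < A' y → Z O (l y) x y) := by
  have hEe : ∀ x y : ℤ, ya ≤ y → y < yb → xa ≤ x → x < A y → Eq2 O (e y) x y := by
    intro x y h1 h2 h3 h4
    by_cases h5 : (x, y) ∈ Bs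
    · exact eq2_bad hO (bd_of_gts hg h5)
    · exact eq2_color hO (L.ext x y h1 h2 h3 h4 h5)
  have hEl : ∀ x y : ℤ, ya ≤ y → y < yb → A y ≤ x → x < A' y → Eq2 O (l y) x y := by
    intro x y h1 h2 h3 h4
    by_cases h5 : (x, y) ∈ Bs
    · exact eq2_bad hO (bd_of_gts hg h5)
    · exact eq2_color hO (L.lin x y h1 h2 h3 h4 h5)
  have hray : ∀ y : ℤ, ya ≤ y → y < yb → Z O false (xa - 1) y := fun y h1 h2 =>
    z_ray_l hO fun x' hx => L.out x' y h1 h2 (by omega)
  have key : ∀ n : ℕ, ya + n < yb →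
      (∀ x, xa ≤ x → x < A (ya + n) → Z O (e (ya + n)) x (ya + n)) ∧
      (∀ x, A (ya + n) ≤ x → x < A' (ya + n) → Z O (l (ya + n)) x (ya + n)) := by
    intro n
    induction n with
    | zero =>
      intro hn
      simp only [Nat.cast_zero, add_zero] at hn ⊢
      have hS : ya ∈ S := by
        by_contra h
        have := (L.st ya le_rfl hn h).1
        omega
      have b0 := bd_of_gts hg (L.bs0 ya hS)
      have b1 := bd_of_gts hg (L.bs1 ya hS)
      have z0 : Z O false xa ya := z_right' (hray ya le_rfl hn) (eq2_bad hO b0)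
      have z1 : ∀ κ, Z O κ xa ya := fun κ => z_bad hO b0 z0 κ
      have hext : ∀ x, xa ≤ x → x < A ya → Z O (e ya) x ya := fun x h1 h2 =>
        z_row (q := A ya - 1) (z1 _) le_rfl (by omega)
          (fun x' a b => hEe x' ya le_rfl hn a (by omega)) h1 (by omega)
      refine ⟨hext, fun x h1 h2 => ?_⟩
      have hl := L.low ya le_rfl hn
      have z2 : Z O (l ya) (A ya) ya := by
        rcases eq_or_lt_of_le hl with h3 | h3
        · rw [← h3]; exact z1 _
        · exact z_bad hO b1 (z_right' (hext (A ya - 1) (by omega) (by omega)) (eq2_bad hO b1)) _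
      exact z_row (p := A ya) (q := A' ya - 1) z2 le_rfl (by omega)
        (fun x' a b => hEl x' ya le_rfl hn a (by omega)) h1 (by omega)
    | succ n ih =>
      intro hn
      push_cast at hn
      obtain ⟨ih1, ih2⟩ := ih (by omega)
      have e1 : ya + ((n + 1 : ℕ) : ℤ) = ya + n + 1 := by push_cast; ring
      rw [e1]
      set y := ya + (n : ℤ) + 1 with hy
      have ey : y - 1 = ya + n := by rw [hy]; ring
      have hy0 : ya ≤ y := by omega
      have hy1 : y < yb := by omega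
      by_cases hS : y ∈ S
      · have b0 := bd_of_gts hg (L.bs0 y hS)
        have b1 := bd_of_gts hg (L.bs1 y hS)
        have z0 : Z O false xa y := z_right' (hray y hy0 hy1) (eq2_bad hO b0)
        have z1 : ∀ κ, Z O κ xa y := fun κ => z_bad hO b0 z0 κ
        have hext : ∀ x, xa ≤ x → x < A y → Z O (e y) x y := fun x h1 h2 =>
          z_row (q := A y - 1) (z1 _) le_rfl (by omega)
            (fun x' a b => hEe x' y hy0 hy1 a (by omega)) h1 (by omega)
        refine ⟨hext, fun x h1 h2 => ?_⟩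
        have hl := L.low y hy0 hy1
        have z2 : Z O (l y) (A y) y := by
          rcases eq_or_lt_of_le hl with h3 | h3
          · rw [← h3]; exact z1 _
          · exact z_bad hO b1 (z_right' (hext (A y - 1) (by omega) (by omega)) (eq2_bad hO b1)) _
        exact z_row (p := A y) (q := A' y - 1) z2 le_rfl (by omega)
          (fun x' a b => hEl x' y hy0 hy1 a (by omega)) h1 (by omega)
      · obtain ⟨-, s1, s2⟩ := L.st y hy0 hy1 hS
        rw [ey] at s1 s2
        refine ⟨fun x h1 h2 => ?_, fun x h1 h2 => ?_⟩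
        · obtain ⟨s3, s4⟩ := s1 (by omega)
          have z0 : Z O (e y) xa y := by
            refine z_up' ?_ (hEe xa y hy0 hy1 le_rfl (by omega))
            rw [ey, s4]
            exact ih1 xa le_rfl s3
          exact z_row (q := A y - 1) z0 le_rfl (by omega)
            (fun x' a b => hEe x' y hy0 hy1 a (by omega)) h1 (by omega)
        · obtain ⟨s3, x0, s4, s5, s6, s7⟩ := s2 (by omega)
          have z0 : Z O (l y) x0 y := by
            refine z_up' ?_ (hEl x0 y hy0 hy1 s6 s7)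
            rw [ey, s3]
            exact ih2 x0 s4 s5
          exact z_row (p := A y) (q := A' y - 1) z0 s6 (by omega)
            (fun x' a b => hEl x' y hy0 hy1 a (by omega)) h1 (by omega)
  intro y h1 h2
  have h3 := key (y - ya).toNat (by omega)
  rwa [show ya + (((y - ya).toNat : ℕ) : ℤ) = y by omega] at h3

/-- the right side of a region: in the row `y` the tiles `B y ≤ x < xb` are outside (colour `e y`), the
tiles `B' y ≤ x < B y` belong to the line (colour `l y`) -/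
structure RSide (W : Finset (ℤ × ℤ)) (Bs : Finset (ℤ × ℤ)) (xb ya yb : ℤ) (B' B : ℤ → ℤ)
    (e l : ℤ → Bool) (S : Finset ℤ) : Prop where
  out : ∀ x y : ℤ, ya ≤ y → y < yb → xb ≤ x → lt (x, y) ∉ W
  ext : ∀ x y : ℤ, ya ≤ y → y < yb → B y ≤ x → x < xb → (x, y) ∉ Bs → (lt (x, y) ∈ W ↔ e y = true)
  lin : ∀ x y : ℤ, ya ≤ y → y < yb → B' y ≤ x → x < B y → (x, y) ∉ Bs → (lt (x, y) ∈ W ↔ l y = true)
  bs0 : ∀ y ∈ S, (xb - 1, y) ∈ Bs
  bs1 : ∀ y ∈ S, (B y - 1, y) ∈ Bs
  low : ∀ y : ℤ, ya ≤ y → y < yb → B y ≤ xb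
  st : ∀ y : ℤ, ya ≤ y → y < yb → y ∉ S → ya < y ∧ (B y < xb → B (y - 1) < xb ∧ e y = e (y - 1)) ∧
    (B' y < B y → l y = l (y - 1) ∧ ∃ x, B' (y - 1) ≤ x ∧ x < B (y - 1) ∧ B' y ≤ x ∧ x < B y)

/-- **Index zero on the right side.** -/
theorem RSide.zero {Bs : Finset (ℤ × ℤ)} {xb ya yb : ℤ} {B' B : ℤ → ℤ} {e l : ℤ → Bool}
    {S : Finset ℤ} (L : RSide W Bs xb ya yb B' B e l S) (hO : Inv W O) (hg : ∀ g ∈ gts Bs, g ∉ O) :
    ∀ y : ℤ, ya ≤ y → y < yb → (∀ x, B y ≤ x → x < xb → Z O (e y) x y) ∧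
      (∀ x, B' y ≤ x → x < B y → Z O (l y) x y) := by
  have hEe : ∀ x y : ℤ, ya ≤ y → y < yb → B y ≤ x → x < xb → Eq2 O (e y) x y := by
    intro x y h1 h2 h3 h4
    by_cases h5 : (x, y) ∈ Bs
    · exact eq2_bad hO (bd_of_gts hg h5)
    · exact eq2_color hO (L.ext x y h1 h2 h3 h4 h5)
  have hEl : ∀ x y : ℤ, ya ≤ y → y < yb → B' y ≤ x → x < B y → Eq2 O (l y) x y := by
    intro x y h1 h2 h3 h4
    by_cases h5 : (x, y) ∈ Bs
    · exact eq2_bad hO (bd_of_gts hg h5)
    · exact eq2_color hO (L.lin x y h1 h2 h3 h4 h5)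
  have hray : ∀ y : ℤ, ya ≤ y → y < yb → Z O false xb y := fun y h1 h2 =>
    z_ray_r hO fun x' hx => L.out x' y h1 h2 hx
  -- a row where the colours change
  have start : ∀ y : ℤ, ya ≤ y → y < yb → y ∈ S → (∀ x, B y ≤ x → x < xb → Z O (e y) x y) ∧
      (∀ x, B' y ≤ x → x < B y → Z O (l y) x y) := by
    intro y hy0 hy1 hS
    have b0 := bd_of_gts hg (L.bs0 y hS)
    have b1 := bd_of_gts hg (L.bs1 y hS)
    have z0 : Z O false (xb - 1) y :=
      z_left (by rw [sub_add_cancel]; exact hray y hy0 hy1) (eq2_bad hO b0)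
    have z1 : ∀ κ, Z O κ (xb - 1) y := fun κ => z_bad hO b0 z0 κ
    have hext : ∀ x, B y ≤ x → x < xb → Z O (e y) x y := fun x h1 h2 =>
      z_row (p := B y) (q := xb - 1) (z1 _) (by omega) le_rfl
        (fun x' a b => hEe x' y hy0 hy1 a (by omega)) h1 (by omega)
    refine ⟨hext, fun x h1 h2 => ?_⟩
    have hl := L.low y hy0 hy1
    have z2 : Z O (l y) (B y - 1) y := by
      rcases eq_or_lt_of_le hl with h3 | h3
      · rw [h3]; exact z1 _
      · exact z_bad hO b1 (z_left (by rw [sub_add_cancel]; exact hext (B y) le_rfl h3)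
          (eq2_bad hO b1)) _
    exact z_row (p := B' y) (q := B y - 1) z2 (by omega) le_rfl
      (fun x' a b => hEl x' y hy0 hy1 a (by omega)) h1 (by omega)
  have key : ∀ n : ℕ, ya + n < yb →
      (∀ x, B (ya + n) ≤ x → x < xb → Z O (e (ya + n)) x (ya + n)) ∧
      (∀ x, B' (ya + n) ≤ x → x < B (ya + n) → Z O (l (ya + n)) x (ya + n)) := by
    intro n
    induction n with
    | zero =>
      intro hn
      simp only [Nat.cast_zero, add_zero] at hn ⊢
      refine start ya le_rfl hn ?_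
      by_contra h
      have := (L.st ya le_rfl hn h).1
      omega
    | succ n ih =>
      intro hn
      push_cast at hn
      obtain ⟨ih1, ih2⟩ := ih (by omega)
      have e1 : ya + ((n + 1 : ℕ) : ℤ) = ya + n + 1 := by push_cast; ring
      rw [e1]
      set y := ya + (n : ℤ) + 1 with hy
      have ey : y - 1 = ya + n := by rw [hy]; ring
      have hy0 : ya ≤ y := by omega
      have hy1 : y < yb := by omega
      by_cases hS : y ∈ S
      · exact start y hy0 hy1 hS
      · obtain ⟨-, s1, s2⟩ := L.st y hy0 hy1 hS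
        rw [ey] at s1 s2
        refine ⟨fun x h1 h2 => ?_, fun x h1 h2 => ?_⟩
        · obtain ⟨s3, s4⟩ := s1 (by omega)
          have z0 : Z O (e y) (xb - 1) y := by
            refine z_up' ?_ (hEe (xb - 1) y hy0 hy1 (by omega) (by omega))
            rw [ey, s4]
            exact ih1 (xb - 1) (by omega) (by omega)
          exact z_row (p := B y) (q := xb - 1) z0 (by omega) le_rfl
            (fun x' a b => hEe x' y hy0 hy1 a (by omega)) h1 (by omega)
        · obtain ⟨s3, x0, s4, s5, s6, s7⟩ := s2 (by omega)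
          have z0 : Z O (l y) x0 y := by
            refine z_up' ?_ (hEl x0 y hy0 hy1 s6 s7)
            rw [ey, s3]
            exact ih2 x0 s4 s5
          exact z_row (p := B' y) (q := B y - 1) z0 s6 (by omega)
            (fun x' a b => hEl x' y hy0 hy1 a (by omega)) h1 (by omega)
  intro y h1 h2
  have h3 := key (y - ya).toNat (by omega)
  rwa [show ya + (((y - ya).toNat : ℕ) : ℤ) = y by omega] at h3

end Pool.Agent.H30.Sp
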