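import Mathlib
import Pool.Agent.H30.Sp.Geo
import Pool.Agent.H30.Sp.Zero
import Pool.Agent.H30.Mid.Cnt

set_option autoImplicit false
open Finset

/-! # Gates for the row of a window

`Base` : the frozen line tiles are in the base state (straight tiles closed on a wired side, open on a free
side), outside of a finite set `Bp` of bad tiles (turn tiles, reflex tiles, left over tiles, toggled ties).
A union of closed strands which does not meet the sides of the bad tiles has index zero at the corners of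
the colour of every tile outside of the glued window. -/

namespace Pool.Agent.H30.Sp

open Pool.Agent.H75.Perc Pool.Agent.H75.TwoArm Pool.Agent.Q1 Pool.Agent.H81.G1 Pool.Agent.H30.Mid
open Pool.Agent.H69.M6b (lbt lbt_inj lbt_odd lbt_diff Lay3 RowI zr)
open Pool.Agent.Q1.M6b.Gl Pool.Agent.Q1.M6b.Nest
open Pool.Agent.H74.R45 Pool.Agent.H13.R45 Pool.Agent.H33.Q1 Pool.Agent.H34.Q1
open Pool.Agent.H46.Sp (Win)
open Pool.Agent.H46.Sp.Win (m_min M_max m_lt_M a_min b_max m_le_a b_le_M m_le_a' b_le_M')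

variable {D : Win} {j x y : ℤ} {N : ℕ} {X : Env} {W B ω Bp F : Finset (ℤ × ℤ)}

/-! ### Colours of the line -/

/-- left end of the bulk in the plane row `y` -/
def aj (D : Win) (j y : ℤ) : ℤ := if j ≤ y then D.a y else D.a (y + 1)

/-- right end of the bulk in the plane row `y` -/
def bj (D : Win) (j y : ℤ) : ℤ := if j ≤ y then D.b y else D.b (y + 1)

/-- base colour of the line tiles to the left of the plane row `y` (`true` : open) -/
def lcl (D : Win) (j y : ℤ) : Bool :=
  if j ≤ y then (if y < D.yP then (if D.m y < D.a y then !D.cl (y - 1) else !D.cl y) else D.cl y)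
  else (if D.yP ≤ y + 1 then (if D.m y < D.a (y + 1) then !D.cl (y + 1) else !D.cl y) else D.cl y)

/-- base colour of the line tiles to the right of the plane row `y` -/
def rcl (D : Win) (j y : ℤ) : Bool :=
  if j ≤ y then (if y < D.yQ then (if D.b y < D.M y then !D.cr (y - 1) else !D.cr y) else D.cr y)
  else (if D.yQ ≤ y + 1 then (if D.b (y + 1) < D.M y then !D.cr (y + 1) else !D.cr y) else D.cr y)

/-- **The frozen line is in the base state outside of the bad tiles `Bp`.** -/
structure Base (D : Win) (j : ℤ) (W Bp : Finset (ℤ × ℤ)) : Prop where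
  left : ∀ x y : ℤ, -1 ≤ y → y < D.h → y ≠ j - 1 → D.m y - 1 ≤ x → x < aj D j y → (x, y) ∉ Bp →
    (lt (x, y) ∈ W ↔ lcl D j y = true)
  right : ∀ x y : ℤ, -1 ≤ y → y < D.h → y ≠ j - 1 → bj D j y ≤ x → x ≤ D.M y → (x, y) ∉ Bp →
    (lt (x, y) ∈ W ↔ rcl D j y = true)

/-! ### Glued coordinates -/

/-- plane row of the glued row `y` -/
def pl (j y : ℤ) : ℤ := if y < j - 1 then y else y + 1

/-- a colour in the glued configuration -/
def gcol (j y : ℤ) (c : Bool) : Bool := if y < j - 1 then c else !c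

/-- first tile of the line / last exterior tile + 1, left side of the glued row `y` -/
def gA (D : Win) (j y : ℤ) : ℤ := if -1 ≤ y ∧ y < D.h - 1 then D.m (pl j y) - 1 else xb D

/-- first tile of the bulk -/
def gA' (D : Win) (y : ℤ) : ℤ := if -1 ≤ y ∧ y < D.h - 1 then D.a (y + 1) else xb D

/-- last tile of the bulk + 1 -/
def gB' (D : Win) (y : ℤ) : ℤ := if -1 ≤ y ∧ y < D.h - 1 then D.b (y + 1) else xb D

/-- first exterior tile on the right side -/
def gB (D : Win) (j y : ℤ) : ℤ := if -1 ≤ y ∧ y < D.h - 1 then D.M (pl j y) + 1 else xb D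

/-- colour of the exterior, left -/
def gel (D : Win) (j y : ℤ) : Bool :=
  if y < -1 then D.cb else if y < D.h - 1 then gcol j y (D.cl (pl j y)) else !D.ct

/-- colour of the exterior, right -/
def ger (D : Win) (j y : ℤ) : Bool :=
  if y < -1 then D.cb else if y < D.h - 1 then gcol j y (D.cr (pl j y)) else !D.ct

/-- colour of the line -/
def gll (D : Win) (j y : ℤ) : Bool := gcol j y (lcl D j (pl j y))
def glr (D : Win) (j y : ℤ) : Bool := gcol j y (rcl D j (pl j y))

/-- a plane tile in glued coordinates -/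
def gtile (j : ℤ) (p : ℤ × ℤ) : ℤ × ℤ := if p.2 < j - 1 then p else (p.1, p.2 - 1)

/-- rows with a change -/
noncomputable def Sr (D : Win) (F : Finset ℤ) (j : ℤ) : Finset ℤ :=
  (F ∪ {0, j, D.yP, D.yQ, D.h}).biUnion fun z => Icc (z - 3) (z + 2)

lemma card_Sr (F : Finset ℤ) : (Sr D F j).card ≤ 6 * F.card + 30 := by
  unfold Sr
  refine (card_biUnion_le_card_mul _ _ 6 fun z _ => ?_).trans ?_
  · rw [Int.card_Icc]; omega
  · have h1 := card_union_le F ({0, j, D.yP, D.yQ, D.h} : Finset ℤ)
    have h2 : ({0, j, D.yP, D.yQ, D.h} : Finset ℤ).card ≤ 5 := by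
      refine (card_insert_le _ _).trans (Nat.succ_le_succ ?_)
      exact card_le_four
    omega

lemma not_Sr {F : Finset ℤ} (h : y ∉ Sr D F j) : (y < -3 ∨ 2 < y) ∧ (y < j - 3 ∨ j + 2 < y) ∧
    (y < D.yP - 3 ∨ D.yP + 2 < y) ∧ (y < D.yQ - 3 ∨ D.yQ + 2 < y) ∧ (y < D.h - 3 ∨ D.h + 2 < y) ∧
    ∀ z, y - 2 ≤ z → z ≤ y + 3 → z ∉ F := by
  unfold Sr at h
  rw [mem_biUnion] at h
  push Not at h
  have key : ∀ z ∈ F ∪ {0, j, D.yP, D.yQ, D.h}, y < z - 3 ∨ z + 2 < y := by
    intro z hz
    have := h z hz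
    rw [mem_Icc] at this
    omega
  have k0 := key 0 (mem_union_right _ (by simp))
  have k1 := key j (mem_union_right _ (by simp))
  have k2 := key D.yP (mem_union_right _ (by simp))
  have k3 := key D.yQ (mem_union_right _ (by simp))
  have k4 := key D.h (mem_union_right _ (by simp))
  refine ⟨by omega, k1, k2, k3, k4, fun z h1 h2 h3 => ?_⟩
  have := key z (mem_union_left _ h3)
  omega

/-- the bad tiles of the glued plane -/
noncomputable def Bg (D : Win) (F : Finset ℤ) (j : ℤ) (Bp : Finset (ℤ × ℤ)) : Finset (ℤ × ℤ) :=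
  Bp.image (gtile j) ∪ ((Sr D F j).image (fun y => (xa D, y)) ∪ (Sr D F j).image (fun y => (gA D j y, y)) ∪
    ((Sr D F j).image (fun y => (xb D - 1, y)) ∪ (Sr D F j).image (fun y => (gB D j y - 1, y))))

lemma card_Bg (F : Finset ℤ) : (Bg D F j Bp).card ≤ Bp.card + (24 * F.card + 120) := by
  unfold Bg
  have h0 := card_Sr (D := D) (j := j) F
  have h1 : (Bp.image (gtile j)).card ≤ Bp.card := card_image_le
  have h2 : ((Sr D F j).image (fun y => (xa D, y))).card ≤ (Sr D F j).card := card_image_le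
  have h3 : ((Sr D F j).image (fun y => (gA D j y, y))).card ≤ (Sr D F j).card := card_image_le
  have h4 : ((Sr D F j).image (fun y => (xb D - 1, y))).card ≤ (Sr D F j).card := card_image_le
  have h5 : ((Sr D F j).image (fun y => (gB D j y - 1, y))).card ≤ (Sr D F j).card := card_image_le
  refine (card_union_le _ _).trans (Nat.add_le_add h1 ?_)
  refine (card_union_le _ _).trans ?_
  have h6 := card_union_le ((Sr D F j).image (fun y => (xa D, y)))
    ((Sr D F j).image (fun y => (gA D j y, y)))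
  have h7 := card_union_le ((Sr D F j).image (fun y => (xb D - 1, y)))
    ((Sr D F j).image (fun y => (gB D j y - 1, y)))
  omega

/-- a tile which is not bad in the glued plane is not bad in the plane -/
lemma not_Bp {F : Finset ℤ} (h : (x, y) ∉ Bg D F j Bp) : (x, pl j y) ∉ Bp := by
  intro h1
  apply h
  unfold Bg
  refine mem_union_left _ (mem_image.2 ⟨_, h1, ?_⟩)
  unfold gtile pl
  by_cases h2 : y < j - 1
  · simp only [h2, if_true]
  · have h3 : ¬ (y + 1 < j - 1) := by omega
    simp only [h2, if_false, h3]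
    rw [Prod.mk.injEq]
    exact ⟨rfl, by ring⟩

/-! ### The glued configuration -/

/-- the glued configuration -/
noncomputable def WXw (D : Win) (j : ℤ) (W B ω : Finset (ℤ × ℤ)) : Finset (ℤ × ℤ) := ω ∪ WGw D j W B

/-- the tile is in the bulk of the glued window -/
def Bulk (D : Win) (x y : ℤ) : Prop := -1 ≤ y ∧ y < D.h - 1 ∧ D.a (y + 1) ≤ x ∧ x < D.b (y + 1)

section

variable (R : WRow D j N X W B)

include R

lemma mem_WX_lo (hω : ω ⊆ gE (BLw D j B) (BUw D j B) (1, -1)) (h1 : y < j - 1)
    (h2 : ¬ Bulk D x y) : lt (x, y) ∈ WXw D j W B ω ↔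
      lt (x, y) ∈ W ∧ xa D ≤ x ∧ x < xb D ∧ -2 ≤ y := by
  unfold WXw WGw
  rw [← lbt_lt, mem_WX_low R.lay hω h1]
  intro h3
  have := (mem_BLw.1 h3).1
  exact h2 ⟨this.1, by omega, this.2.2.2⟩

lemma mem_WX_up (hω : ω ⊆ gE (BLw D j B) (BUw D j B) (1, -1)) (h1 : j - 1 ≤ y)
    (h2 : ¬ Bulk D x y) : lt (x, y) ∈ WXw D j W B ω ↔
      lt (x, y + 1) ∉ W ∧ xa D ≤ x ∧ x < xb D ∧ y < D.h := by
  unfold WXw WGw
  rw [← lbt_lt, mem_WX_upp R.lay hω h1]
  · rfl
  · intro h3
    have h4 := (mem_BUw.1 h3).1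
    have := R.j0
    exact h2 ⟨by omega, by omega, h4.2.2.2⟩

/-- outside of the box -/
lemma not_WX (hω : ω ⊆ gE (BLw D j B) (BUw D j B) (1, -1))
    (h : x < xa D ∨ xb D ≤ x ∨ y < -2 ∨ D.h ≤ y) : lt (x, y) ∉ WXw D j W B ω := by
  have hj0 := R.j0
  have hj1 := R.j1
  have hb : ¬ Bulk D x y := by
    rintro ⟨h1, h2, h3, h4⟩
    have h5 := xa_le (D := D) (y := y) h1 (by omega)
    have h6 := le_xb (D := D) (y := y) h1 (by omega)
    have h7 := m_le_a' (D := D) (y := y) (by omega)
    have h8 := b_le_M' (D := D) (y := y) (by omega)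
    omega
  intro h1
  rcases lt_or_ge y (j - 1) with h2 | h2
  · rw [mem_WX_lo R hω h2 hb] at h1
    omega
  · rw [mem_WX_up R hω h2 hb] at h1
    omega

/-- colour of the exterior, left -/
lemma col_ext_l (hω : ω ⊆ gE (BLw D j B) (BUw D j B) (1, -1)) (h1 : -2 ≤ y) (h2 : y < D.h)
    (h3 : xa D ≤ x) (h4 : x < gA D j y) : lt (x, y) ∈ WXw D j W B ω ↔ gel D j y = true := by
  have hj0 := R.j0
  have hj1 := R.j1
  unfold gA at h4
  unfold gel
  by_cases h5 : -1 ≤ y ∧ y < D.h - 1
  · rw [if_pos h5] at h4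
    rw [if_neg (by omega), if_pos h5.2]
    unfold gcol pl at *
    by_cases h6 : y < j - 1
    · rw [if_pos h6] at h4 ⊢
      rw [if_pos h6]
      have h7 := m_lt_M (D := D) (y := y) (by omega) (by omega)
      have h8 := le_xb (D := D) (y := y) (by omega) (by omega)
      have hb : ¬ Bulk D x y := by
        rintro ⟨a1, a2, a3, a4⟩
        have := m_le_a' (D := D) (y := y) (by omega)
        omega
      rw [mem_WX_lo R hω h6 hb, R.ext x y (InZ_iff.2 ⟨h3, by omega, h1, by omega⟩)
        (Or.inr (Or.inr ⟨by omega, by omega, Or.inl (by omega)⟩)),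
        InX_left (by omega) (by omega) h3 (by omega)]
      exact ⟨fun h => h.1, fun h => ⟨h, h3, by omega, h1⟩⟩
    · rw [if_neg h6] at h4 ⊢
      rw [if_neg h6]
      have h7 := m_lt_M (D := D) (y := y + 1) (by omega) (by omega)
      have h8 := le_xb (D := D) (y := y + 1) (by omega) (by omega)
      have hb : ¬ Bulk D x y := by
        rintro ⟨a1, a2, a3, a4⟩
        have := m_le_a (D := D) (y := y + 1) (by omega)
        omega
      rw [mem_WX_up R hω (by omega) hb, R.ext x (y + 1) (InZ_iff.2 ⟨h3, by omega, by omega, by omega⟩)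
        (Or.inr (Or.inr ⟨by omega, by omega, Or.inl (by omega)⟩)),
        InX_left (by omega) (by omega) h3 (by omega)]
      simp only [Bool.not_eq_true', Bool.not_eq_true]
      exact ⟨fun h => h.1, fun h => ⟨h, h3, by omega, h2⟩⟩
  · rw [if_neg h5] at h4
    have hb : ¬ Bulk D x y := by
      rintro ⟨a1, a2, -⟩
      exact h5 ⟨a1, a2⟩
    rcases lt_or_ge y (-1) with h6 | h6
    · have e : y = -2 := by omega
      subst e
      rw [if_pos h6, mem_WX_lo R hω (by omega) hb,
        R.ext x (-2) (InZ_iff.2 ⟨h3, h4, le_rfl, by omega⟩) (Or.inl rfl), InX_bot h3 h4]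
      exact ⟨fun h => h.1, fun h => ⟨h, h3, h4, le_rfl⟩⟩
    · have e : y = D.h - 1 := by omega
      subst e
      rw [if_neg (by omega), if_neg (by omega), mem_WX_up R hω (by omega) hb, sub_add_cancel,
        R.ext x D.h (InZ_iff.2 ⟨h3, h4, by omega, le_rfl⟩) (Or.inr (Or.inl rfl)), InX_top h3 h4]
      simp only [Bool.not_eq_true', Bool.not_eq_true]
      exact ⟨fun h => h.1, fun h => ⟨h, h3, h4, h2⟩⟩

/-- colour of the exterior, right -/
lemma col_ext_r (hω : ω ⊆ gE (BLw D j B) (BUw D j B) (1, -1)) (h1 : -2 ≤ y) (h2 : y < D.h)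
    (h3 : gB D j y ≤ x) (h4 : x < xb D) : lt (x, y) ∈ WXw D j W B ω ↔ ger D j y = true := by
  have hj0 := R.j0
  have hj1 := R.j1
  unfold gB at h3
  unfold ger
  by_cases h5 : -1 ≤ y ∧ y < D.h - 1
  · rw [if_pos h5] at h3
    rw [if_neg (by omega), if_pos h5.2]
    unfold gcol pl at *
    by_cases h6 : y < j - 1
    · rw [if_pos h6] at h3 ⊢
      rw [if_pos h6]
      have h7 := m_lt_M (D := D) (y := y) (by omega) (by omega)
      have h8 := xa_le (D := D) (y := y) (by omega) (by omega)
      have hb : ¬ Bulk D x y := by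
        rintro ⟨a1, a2, a3, a4⟩
        have := b_le_M' (D := D) (y := y) (by omega)
        omega
      rw [mem_WX_lo R hω h6 hb, R.ext x y (InZ_iff.2 ⟨by omega, h4, h1, by omega⟩)
        (Or.inr (Or.inr ⟨by omega, by omega, Or.inr (by omega)⟩)),
        InX_right (by omega) (by omega) h4 (by omega)]
      exact ⟨fun h => h.1, fun h => ⟨h, by omega, h4, h1⟩⟩
    · rw [if_neg h6] at h3 ⊢
      rw [if_neg h6]
      have h7 := m_lt_M (D := D) (y := y + 1) (by omega) (by omega)
      have h8 := xa_le (D := D) (y := y + 1) (by omega) (by omega)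
      have hb : ¬ Bulk D x y := by
        rintro ⟨a1, a2, a3, a4⟩
        have := b_le_M (D := D) (y := y + 1) (by omega)
        omega
      rw [mem_WX_up R hω (by omega) hb, R.ext x (y + 1) (InZ_iff.2 ⟨by omega, h4, by omega, by omega⟩)
        (Or.inr (Or.inr ⟨by omega, by omega, Or.inr (by omega)⟩)),
        InX_right (by omega) (by omega) h4 (by omega)]
      simp only [Bool.not_eq_true', Bool.not_eq_true]
      exact ⟨fun h => h.1, fun h => ⟨h, by omega, h4, h2⟩⟩
  · rw [if_neg h5] at h3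
    omega

variable (Hb : Base D j W Bp)

include Hb

/-- colour of the line, left -/
lemma col_lin_l {F : Finset ℤ} (hω : ω ⊆ gE (BLw D j B) (BUw D j B) (1, -1)) (h1 : -2 ≤ y)
    (h2 : y < D.h) (h3 : gA D j y ≤ x) (h4 : x < gA' D y) (h5 : (x, y) ∉ Bg D F j Bp) :
    lt (x, y) ∈ WXw D j W B ω ↔ gll D j y = true := by
  have hj0 := R.j0
  have hj1 := R.j1
  have h6 := not_Bp h5
  unfold gA at h3
  unfold gA' at h4
  unfold gll gcol
  by_cases h7 : -1 ≤ y ∧ y < D.h - 1
  · rw [if_pos h7] at h3 h4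
    have hb : ¬ Bulk D x y := by
      rintro ⟨a1, a2, a3, a4⟩
      omega
    have hab := D.ab (y + 1) (by omega) (by omega)
    have k1 := b_le_M' (D := D) (y := y) (by omega)
    have k2 := b_le_M (D := D) (y := y + 1) (by omega)
    have hM : x < xb D := by
      have := le_xb (D := D) (y := y) (by omega) (by omega)
      omega
    have hm : xa D ≤ x := by
      unfold pl at h3
      split_ifs at h3
      · have := xa_le (D := D) (y := y) (by omega) (by omega)
        omega
      · have := xa_le (D := D) (y := y + 1) (by omega) (by omega)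
        omega
    unfold pl at *
    by_cases h8 : y < j - 1
    · rw [if_pos h8] at h3 h6 ⊢
      rw [if_pos h8, mem_WX_lo R hω h8 hb, Hb.left x y (by omega) (by omega) (by omega) h3
        (by unfold aj; rw [if_neg (by omega)]; exact h4) h6]
      exact ⟨fun h => h.1, fun h => ⟨h, hm, hM, h1⟩⟩
    · rw [if_neg h8] at h3 h6 ⊢
      rw [if_neg h8, mem_WX_up R hω (by omega) hb, Hb.left x (y + 1) (by omega) (by omega) (by omega) h3
        (by unfold aj; rw [if_pos (by omega)]; exact h4) h6]
      simp only [Bool.not_eq_true', Bool.not_eq_true]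
      exact ⟨fun h => h.1, fun h => ⟨h, hm, hM, h2⟩⟩
  · rw [if_neg h7] at h3 h4
    omega

/-- colour of the line, right -/
lemma col_lin_r {F : Finset ℤ} (hω : ω ⊆ gE (BLw D j B) (BUw D j B) (1, -1)) (h1 : -2 ≤ y)
    (h2 : y < D.h) (h3 : gB' D y ≤ x) (h4 : x < gB D j y) (h5 : (x, y) ∉ Bg D F j Bp) :
    lt (x, y) ∈ WXw D j W B ω ↔ glr D j y = true := by
  have hj0 := R.j0
  have hj1 := R.j1
  have h6 := not_Bp h5
  unfold gB' at h3
  unfold gB at h4
  unfold glr gcol
  by_cases h7 : -1 ≤ y ∧ y < D.h - 1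
  · rw [if_pos h7] at h3 h4
    have hb : ¬ Bulk D x y := by
      rintro ⟨a1, a2, a3, a4⟩
      omega
    have hab := D.ab (y + 1) (by omega) (by omega)
    have k1 := m_le_a' (D := D) (y := y) (by omega)
    have k2 := m_le_a (D := D) (y := y + 1) (by omega)
    have hm : xa D ≤ x := by
      have := xa_le (D := D) (y := y) (by omega) (by omega)
      omega
    have hM : x < xb D := by
      unfold pl at h4
      split_ifs at h4
      · have := le_xb (D := D) (y := y) (by omega) (by omega)
        omega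
      · have := le_xb (D := D) (y := y + 1) (by omega) (by omega)
        omega
    unfold pl at *
    by_cases h8 : y < j - 1
    · rw [if_pos h8] at h4 h6 ⊢
      rw [if_pos h8, mem_WX_lo R hω h8 hb, Hb.right x y (by omega) (by omega) (by omega)
        (by unfold bj; rw [if_neg (by omega)]; exact h3) (by omega) h6]
      exact ⟨fun h => h.1, fun h => ⟨h, hm, hM, h1⟩⟩
    · rw [if_neg h8] at h4 h6 ⊢
      rw [if_neg h8, mem_WX_up R hω (by omega) hb, Hb.right x (y + 1) (by omega) (by omega) (by omega)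
        (by unfold bj; rw [if_pos (by omega)]; exact h3) (by omega) h6]
      simp only [Bool.not_eq_true', Bool.not_eq_true]
      exact ⟨fun h => h.1, fun h => ⟨h, hm, hM, h2⟩⟩
  · rw [if_neg h7] at h3 h4
    omega

end

/-! ### The two sides -/

/-- the data of the rows near a row without changes -/
lemma few_near {F : Finset ℤ} (hF : Few D F) (h : y ∉ Sr D F j) (h1 : -2 ≤ y) (h2 : y < D.h) :
    2 < y ∧ y < D.h - 3 ∧ (∀ z, y - 3 ≤ z → z ≤ y + 3 → D.a z = D.a y ∧ D.b z = D.b y) := by
  obtain ⟨s0, s1, s2, s3, s4, s5⟩ := not_Sr h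
  have hh := D.hh
  refine ⟨by omega, by omega, ?_⟩
  have g : ∀ z, y - 2 ≤ z → z ≤ y + 3 → D.a z = D.a (z - 1) ∧ D.b z = D.b (z - 1) := fun z a b =>
    hF z (by omega) (by omega) (s5 z a b)
  have g1 := g (y - 2) (by omega) (by omega)
  have g2 := g (y - 1) (by omega) (by omega)
  have g3 := g y (by omega) (by omega)
  have g4 := g (y + 1) (by omega) (by omega)
  have g5 := g (y + 2) (by omega) (by omega)
  have g6 := g (y + 3) (by omega) (by omega)
  rw [show y - 2 - 1 = y - 3 by ring] at g1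
  rw [show y - 1 - 1 = y - 2 by ring] at g2
  rw [show y + 1 - 1 = y by ring] at g4
  rw [show y + 2 - 1 = y + 1 by ring] at g5
  rw [show y + 3 - 1 = y + 2 by ring] at g6
  intro z a b
  have hz : z = y - 3 ∨ z = y - 2 ∨ z = y - 1 ∨ z = y ∨ z = y + 1 ∨ z = y + 2 ∨ z = y + 3 := by omega
  rcases hz with rfl | rfl | rfl | rfl | rfl | rfl | rfl
  · exact ⟨by rw [← g1.1, ← g2.1, ← g3.1], by rw [← g1.2, ← g2.2, ← g3.2]⟩
  · exact ⟨by rw [← g2.1, ← g3.1], by rw [← g2.2, ← g3.2]⟩
  · exact ⟨g3.1.symm, g3.2.symm⟩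
  · exact ⟨rfl, rfl⟩
  · exact g4
  · exact ⟨by rw [g5.1, g4.1], by rw [g5.2, g4.2]⟩
  · exact ⟨by rw [g6.1, g5.1, g4.1], by rw [g6.2, g5.2, g4.2]⟩

lemma m_near {F : Finset ℤ} (hF : Few D F) (h : y ∉ Sr D F j) (h1 : -2 ≤ y) (h2 : y < D.h) {z : ℤ}
    (h3 : y - 3 ≤ z) (h4 : z ≤ y + 2) : D.m z = D.a y ∧ D.M z = D.b y := by
  obtain ⟨a1, a2, a3⟩ := few_near hF h h1 h2
  unfold Win.m Win.M Pool.Agent.H46.Sp.mm Pool.Agent.H46.Sp.MM
  constructor
  · split_ifs
    · exact (a3 _ (by omega) (by omega)).1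
    · exact (a3 _ (by omega) (by omega)).1
  · split_ifs
    · exact (a3 _ (by omega) (by omega)).2
    · exact (a3 _ (by omega) (by omega)).2

lemma cl_near {F : Finset ℤ} (hF : Few D F) (h : y ∉ Sr D F j) (h1 : -2 ≤ y) (h2 : y < D.h) {z : ℤ}
    (h3 : y - 2 ≤ z) (h4 : z ≤ y + 2) : D.cl z = D.cl (z - 1) ∧ D.cr z = D.cr (z - 1) := by
  obtain ⟨a1, a2, a3⟩ := few_near hF h h1 h2
  have b1 := m_near hF h h1 h2 (z := z) (by omega) h4
  have b2 := m_near hF h h1 h2 (z := z - 1) (by omega) (by omega)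
  constructor
  · have h5 := D.scl (z - 1) (by omega) (by omega)
      (by rw [sub_add_cancel]; exact b2.1.trans b1.1.symm)
    rw [sub_add_cancel] at h5
    exact h5.symm
  · have h5 := D.scr (z - 1) (by omega) (by omega)
      (by rw [sub_add_cancel]; exact b2.2.trans b1.2.symm)
    rw [sub_add_cancel] at h5
    exact h5.symm

lemma lcl_near {F : Finset ℤ} (hF : Few D F) (h : y ∉ Sr D F j) (h1 : -2 ≤ y) (h2 : y < D.h) {z : ℤ}
    (h3 : y ≤ z) (h4 : z ≤ y + 1) (h5 : j ≤ z - 1 ∨ z < j) : lcl D j z = lcl D j (z - 1) ∧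
      rcl D j z = rcl D j (z - 1) := by
  obtain ⟨s0, s1, s2, s3, s4, s5⟩ := not_Sr h
  obtain ⟨a1, a2, a3⟩ := few_near hF h h1 h2
  have b1 := m_near hF h h1 h2 (z := z) (by omega) (by omega)
  have b2 := m_near hF h h1 h2 (z := z - 1) (by omega) (by omega)
  have c1 := a3 z (by omega) (by omega)
  have c2 := a3 (z - 1) (by omega) (by omega)
  have c3 := a3 (z + 1) (by omega) (by omega)
  have d1 := cl_near hF h h1 h2 (z := z) (by omega) (by omega)
  unfold lcl rcl
  rw [sub_add_cancel]
  rcases h5 with h5 | h5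
  · have q1 : j ≤ z := by omega
    constructor
    · rw [if_pos q1, if_pos h5, b1.1, b2.1, c1.1, c2.1, if_neg (lt_irrefl _), if_neg (lt_irrefl _)]
      rw [d1.1]
      by_cases h6 : z < D.yP
      · rw [if_pos h6, if_pos (by omega)]
      · rw [if_neg h6, if_neg (by omega)]
    · rw [if_pos q1, if_pos h5, b1.2, b2.2, c1.2, c2.2, if_neg (lt_irrefl _), if_neg (lt_irrefl _)]
      rw [d1.2]
      by_cases h6 : z < D.yQ
      · rw [if_pos h6, if_pos (by omega)]
      · rw [if_neg h6, if_neg (by omega)]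
  · have q1 : ¬ j ≤ z := by omega
    have q2 : ¬ j ≤ z - 1 := by omega
    constructor
    · rw [if_neg q1, if_neg q2, b1.1, b2.1, c3.1, c1.1, if_neg (lt_irrefl _), if_neg (lt_irrefl _)]
      rw [d1.1]
      by_cases h6 : D.yP ≤ z + 1
      · rw [if_pos h6, if_pos (by omega)]
      · rw [if_neg h6, if_neg (by omega)]
    · rw [if_neg q1, if_neg q2, b1.2, b2.2, c3.2, c1.2, if_neg (lt_irrefl _), if_neg (lt_irrefl _)]
      rw [d1.2]
      by_cases h6 : D.yQ ≤ z + 1
      · rw [if_pos h6, if_pos (by omega)]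
      · rw [if_neg h6, if_neg (by omega)]

/-- **The left side of the glued window.** -/
theorem lside_win (R : WRow D j N X W B) (Hb : Base D j W Bp) {F : Finset ℤ} (hF : Few D F)
    (hω : ω ⊆ gE (BLw D j B) (BUw D j B) (1, -1)) :
    LSide (WXw D j W B ω) (Bg D F j Bp) (xa D) (-2) D.h (gA D j) (gA' D) (gel D j) (gll D j)
      (Sr D F j) where
  out x y h1 h2 h3 := not_WX R hω (Or.inl h3)
  ext x y h1 h2 h3 h4 _ := col_ext_l R hω h1 h2 h3 h4
  lin x y h1 h2 h3 h4 h5 := col_lin_l R Hb hω h1 h2 h3 h4 h5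
  bs0 y hy := by
    unfold Bg
    exact mem_union_right _ (mem_union_left _ (mem_union_left _ (mem_image_of_mem _ hy)))
  bs1 y hy := by
    unfold Bg
    exact mem_union_right _ (mem_union_left _ (mem_union_right _ (mem_image_of_mem _ hy)))
  low y h1 h2 := by
    have hj0 := R.j0
    have hj1 := R.j1
    unfold gA
    split_ifs with h3
    · unfold pl
      split_ifs
      · have := xa_le (D := D) (y := y) (by omega) (by omega)
        omega
      · have := xa_le (D := D) (y := y + 1) (by omega) (by omega)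
        omega
    · have h4 := xa_le (D := D) (y := j) (by omega) (by omega)
      have h5 := le_xb (D := D) (y := j) (by omega) (by omega)
      have h6 := m_lt_M (D := D) (y := j) (by omega) (by omega)
      omega
  st y h1 h2 h3 := by
    obtain ⟨s0, s1, s2, s3, s4, s5⟩ := not_Sr h3
    obtain ⟨a1, a2, a3⟩ := few_near hF h3 h1 h2
    have ep : pl j y = y ∧ pl j (y - 1) = y - 1 ∨ pl j y = y + 1 ∧ pl j (y - 1) = y - 1 + 1 := by
      unfold pl
      rcases s1 with h4 | h4
      · left; exact ⟨if_pos (by omega), if_pos (by omega)⟩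
      · right; exact ⟨if_neg (by omega), if_neg (by omega)⟩
    have eg : ∀ c : Bool, gcol j y c = gcol j (y - 1) c := by
      intro c
      unfold gcol
      rcases s1 with h4 | h4
      · rw [if_pos (by omega), if_pos (by omega)]
      · rw [if_neg (by omega), if_neg (by omega)]
    have em : D.m (pl j y) = D.a y ∧ D.m (pl j (y - 1)) = D.a y := by
      rcases ep with ⟨e1, e2⟩ | ⟨e1, e2⟩
      · rw [e1, e2]
        exact ⟨(m_near hF h3 h1 h2 (by omega) (by omega)).1, (m_near hF h3 h1 h2 (by omega) (by omega)).1⟩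
      · rw [e1, e2]
        exact ⟨(m_near hF h3 h1 h2 (by omega) (by omega)).1, (m_near hF h3 h1 h2 (by omega) (by omega)).1⟩
    have g1 : gA D j y = D.a y - 1 := by
      unfold gA; rw [if_pos ⟨by omega, by omega⟩, em.1]
    have g2 : gA D j (y - 1) = D.a y - 1 := by
      unfold gA; rw [if_pos ⟨by omega, by omega⟩, em.2]
    have g3 : gA' D y = D.a y := by
      unfold gA'; rw [if_pos ⟨by omega, by omega⟩]; exact (a3 _ (by omega) (by omega)).1
    have g4 : gA' D (y - 1) = D.a y := by
      unfold gA'; rw [if_pos ⟨by omega, by omega⟩, sub_add_cancel]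
    have ec : D.cl (pl j y) = D.cl (pl j (y - 1)) := by
      rcases ep with ⟨e1, e2⟩ | ⟨e1, e2⟩
      · rw [e1, e2]; exact (cl_near hF h3 h1 h2 (z := y) (by omega) (by omega)).1
      · rw [e1, e2]
        have := (cl_near hF h3 h1 h2 (z := y + 1) (by omega) (by omega)).1
        rw [this]; congr 1; ring
    have el : lcl D j (pl j y) = lcl D j (pl j (y - 1)) := by
      unfold pl
      rcases s1 with h4 | h4
      · rw [if_pos (by omega), if_pos (by omega)]
        exact (lcl_near hF h3 h1 h2 (z := y) (by omega) (by omega) (Or.inr (by omega))).1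
      · rw [if_neg (by omega), if_neg (by omega)]
        have := (lcl_near hF h3 h1 h2 (z := y + 1) (by omega) (by omega) (Or.inl (by omega))).1
        rw [this]; congr 1; ring
    have hx : xa D < D.a y - 1 := by
      have := xa_le (D := D) (y := y) (by omega) h2
      have h5 := (m_near hF h3 h1 h2 (z := y) (by omega) (by omega)).1
      omega
    refine ⟨by omega, fun _ => ⟨by rw [g2]; exact hx, ?_⟩, fun _ => ⟨?_, D.a y - 1, by omega, by omega,
      by omega, by omega⟩⟩
    · unfold gel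
      rw [if_neg (show ¬ y < -1 by omega), if_pos (show y < D.h - 1 by omega),
        if_neg (show ¬ y - 1 < -1 by omega), if_pos (show y - 1 < D.h - 1 by omega), ec, eg]
    · unfold gll
      rw [el, eg]

/-- **The right side of the glued window.** -/
theorem rside_win (R : WRow D j N X W B) (Hb : Base D j W Bp) {F : Finset ℤ} (hF : Few D F)
    (hω : ω ⊆ gE (BLw D j B) (BUw D j B) (1, -1)) :
    RSide (WXw D j W B ω) (Bg D F j Bp) (xb D) (-2) D.h (gB' D) (gB D j) (ger D j) (glr D j)
      (Sr D F j) where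
  out x y h1 h2 h3 := not_WX R hω (Or.inr (Or.inl h3))
  ext x y h1 h2 h3 h4 _ := col_ext_r R hω h1 h2 h3 h4
  lin x y h1 h2 h3 h4 h5 := col_lin_r R Hb hω h1 h2 h3 h4 h5
  bs0 y hy := by
    unfold Bg
    exact mem_union_right _ (mem_union_right _ (mem_union_left _ (mem_image_of_mem _ hy)))
  bs1 y hy := by
    unfold Bg
    exact mem_union_right _ (mem_union_right _ (mem_union_right _ (mem_image_of_mem _ hy)))
  low y h1 h2 := by
    have hj0 := R.j0
    have hj1 := R.j1
    unfold gB
    split_ifs with h3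
    · unfold pl
      split_ifs
      · have := le_xb (D := D) (y := y) (by omega) (by omega)
        omega
      · have := le_xb (D := D) (y := y + 1) (by omega) (by omega)
        omega
    · exact le_rfl
  st y h1 h2 h3 := by
    obtain ⟨s0, s1, s2, s3, s4, s5⟩ := not_Sr h3
    obtain ⟨a1, a2, a3⟩ := few_near hF h3 h1 h2
    have ep : pl j y = y ∧ pl j (y - 1) = y - 1 ∨ pl j y = y + 1 ∧ pl j (y - 1) = y - 1 + 1 := by
      unfold pl
      rcases s1 with h4 | h4
      · left; exact ⟨if_pos (by omega), if_pos (by omega)⟩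
      · right; exact ⟨if_neg (by omega), if_neg (by omega)⟩
    have eg : ∀ c : Bool, gcol j y c = gcol j (y - 1) c := by
      intro c
      unfold gcol
      rcases s1 with h4 | h4
      · rw [if_pos (by omega), if_pos (by omega)]
      · rw [if_neg (by omega), if_neg (by omega)]
    have em : D.M (pl j y) = D.b y ∧ D.M (pl j (y - 1)) = D.b y := by
      rcases ep with ⟨e1, e2⟩ | ⟨e1, e2⟩
      · rw [e1, e2]
        exact ⟨(m_near hF h3 h1 h2 (by omega) (by omega)).2, (m_near hF h3 h1 h2 (by omega) (by omega)).2⟩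
      · rw [e1, e2]
        exact ⟨(m_near hF h3 h1 h2 (by omega) (by omega)).2, (m_near hF h3 h1 h2 (by omega) (by omega)).2⟩
    have g1 : gB D j y = D.b y + 1 := by
      unfold gB; rw [if_pos ⟨by omega, by omega⟩, em.1]
    have g2 : gB D j (y - 1) = D.b y + 1 := by
      unfold gB; rw [if_pos ⟨by omega, by omega⟩, em.2]
    have g3 : gB' D y = D.b y := by
      unfold gB'; rw [if_pos ⟨by omega, by omega⟩]; exact (a3 _ (by omega) (by omega)).2
    have g4 : gB' D (y - 1) = D.b y := by
      unfold gB'; rw [if_pos ⟨by omega, by omega⟩, sub_add_cancel]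
    have ec : D.cr (pl j y) = D.cr (pl j (y - 1)) := by
      rcases ep with ⟨e1, e2⟩ | ⟨e1, e2⟩
      · rw [e1, e2]; exact (cl_near hF h3 h1 h2 (z := y) (by omega) (by omega)).2
      · rw [e1, e2]
        have := (cl_near hF h3 h1 h2 (z := y + 1) (by omega) (by omega)).2
        rw [this]; congr 1; ring
    have el : rcl D j (pl j y) = rcl D j (pl j (y - 1)) := by
      unfold pl
      rcases s1 with h4 | h4
      · rw [if_pos (by omega), if_pos (by omega)]
        exact (lcl_near hF h3 h1 h2 (z := y) (by omega) (by omega) (Or.inr (by omega))).2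
      · rw [if_neg (by omega), if_neg (by omega)]
        have := (lcl_near hF h3 h1 h2 (z := y + 1) (by omega) (by omega) (Or.inl (by omega))).2
        rw [this]; congr 1; ring
    have hx : D.b y + 1 < xb D := by
      have := le_xb (D := D) (y := y) (by omega) h2
      have h5 := (m_near hF h3 h1 h2 (z := y) (by omega) (by omega)).2
      omega
    refine ⟨by omega, fun _ => ⟨by rw [g2]; exact hx, ?_⟩, fun _ => ⟨?_, D.b y, by omega, by omega,
      by omega, by omega⟩⟩
    · unfold ger
      rw [if_neg (show ¬ y < -1 by omega), if_pos (show y < D.h - 1 by omega),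
        if_neg (show ¬ y - 1 < -1 by omega), if_pos (show y - 1 < D.h - 1 by omega), ec, eg]
    · unfold glr
      rw [el, eg]

end Pool.Agent.H30.Sp
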