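import Mathlib
import Pool.Agent.H30.Sp.Gates

set_option autoImplicit false
open Finset

/-! # The hypotheses `hK`, `hW` of `count_loops` for the row of a window

`Kz W' v Gt κ x y` : all closed strands around `v` without gates have index zero at the corners of the
colour `κ` of the tile `(x, y)` of the glued plane. -/

namespace Pool.Agent.H30.Sp

open Pool.Agent.H75.Perc Pool.Agent.H75.TwoArm Pool.Agent.Q1 Pool.Agent.H81.G1 Pool.Agent.H30.Mid
open Pool.Agent.H69.M6b (lbt lbt_inj lbt_odd lbt_diff Lay3 RowI zr)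
open Pool.Agent.Q1.M6b.Gl Pool.Agent.Q1.M6b.Nest
open Pool.Agent.H74.R45 Pool.Agent.H13.R45 Pool.Agent.H33.Q1 Pool.Agent.H34.Q1
open Pool.Agent.H46.Sp (Win)
open Pool.Agent.H46.Sp.Win (m_min M_max m_lt_M a_min b_max m_le_a b_le_M m_le_a' b_le_M')

variable {D : Win} {j x y : ℤ} {N : ℕ} {X : Env} {W B ω Bp O W' Gt : Finset (ℤ × ℤ)} {v : ℤ × ℤ}
  {κ : Bool} {F : Finset ℤ}

/-- **Index zero outside of the bulk**: every tile of the glued plane, at the corners of its colour; at all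
four corners if the tile is bad. -/
theorem win_zero (R : WRow D j N X W B) (Hb : Base D j W Bp) (hF : Few D F)
    (hω : ω ⊆ gE (BLw D j B) (BUw D j B) (1, -1)) (hO : Inv (WXw D j W B ω) O)
    (hg : ∀ g ∈ gts (Bg D F j Bp), g ∉ O) (hn : ¬ Bulk D x y) :
    ((lt (x, y) ∈ WXw D j W B ω ↔ κ = true) → Z O κ x y) ∧
      ((x, y) ∈ Bg D F j Bp → xa D ≤ x → x < xb D → -2 ≤ y → y < D.h → Z O κ x y) := by
  have L := lside_win R Hb hF hω
  have L' := rside_win R Hb hF hω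
  have zl := L.zero hO hg
  have zr := L'.zero hO hg
  have hj0 := R.j0
  have hj1 := R.j1
  -- some colour with index zero
  have key : xa D ≤ x → x < xb D → -2 ≤ y → y < D.h → ∃ κ' : Bool, Z O κ' x y ∧
      ((x, y) ∉ Bg D F j Bp → (lt (x, y) ∈ WXw D j W B ω ↔ κ' = true)) := by
    intro h1 h2 h3 h4
    rcases lt_or_ge x (gA D j y) with h5 | h5
    · exact ⟨_, (zl y h3 h4).1 x h1 h5, fun _ => L.ext x y h3 h4 h1 h5 ‹_›⟩
    rcases lt_or_ge x (gA' D y) with h6 | h6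
    · exact ⟨_, (zl y h3 h4).2 x h5 h6, fun h => L.lin x y h3 h4 h5 h6 h⟩
    rcases le_or_gt (gB D j y) x with h7 | h7
    · exact ⟨_, (zr y h3 h4).1 x h7 h2, fun _ => L'.ext x y h3 h4 h7 h2 ‹_›⟩
    rcases le_or_gt (gB' D y) x with h8 | h8
    · exact ⟨_, (zr y h3 h4).2 x h8 h7, fun h => L'.lin x y h3 h4 h8 h7 h⟩
    exfalso
    unfold gA' at h6
    unfold gB' at h8
    split_ifs at h6 h8 with h9
    · exact hn ⟨h9.1, h9.2, h6, h8⟩
    · omega
  refine ⟨fun hκ => ?_, fun hb h1 h2 h3 h4 => ?_⟩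
  · by_cases hin : xa D ≤ x ∧ x < xb D ∧ -2 ≤ y ∧ y < D.h
    · obtain ⟨κ', hz, hc⟩ := key hin.1 hin.2.1 hin.2.2.1 hin.2.2.2
      by_cases hb : (x, y) ∈ Bg D F j Bp
      · exact z_bad hO (bd_of_gts hg hb) hz κ
      · have h1 := hc hb
        have e : κ = κ' := by
          cases κ <;> cases κ'
          · rfl
          · have := hκ.1 (h1.2 rfl); simp at this
          · have := h1.1 (hκ.2 rfl); simp at this
          · rfl
        rw [e]; exact hz
    · have hnot : lt (x, y) ∉ WXw D j W B ω := not_WX R hω (by omega)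
      have e : κ = false := by
        cases κ
        · rfl
        · exact absurd (hκ.2 rfl) hnot
      rw [e]
      by_cases h1 : x < xa D
      · exact z_ray_l hO fun x' hx => not_WX R hω (Or.inl (by omega))
      by_cases h2 : xb D ≤ x
      · exact z_ray_r hO fun x' hx => not_WX R hω (Or.inr (Or.inl (by omega)))
      by_cases h3 : y < -2
      · exact z_ray_d hO fun y' hy => not_WX R hω (by omega)
      · exact z_ray_u hO fun y' hy => not_WX R hω (by omega)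
  · obtain ⟨κ', hz, -⟩ := key h1 h2 h3 h4
    exact z_bad hO (bd_of_gts hg hb) hz κ

/-! ### Vertices and faces -/

/-- index zero for all closed strands around `v` without gates -/
def Kz (W' : Finset (ℤ × ℤ)) (v : ℤ × ℤ) (Gt : Finset (ℤ × ℤ)) (κ : Bool) (x y : ℤ) : Prop :=
  ∀ (O : Set (ℤ × ℤ)) (hO : O ∈ Lp W' v), (∀ g ∈ Gt, g ∉ O) → Z hO.2.1.toFinset κ x y

/-- **Outside of the bulk.** -/
theorem kz_out (R : WRow D j N X W B) (Hb : Base D j W Bp) (hF : Few D F)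
    (hω : ω ⊆ gE (BLw D j B) (BUw D j B) (1, -1)) (hn : ¬ Bulk D x y)
    (hκ : lt (x, y) ∈ WXw D j W B ω ↔ κ = true) :
    Kz (WXw D j W B ω) v (gts (Bg D F j Bp)) κ x y := by
  intro O hO hg
  obtain ⟨a1, a2⟩ := lp_inv hO hg
  exact (win_zero R Hb hF hω a1 a2 hn).1 hκ

/-- **Bad tiles.** -/
theorem kz_bad (R : WRow D j N X W B) (Hb : Base D j W Bp) (hF : Few D F)
    (hω : ω ⊆ gE (BLw D j B) (BUw D j B) (1, -1)) (hn : ¬ Bulk D x y)
    (hb : (x, y) ∈ Bg D F j Bp) (h1 : xa D ≤ x) (h2 : x < xb D) (h3 : -2 ≤ y) (h4 : y < D.h) (κ : Bool) :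
    Kz (WXw D j W B ω) v (gts (Bg D F j Bp)) κ x y := by
  intro O hO hg
  obtain ⟨a1, a2⟩ := lp_inv hO hg
  exact (win_zero R Hb hF hω a1 a2 hn).2 hb h1 h2 h3 h4

/-- corners of the colour open of a tile -/
def IsV (x y : ℤ) (u : ℤ × ℤ) : Prop := (u.1 + u.2 = x ∨ u.1 + u.2 = x + 1) ∧
  (u.2 - u.1 = y ∨ u.2 - u.1 = y + 1)

/-- the vertices of the tile -/
theorem kv_of_kz (h : Kz W' v Gt true x y) {u : ℤ × ℤ} (hu : IsV x y u) : u ∈ KvX W' v Gt := by
  intro O hO hg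
  have hz := h O hO hg
  rw [ixv_eq]
  unfold Z dg at hz
  simp only [iff_true] at hz
  obtain ⟨h1, h2⟩ := hu
  rcases Int.emod_two_eq_zero_or_one (x + y) with h0 | h0
  · have hz1 := hz.1 h0
    rcases h1 with h1 | h1 <;> rcases h2 with h2 | h2
    · rw [h1, h2]; exact hz1.1
    · omega
    · omega
    · rw [h1, h2]; exact hz1.2
  · have hz1 := hz.2 (by omega)
    rcases h1 with h1 | h1 <;> rcases h2 with h2 | h2
    · omega
    · rw [h1, h2]; exact hz1.2
    · rw [h1, h2]; exact hz1.1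
    · omega

/-- the faces of the tile -/
theorem kf_of_kz (h : Kz W' v Gt false x y) {f : ℤ × ℤ}
    (hf : (f.1 + f.2 = x + 1 ∨ f.1 + f.2 = x + 2) ∧ (f.2 - f.1 = y ∨ f.2 - f.1 = y + 1)) :
    f ∈ KfX W' v Gt := by
  intro O hO hg
  have hz := h O hO hg
  rw [ixf_eq]
  unfold Z dg at hz
  simp only [Bool.false_eq_true, iff_false] at hz
  obtain ⟨h1, h2⟩ := hf
  rcases Int.emod_two_eq_zero_or_one (x + y) with h0 | h0
  · have hz1 := hz.2 (by omega)
    rcases h1 with h1 | h1 <;> rcases h2 with h2 | h2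
    · omega
    · rw [h1, h2, show x + 1 - 1 = x by ring]; exact hz1.2
    · rw [h1, h2, show x + 2 - 1 = x + 1 by ring]; exact hz1.1
    · omega
  · have hz1 := hz.1 (by omega)
    rcases h1 with h1 | h1 <;> rcases h2 with h2 | h2
    · rw [h1, h2, show x + 1 - 1 = x by ring]; exact hz1.1
    · omega
    · omega
    · rw [h1, h2, show x + 2 - 1 = x + 1 by ring]; exact hz1.2

/-- a corner of a tile outside of the bulk -/
theorem kx_lab (R : WRow D j N X W B) (Hb : Base D j W Bp) (hF : Few D F)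
    (hω : ω ⊆ gE (BLw D j B) (BUw D j B) (1, -1)) {c : ℤ × ℤ} (hn : ¬ Bulk D x y)
    (hc : lab c = lt (x, y)) : vx c ∈ KvX (WXw D j W B ω) v (gts (Bg D F j Bp)) ∨
      fi c ∈ KfX (WXw D j W B ω) v (gts (Bg D F j Bp)) := by
  by_cases hw : lt (x, y) ∈ WXw D j W B ω
  · left
    intro O hO hg
    obtain ⟨a1, a2⟩ := lp_inv hO hg
    exact (z_lab a1 (fun κ hκ => (win_zero R Hb hF hω a1 a2 hn).1 hκ) hc).1 hw
  · right
    intro O hO hg
    obtain ⟨a1, a2⟩ := lp_inv hO hg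
    exact (z_lab a1 (fun κ hκ => (win_zero R Hb hF hω a1 a2 hn).1 hκ) hc).2 hw

/-- **The hypothesis `hidx` of `boxGeo_flat`**: a corner of a tile outside of the bulk (also outside the
box), both forms. -/
theorem kx_idx (R : WRow D j N X W B) (Hb : Base D j W Bp) (hF : Few D F)
    (hω : ω ⊆ gE (BLw D j B) (BUw D j B) (1, -1)) {c : ℤ × ℤ} (hn : ¬ Bulk D x y)
    (hc : lab c = lt (x, y)) {O : Set (ℤ × ℤ)} (hO : O ∈ Lp (WXw D j W B ω) v)
    (hg : ∀ g ∈ gts (Bg D F j Bp), g ∉ O) :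
    (lab c ∈ WXw D j W B ω → ixv hO.2.1.toFinset (vx c) = 0) ∧
      (lab c ∉ WXw D j W B ω → ixf hO.2.1.toFinset (fi c) = 0) := by
  obtain ⟨a1, a2⟩ := lp_inv hO hg
  have h := z_lab a1 (fun κ hκ => (win_zero R Hb hF hω a1 a2 hn).1 hκ) hc
  rw [hc]
  exact h

/-- **The hypothesis `hW` for the row of a window.** -/
theorem hW_win (R : WRow D j N X W B) (Hb : Base D j W Bp) (hF : Few D F)
    (hω : ω ⊆ gE (BLw D j B) (BUw D j B) (1, -1)) {c : ℤ × ℤ}
    (hc : lab c ∉ gE (BLw D j B) (BUw D j B) (1, -1))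
    (hb : lab c ∉ gE (BLw D j ∅ ∩ B) (BUw D j ∅ ∩ B) (1, -1)) :
    vx c ∈ KvX (WXw D j W B ω) v (gts (Bg D F j Bp)) ∨
      fi c ∈ KfX (WXw D j W B ω) v (gts (Bg D F j Bp)) := by
  obtain ⟨x, y, e⟩ := exists_lt (lab_odd c)
  refine kx_lab R Hb hF hω (x := x) (y := y) ?_ e
  rintro ⟨h1, h2, h3, h4⟩
  have hj0 := R.j0
  have hj1 := R.j1
  rw [e, ← lbt_lt, mem_gE, mem_BLw, mem_BUw] at hc
  rw [e, ← lbt_lt, mem_gE, mem_inter, mem_inter, mem_BLw, mem_BUw] at hb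
  rcases lt_or_ge y (j - 1) with h5 | h5
  · by_cases h6 : lbt x y ∈ B
    · exact hb (Or.inl ⟨⟨⟨h1, h5, by omega, h3, h4⟩, by simp⟩, h6⟩)
    · exact hc (Or.inl ⟨⟨h1, h5, by omega, h3, h4⟩, h6⟩)
  · by_cases h6 : lbt x (y + 1) ∈ B
    · exact hb (Or.inr ⟨⟨⟨by omega, by omega, by omega, h3, h4⟩, by simp⟩, h6⟩)
    · exact hc (Or.inr ⟨⟨by omega, by omega, by omega, h3, h4⟩, h6⟩)

/-- number of the gates -/
theorem card_gates : (gts (Bg D F j Bp)).card ≤ 4 * (Bp.card + (24 * F.card + 120)) :=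
  (card_gts _).trans (Nat.mul_le_mul_left 4 (card_Bg F))

end Pool.Agent.H30.Sp
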