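import Pool.Agent.H30.Sp.Gate2
import Pool.Agent.H69.Sp.RowT

set_option autoImplicit false
open Finset

/-! # The base state of the tied form of a window

`LoT D F j` : the tiles of the line which may be left over (at most eight in every row of `Sr D F j`).
`line_l`, `line_r` : every other tile of the line is an outside tile or one of the two tiles of a cap which
is not in the row `j - 1`, of the right colour. `base_T` : the frozen tied form is in the base state outside
of the left over tiles and the labels of `T`. -/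

namespace Pool.Agent.H30.Sp

open Pool.Agent.H75.Perc Pool.Agent.H75.TwoArm Pool.Agent.Q1
open Pool.Agent.H46.Sp (Win Out)
open Pool.Agent.H46.Sp.Win (m_min M_max m_lt_M a_min b_max m_le_a b_le_M m_le_a' b_le_M' mem_EJ)
open Pool.Agent.H42.Sp
open Pool.Agent.H30.Mid Pool.Agent.H33.Q1
open Pool.Agent.H69.M6b (lbt)
open Pool.Agent.H13.R45 (ev gp Tg)

variable {D : Win} {j x y : ℤ}

/-! ### Tiles and caps -/

theorem tile_L : ((x, y) = kt (.L, (x, y)) ∨ (x, y) = rt (.L, (x, y))) ∧
    ((x, y) = kt (.L, (x, y + 1)) ∨ (x, y) = rt (.L, (x, y + 1))) := by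
  unfold kt rt
  simp only
  constructor <;> split_ifs <;> simp

theorem tile_R : ((x, y) = kt (.R, (x + 1, y)) ∨ (x, y) = rt (.R, (x + 1, y))) ∧
    ((x, y) = kt (.R, (x + 1, y + 1)) ∨ (x, y) = rt (.R, (x + 1, y + 1))) := by
  unfold kt rt
  simp only
  constructor <;> split_ifs <;> simp

theorem tile_F : ((x, y) = kt (.F, (x, y)) ∨ (x, y) = rt (.F, (x, y))) ∧
    ((x, y) = kt (.F, (x + 1, y)) ∨ (x, y) = rt (.F, (x + 1, y))) := by
  unfold kt rt
  simp only
  constructor <;> split_ifs <;> simp

theorem tile_C : ((x, y) = kt (.C, (x, y + 1)) ∨ (x, y) = rt (.C, (x, y + 1))) ∧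
    ((x, y) = kt (.C, (x + 1, y + 1)) ∨ (x, y) = rt (.C, (x + 1, y + 1))) := by
  unfold kt rt
  simp only
  constructor <;> split_ifs <;> simp

/-! ### The left over tiles -/

/-- the left over tiles -/
noncomputable def LoT (D : Win) (F : Finset ℤ) (j : ℤ) : Finset (ℤ × ℤ) :=
  (Sr D F j).biUnion fun y => ({D.m y - 1, D.m y, aj D j y - 2, aj D j y - 1, D.M y, D.M y - 1,
    bj D j y, bj D j y + 1} : Finset ℤ) ×ˢ {y}

theorem card_LoT (F : Finset ℤ) : (LoT D F j).card ≤ 8 * (6 * F.card + 30) := by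
  unfold LoT
  refine (card_biUnion_le_card_mul _ _ 8 fun y _ => ?_).trans ?_
  · rw [card_product, card_singleton, mul_one]
    refine (card_insert_le _ _).trans (Nat.succ_le_succ ?_)
    refine (card_insert_le _ _).trans (Nat.succ_le_succ ?_)
    exact card_le_six
  · rw [mul_comm]
    exact Nat.mul_le_mul_left 8 (card_Sr F)

theorem not_LoT {F : Finset ℤ} (h : (x, y) ∉ LoT D F j) : y ∉ Sr D F j ∨ (x ≠ D.m y - 1 ∧ x ≠ D.m y ∧
    x ≠ aj D j y - 2 ∧ x ≠ aj D j y - 1 ∧ x ≠ D.M y ∧ x ≠ D.M y - 1 ∧ x ≠ bj D j y ∧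
    x ≠ bj D j y + 1) := by
  by_cases h1 : y ∈ Sr D F j
  · right
    unfold LoT at h
    rw [mem_biUnion] at h
    push Not at h
    have h2 := h y h1
    rw [mem_product] at h2
    simp only [mem_singleton, and_true, mem_insert] at h2
    push Not at h2
    exact h2
  · exact Or.inl h1

/-- nothing changes near the row `y` -/
theorem far_eq {F : Finset ℤ} (hF : Few D F) (h : y ∉ Sr D F j) (h1 : -1 ≤ y) (h2 : y < D.h) :
    D.a (y - 1) = D.a y ∧ D.a (y + 1) = D.a y ∧ D.a (y + 2) = D.a y ∧
    D.b (y - 1) = D.b y ∧ D.b (y + 1) = D.b y ∧ D.b (y + 2) = D.b y ∧ 2 < y ∧ y < D.h - 3 ∧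
    (y < j - 3 ∨ j + 2 < y) ∧ (y < D.yP - 3 ∨ D.yP + 2 < y) ∧ (y < D.yQ - 3 ∨ D.yQ + 2 < y) := by
  obtain ⟨k0, k1, k2, k3, k4, k5⟩ := not_Sr h
  have e1 := hF y (by omega) (by omega) (k5 y (by omega) (by omega))
  have e2 := hF (y + 1) (by omega) (by omega) (k5 _ (by omega) (by omega))
  have e3 := hF (y + 2) (by omega) (by omega) (k5 _ (by omega) (by omega))
  rw [add_sub_cancel_right] at e2
  rw [show y + 2 - 1 = y + 1 by ring] at e3
  exact ⟨e1.1.symm, e2.1, e3.1.trans e2.1, e1.2.symm, e2.2, e3.2.trans e2.2, by omega, by omega,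
    k1, k2, k3⟩

theorem far_mM {F : Finset ℤ} (hF : Few D F) (h : y ∉ Sr D F j) (h1 : -1 ≤ y) (h2 : y < D.h) :
    D.m y = D.a y ∧ D.m (y + 1) = D.a y ∧ D.m (y - 1) = D.a y ∧ D.M y = D.b y ∧
    D.M (y + 1) = D.b y ∧ D.M (y - 1) = D.b y := by
  obtain ⟨e1, e2, e3, e4, e5, e6, k0, k4, k1, k2, k3⟩ := far_eq hF h h1 h2
  unfold Win.m Win.M Pool.Agent.H46.Sp.mm Pool.Agent.H46.Sp.MM
  rw [show y - 1 + 1 = y by ring, show y + 1 + 1 = y + 2 by ring, e1, e2, e3, e4, e5, e6]
  simp only [ite_self, and_self]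

/-- parity of the cap -/
theorem ev_of {g : ℤ × ℤ} {c : Bool} (h : (g.1 + g.2) % 2 = 1 ↔ c = true) : ev g = !c := by
  unfold ev
  cases c
  · have h1 : ¬ (g.1 + g.2) % 2 = 1 := fun h2 => by simpa using h.1 h2
    simp only [Bool.not_false, decide_eq_true_eq]
    omega
  · have h1 := h.2 rfl
    simp only [Bool.not_true, decide_eq_false_iff_not]
    omega

/-- one of two neighbouring points has the right parity -/
theorem par_or (z : ℤ) (c : Bool) : (z % 2 = 1 ↔ c = true) ∨ ((z + 1) % 2 = 1 ↔ c = true) := by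
  cases c <;> simp <;> omega

/-- **The left part of the line.** -/
theorem line_l (h0 : 0 < j) (h1 : j < D.h) {F : Finset ℤ} (hF : Few D F) (y0 : -1 ≤ y) (y1 : y < D.h)
    (yj : y ≠ j - 1) (x0 : D.m y - 1 ≤ x) (x1 : x < aj D j y) (hn : (x, y) ∉ LoT D F j) :
    OutT D j x y (lcl D j y) ∨
      ∃ k, (CP D j k ∧ NRow j k) ∧ ((x, y) = kt k ∨ (x, y) = rt k) ∧ ev k.2 = lcl D j y := by
  have hP0 := D.P0
  have hP1 := D.P1
  by_cases hx : x = D.m y - 1
  · -- the column
    have hS : y ∉ Sr D F j := by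
      rcases not_LoT hn with h | h
      · exact h
      · exact absurd hx h.1
    obtain ⟨e1, e2, e3, e4, e5, e6, k0, k4, k1, k2, k3⟩ := far_eq hF hS y0 y1
    obtain ⟨f1, f2, f3, f4, f5, f6⟩ := far_mM hF hS y0 y1
    have c1 : D.cl (y + 1) = D.cl y := by
      have := cl_eq (D := D) (y := y + 1) (by omega) (by omega) (by
        rw [show y + 1 - 1 = y by ring, f1, f2])
      rw [show y + 1 - 1 = y by ring] at this
      exact this.symm
    have e7 : D.a (y + 1 + 1) = D.a y := by rw [show y + 1 + 1 = y + 2 by ring]; exact e3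
    have e8 : D.a (y - 1 + 1) = D.a y := by rw [show y - 1 + 1 = y by ring]
    rcases k1 with k1 | k1 <;> rcases k2 with k2 | k2
    · -- below the row, below `yP`
      left
      have hc : lcl D j y = D.cl y := by
        unfold lcl
        rw [if_neg (by omega), if_neg (by omega)]
      rw [hc]
      exact outLc y0 y1 hx (Or.inr ⟨by omega, by omega⟩)
    · right
      have hc : lcl D j y = !D.cl y := by
        unfold lcl
        rw [if_neg (by omega), if_pos (by omega), if_neg (by omega)]
      rw [hc]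
      rcases par_or (x + y) (D.cl y) with hp | hp
      · have hk : CP D j (.L, (x, y)) :=
          ⟨hx, Or.inr ⟨⟨by omega, by omega, by omega⟩, ⟨by omega, by omega, by omega⟩⟩, hp⟩
        refine ⟨_, ⟨hk, ?_⟩, tile_L.1, ev_of hp⟩
        unfold NRow
        simp
      · have hp' : (x + (y + 1)) % 2 = 1 ↔ D.cl y = true := by rw [← add_assoc]; exact hp
        have hk : CP D j (.L, (x, y + 1)) :=
          ⟨by omega, Or.inr ⟨⟨by omega, by omega, by
            rw [show y + 1 - 1 = y by ring]; omega⟩, ⟨by omega, by omega, by omega⟩⟩, by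
            rw [c1]; exact hp'⟩
        refine ⟨_, ⟨hk, ?_⟩, tile_L.2, ev_of hp'⟩
        unfold NRow
        simp
    · right
      have hc : lcl D j y = !D.cl y := by
        unfold lcl
        rw [if_pos (by omega), if_pos (by omega), if_neg (by omega)]
      rw [hc]
      rcases par_or (x + y) (D.cl y) with hp | hp
      · have hk : CP D j (.L, (x, y)) :=
          ⟨hx, Or.inl ⟨⟨by omega, by omega, by omega⟩, ⟨by omega, by omega, by omega⟩⟩, hp⟩
        refine ⟨_, ⟨hk, ?_⟩, tile_L.1, ev_of hp⟩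
        unfold NRow
        simp
      · have hp' : (x + (y + 1)) % 2 = 1 ↔ D.cl y = true := by rw [← add_assoc]; exact hp
        have hk : CP D j (.L, (x, y + 1)) :=
          ⟨by omega, Or.inl ⟨⟨by omega, by omega, by
            rw [show y + 1 - 1 = y by ring]; omega⟩, ⟨by omega, by omega, by omega⟩⟩, by
            rw [c1]; exact hp'⟩
        refine ⟨_, ⟨hk, ?_⟩, tile_L.2, ev_of hp'⟩
        unfold NRow
        simp
    · left
      have hc : lcl D j y = D.cl y := by
        unfold lcl
        rw [if_pos (by omega), if_neg (by omega)]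
      rw [hc]
      exact outLc y0 y1 hx (Or.inl ⟨by omega, by omega⟩)
  · -- a ledge
    right
    have hin : D.m y + 1 ≤ x ∧ x + 3 ≤ aj D j y := by
      rcases not_LoT hn with h | h
      · exfalso
        obtain ⟨e1, e2, -⟩ := far_eq hF h y0 y1
        obtain ⟨f1, -⟩ := far_mM hF h y0 y1
        unfold aj at x1
        split_ifs at x1 <;> omega
      · omega
    rcases lt_or_ge y j with h2 | h2
    · -- ceiling
      unfold aj at x1 hin
      rw [if_neg (by omega)] at x1 hin
      have h3 : D.yP ≤ y + 1 := by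
        by_contra h3
        have := m_lo (D := D) (y := y) (by omega)
        omega
      have h4 : D.m (y + 1) = D.a (y + 1) := m_hi (by omega)
      have hc : lcl D j y = !D.cl (y + 1) := by
        unfold lcl
        rw [if_neg (by omega), if_pos (by omega), if_pos (by omega)]
      rw [hc]
      rcases par_or (x + (y + 1)) (D.cl (y + 1)) with hp | hp
      · have hk : CP D j (.C, (x, y + 1)) :=
          Or.inl ⟨by omega, by omega, by rw [show y + 1 - 1 = y by ring]; omega,
            Or.inl ⟨by omega, by omega⟩, hp⟩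
        refine ⟨_, ⟨hk, ?_⟩, tile_C.1, ev_of hp⟩
        unfold NRow
        simp
        omega
      · have hp' : (x + 1 + (y + 1)) % 2 = 1 ↔ D.cl (y + 1) = true := by
          rw [show x + 1 + (y + 1) = x + (y + 1) + 1 by ring]; exact hp
        have hk : CP D j (.C, (x + 1, y + 1)) :=
          Or.inl ⟨by omega, by omega, by rw [show y + 1 - 1 = y by ring]; omega,
            Or.inl ⟨by omega, by omega⟩, hp'⟩
        refine ⟨_, ⟨hk, ?_⟩, tile_C.2, ev_of hp'⟩
        unfold NRow
        simp
        omega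
    · -- floor
      unfold aj at x1 hin
      rw [if_pos h2] at x1 hin
      have h3 : y < D.yP := by
        by_contra h3
        have := m_hi (D := D) (y := y) (by omega)
        omega
      have h4 : D.m (y - 1) = D.a y := m_lo' h3
      have hc : lcl D j y = !D.cl (y - 1) := by
        unfold lcl
        rw [if_pos (by omega), if_pos (by omega), if_pos (by omega)]
      rw [hc]
      rcases par_or (x + y) (D.cl (y - 1)) with hp | hp
      · have hk : CP D j (.F, (x, y)) :=
          Or.inl ⟨by omega, by omega, by omega, Or.inl ⟨by omega, by omega⟩, hp⟩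
        refine ⟨_, ⟨hk, ?_⟩, tile_F.1, ev_of hp⟩
        unfold NRow
        simp
        omega
      · have hp' : (x + 1 + y) % 2 = 1 ↔ D.cl (y - 1) = true := by
          rw [show x + 1 + y = x + y + 1 by ring]; exact hp
        have hk : CP D j (.F, (x + 1, y)) :=
          Or.inl ⟨by omega, by omega, by omega, Or.inl ⟨by omega, by omega⟩, hp'⟩
        refine ⟨_, ⟨hk, ?_⟩, tile_F.2, ev_of hp'⟩
        unfold NRow
        simp
        omega

/-- **The right part of the line.** -/
theorem line_r (h0 : 0 < j) (h1 : j < D.h) {F : Finset ℤ} (hF : Few D F) (y0 : -1 ≤ y) (y1 : y < D.h)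
    (yj : y ≠ j - 1) (x0 : bj D j y ≤ x) (x1 : x ≤ D.M y) (hn : (x, y) ∉ LoT D F j) :
    OutT D j x y (rcl D j y) ∨
      ∃ k, (CP D j k ∧ NRow j k) ∧ ((x, y) = kt k ∨ (x, y) = rt k) ∧ ev k.2 = rcl D j y := by
  have hQ0 := D.Q0
  have hQ1 := D.Q1
  by_cases hx : x = D.M y
  · -- the column
    have hS : y ∉ Sr D F j := by
      rcases not_LoT hn with h | h
      · exact h
      · exact absurd hx h.2.2.2.2.1
    obtain ⟨e1, e2, e3, e4, e5, e6, k0, k4, k1, k2, k3⟩ := far_eq hF hS y0 y1
    obtain ⟨f1, f2, f3, f4, f5, f6⟩ := far_mM hF hS y0 y1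
    have c1 : D.cr (y + 1) = D.cr y := by
      have := cr_eq (D := D) (y := y + 1) (by omega) (by omega) (by
        rw [show y + 1 - 1 = y by ring, f4, f5])
      rw [show y + 1 - 1 = y by ring] at this
      exact this.symm
    have e7 : D.b (y + 1 + 1) = D.b y := by rw [show y + 1 + 1 = y + 2 by ring]; exact e6
    have e8 : D.b (y - 1 + 1) = D.b y := by rw [show y - 1 + 1 = y by ring]
    rcases k1 with k1 | k1 <;> rcases k3 with k3 | k3
    · -- below the row, below `yQ`
      left
      have hc : rcl D j y = D.cr y := by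
        unfold rcl
        rw [if_neg (by omega), if_neg (by omega)]
      rw [hc]
      exact outRc h0.le y0 y1 hx (Or.inr ⟨by omega, by omega⟩)
    · right
      have hc : rcl D j y = !D.cr y := by
        unfold rcl
        rw [if_neg (by omega), if_pos (by omega), if_neg (by omega)]
      rw [hc]
      rcases par_or (x + 1 + y) (D.cr y) with hp | hp
      · have hk : CP D j (.R, (x + 1, y)) :=
          ⟨by omega, Or.inl ⟨⟨by omega, by omega, by omega⟩, ⟨by omega, by omega, by omega⟩⟩, hp⟩
        refine ⟨_, ⟨hk, ?_⟩, tile_R.1, ev_of hp⟩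
        unfold NRow
        simp
      · have hp' : (x + 1 + (y + 1)) % 2 = 1 ↔ D.cr y = true := by
          rw [show x + 1 + (y + 1) = x + 1 + y + 1 by ring]; exact hp
        have hk : CP D j (.R, (x + 1, y + 1)) :=
          ⟨by omega, Or.inl ⟨⟨by omega, by omega, by
            rw [show y + 1 - 1 = y by ring]; omega⟩, ⟨by omega, by omega, by omega⟩⟩, by
            rw [c1]; exact hp'⟩
        refine ⟨_, ⟨hk, ?_⟩, tile_R.2, ev_of hp'⟩
        unfold NRow
        simp
    · right
      have hc : rcl D j y = !D.cr y := by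
        unfold rcl
        rw [if_pos (by omega), if_pos (by omega), if_neg (by omega)]
      rw [hc]
      rcases par_or (x + 1 + y) (D.cr y) with hp | hp
      · have hk : CP D j (.R, (x + 1, y)) :=
          ⟨by omega, Or.inr ⟨⟨by omega, by omega, by omega⟩, ⟨by omega, by omega, by omega⟩⟩, hp⟩
        refine ⟨_, ⟨hk, ?_⟩, tile_R.1, ev_of hp⟩
        unfold NRow
        simp
      · have hp' : (x + 1 + (y + 1)) % 2 = 1 ↔ D.cr y = true := by
          rw [show x + 1 + (y + 1) = x + 1 + y + 1 by ring]; exact hp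
        have hk : CP D j (.R, (x + 1, y + 1)) :=
          ⟨by omega, Or.inr ⟨⟨by omega, by omega, by
            rw [show y + 1 - 1 = y by ring]; omega⟩, ⟨by omega, by omega, by omega⟩⟩, by
            rw [c1]; exact hp'⟩
        refine ⟨_, ⟨hk, ?_⟩, tile_R.2, ev_of hp'⟩
        unfold NRow
        simp
    · left
      have hc : rcl D j y = D.cr y := by
        unfold rcl
        rw [if_pos (by omega), if_neg (by omega)]
      rw [hc]
      exact outRc h0.le y0 y1 hx (Or.inl ⟨by omega, by omega⟩)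
  · -- a ledge
    right
    have hin : bj D j y + 2 ≤ x ∧ x + 2 ≤ D.M y := by
      rcases not_LoT hn with h | h
      · exfalso
        obtain ⟨-, -, -, e1, e2, -⟩ := far_eq hF h y0 y1
        obtain ⟨-, -, -, f1, -⟩ := far_mM hF h y0 y1
        unfold bj at x0
        split_ifs at x0 <;> omega
      · omega
    rcases lt_or_ge y j with h2 | h2
    · -- ceiling
      unfold bj at x0 hin
      rw [if_neg (by omega)] at x0 hin
      have h3 : D.yQ < y + 1 := by
        by_contra h3
        by_cases h4 : y < D.yQ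
        · have := M_lo (D := D) (y := y) (by omega)
          omega
        · have := M_hi (D := D) (y := y) (by omega)
          omega
      have h4 : D.M (y + 1) = D.b (y + 1) := M_hi (by omega)
      have hc : rcl D j y = !D.cr (y + 1) := by
        unfold rcl
        rw [if_neg (by omega), if_pos (by omega), if_pos (by omega)]
      rw [hc]
      rcases par_or (x + (y + 1)) (D.cr (y + 1)) with hp | hp
      · have hk : CP D j (.C, (x, y + 1)) :=
          Or.inr (Or.inl ⟨by omega, by omega, by rw [show y + 1 - 1 = y by ring]; omega,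
            Or.inl ⟨by omega, by omega⟩, hp⟩)
        refine ⟨_, ⟨hk, ?_⟩, tile_C.1, ev_of hp⟩
        unfold NRow
        simp
        omega
      · have hp' : (x + 1 + (y + 1)) % 2 = 1 ↔ D.cr (y + 1) = true := by
          rw [show x + 1 + (y + 1) = x + (y + 1) + 1 by ring]; exact hp
        have hk : CP D j (.C, (x + 1, y + 1)) :=
          Or.inr (Or.inl ⟨by omega, by omega, by rw [show y + 1 - 1 = y by ring]; omega,
            Or.inl ⟨by omega, by omega⟩, hp'⟩)
        refine ⟨_, ⟨hk, ?_⟩, tile_C.2, ev_of hp'⟩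
        unfold NRow
        simp
        omega
    · -- floor
      unfold bj at x0 hin
      rw [if_pos h2] at x0 hin
      have h3 : y < D.yQ := by
        by_contra h3
        have := M_hi (D := D) (y := y) (by omega)
        omega
      have h4 : D.M (y - 1) = D.b y := M_lo' h3.le
      have hc : rcl D j y = !D.cr (y - 1) := by
        unfold rcl
        rw [if_pos (by omega), if_pos (by omega), if_pos (by omega)]
      rw [hc]
      rcases par_or (x + y) (D.cr (y - 1)) with hp | hp
      · have hk : CP D j (.F, (x, y)) :=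
          Or.inr (Or.inl ⟨by omega, by omega, by omega, Or.inl ⟨by omega, by omega⟩, hp⟩)
        refine ⟨_, ⟨hk, ?_⟩, tile_F.1, ev_of hp⟩
        unfold NRow
        simp
        omega
      · have hp' : (x + 1 + y) % 2 = 1 ↔ D.cr (y - 1) = true := by
          rw [show x + 1 + y = x + y + 1 by ring]; exact hp
        have hk : CP D j (.F, (x + 1, y)) :=
          Or.inr (Or.inl ⟨by omega, by omega, by omega, Or.inl ⟨by omega, by omega⟩, hp'⟩)
        refine ⟨_, ⟨hk, ?_⟩, tile_F.2, ev_of hp'⟩
        unfold NRow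
        simp
        omega

/-! ### The frozen tied form -/

/-- the tile of a label -/
def tlf (e : ℤ × ℤ) : ℤ × ℤ := ((e.1 + e.2 - 1) / 2, (e.2 - e.1 - 1) / 2)

theorem tlf_lt (p : ℤ × ℤ) : tlf (lt p) = p := by
  unfold tlf lt
  ext <;> simp only <;> omega

section Frozen

variable {P : Finset Ix} {O : Out D} {N : ℕ} {B t T : Finset (ℤ × ℤ)}

/-- a tile of the line outside of the row is not real in the frozen environment -/
theorem cap_EFw (h0 : 0 < j) (h1 : j < D.h) (hN : (N : ℤ) = D.M (j - 1) - D.m (j - 1)) {k : Ix}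
    (hk : CP D j k) (hr : NRow j k) {p : ℤ × ℤ} (hp : p = kt k ∨ p = rt k) :
    lt p ∉ EFw D j N B := by
  have h2 := cap_reg h0 h1 hk hr hp
  obtain ⟨x, y⟩ := p
  intro h3
  apply h2
  unfold EFw at h3
  rw [mem_union, mem_union, ← lbt_lt, mem_BLw, mem_BUw, mem_RS'] at h3
  unfold Reg
  simp only
  omega

/-- the kept label of a cap in the frozen tied form -/
theorem kt_WFw (h0 : 0 < j) (h1 : j < D.h) (hP : ∀ k ∈ P, CP D j k)
    (hN : (N : ℤ) = D.M (j - 1) - D.m (j - 1)) {k : Ix} (hk : k ∈ P) (hr : NRow j k) :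
    lt (kt k) ∈ WFw (XTp O j h0.le h1.le P hP) (WTp D j P O.Wo) D j N B t ↔ lt (kt k) ∈ t := by
  have hE : lt (kt k) ∈ ETp D j P := by
    unfold ETp
    rw [mem_sdiff, mem_image]
    refine ⟨(cap_CP O h0.le h1.le (hP k hk)).m1, ?_⟩
    rintro ⟨l, -, h2⟩
    have e1 := kt_odd k
    have e2 := rt_even l
    rw [lt_inj h2] at e2
    omega
  have hn := cap_EFw (B := B) h0 h1 hN (hP k hk) hr (Or.inl rfl)
  have hW : lt (kt k) ∉ WTp D j P O.Wo := disjoint_left.1 (disj_ETWTp O h0.le P) hE
  unfold WFw fW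
  rw [XTp_E, mem_union, mem_inter, mem_sdiff]
  tauto

/-- the removed label of a cap in the frozen tied form -/
theorem rt_WFw (h0 : 0 < j) (h1 : j < D.h) (hP : ∀ k ∈ P, CP D j k) {k : Ix} (hk : k ∈ P) :
    lt (rt k) ∈ WFw (XTp O j h0.le h1.le P hP) (WTp D j P O.Wo) D j N B t ↔ ev k.2 = true := by
  have hE : lt (rt k) ∉ ETp D j P := by
    unfold ETp
    rw [mem_sdiff, mem_image]
    exact fun h => h.2 ⟨k, hk, rfl⟩
  have hW : lt (rt k) ∉ D.WJ j O.Wo := disjoint_left.1 (Pool.Agent.H46.Sp.Win.disj_EW O h0.le)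
    (cap_CP O h0.le h1.le (hP k hk)).m2
  unfold WFw fW
  rw [XTp_E, mem_union, mem_inter, mem_sdiff]
  constructor
  · rintro (h | h)
    · unfold WTp at h
      rw [mem_union] at h
      rcases h with h | h
      · exact absurd h hW
      · unfold OTp at h
        obtain ⟨l, hl, h2⟩ := mem_image.1 h
        rw [mem_filter] at hl
        have : l = k := rt_inj h0.le h1.le (hP l hl.1) (hP k hk) (lt_inj h2)
        rw [← this]
        exact hl.2
    · exact absurd h.2.1 hE
  · intro h
    left
    unfold WTp OTp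
    exact mem_union_right _ (mem_image.2 ⟨k, mem_filter.2 ⟨hk, h⟩, rfl⟩)

/-- an outside tile in the frozen tied form -/
theorem out_WFw (h0 : 0 < j) (h1 : j < D.h) (hP : ∀ k ∈ P, CP D j k) {c : Bool}
    (h : OutT D j x y c) :
    lt (x, y) ∈ WFw (XTp O j h0.le h1.le P hP) (WTp D j P O.Wo) D j N B t ↔ c = true := by
  have h2 := h.not_mem
  have h3 : lt (x, y) ∉ OTp P := fun h3 => h2 (OTp_sub O h0.le h1.le hP h3)
  have h4 : lt (x, y) ∉ ETp D j P := fun h4 => h2 (ETp_sub h4)
  unfold WFw fW
  rw [XTp_E, mem_union, mem_inter, mem_sdiff]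
  unfold WTp
  rw [mem_union, h.mem O]
  tauto

/-- **The frozen tied form of a window is in the base state.** `T` : labels of toggled ties (and other
exceptional kept labels). -/
theorem base_T (h0 : 0 < j) (h1 : j < D.h) (hP : ∀ k ∈ P, CP D j k)
    (hc : ∀ k, CP D j k → NRow j k → k ∈ P) (hN : (N : ℤ) = D.M (j - 1) - D.m (j - 1))
    {F : Finset ℤ} (hF : Few D F) (ht : ∀ k ∈ P, lt (kt k) ∉ T → (lt (kt k) ∈ t ↔ ev k.2 = true)) :
    Base D j (WFw (XTp O j h0.le h1.le P hP) (WTp D j P O.Wo) D j N B t)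
      (LoT D F j ∪ T.image tlf) := by
  have key : ∀ {x y : ℤ} {c : Bool}, (x, y) ∉ LoT D F j ∪ T.image tlf → (OutT D j x y c ∨
      ∃ k, (CP D j k ∧ NRow j k) ∧ ((x, y) = kt k ∨ (x, y) = rt k) ∧ ev k.2 = c) →
      (lt (x, y) ∈ WFw (XTp O j h0.le h1.le P hP) (WTp D j P O.Wo) D j N B t ↔ c = true) := by
    intro x y c hn h
    rcases h with h | ⟨k, ⟨hk, hkr⟩, hp, hc2⟩
    · exact out_WFw h0 h1 hP h
    · have hkP := hc k hk hkr
      rcases hp with hp | hp
      · rw [hp, kt_WFw h0 h1 hP hN hkP hkr, ht k hkP ?_, hc2]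
        intro h3
        refine hn (mem_union_right _ (mem_image.2 ⟨_, h3, ?_⟩))
        rw [tlf_lt, hp]
      · rw [hp, rt_WFw h0 h1 hP hkP, hc2]
  refine ⟨fun x y a1 a2 a3 a4 a5 a6 => ?_, fun x y a1 a2 a3 a4 a5 a6 => ?_⟩
  · exact key a6 (line_l h0 h1 hF a1 a2 a3 a4 a5 (fun h => a6 (mem_union_left _ h)))
  · exact key a6 (line_r h0 h1 hF a1 a2 a3 a4 a5 (fun h => a6 (mem_union_left _ h)))

/-- number of the bad tiles -/
theorem card_base (F : Finset ℤ) : (LoT D F j ∪ T.image tlf).card ≤ 8 * (6 * F.card + 30) + T.card :=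
  (card_union_le _ _).trans (Nat.add_le_add (card_LoT F) card_image_le)

end Frozen

end Pool.Agent.H30.Sp
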