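import Mathlib
import Pool.Agent.H74.Win.RingZ
import Pool.Agent.H42.Sp.TieVal
import Pool.Agent.H93.Sp.Str

set_option autoImplicit false
set_option linter.unusedSimpArgs false
open Finset

/-! # The line of a window in the tied natural environments

The environments `X_0` and `X_h` of a window (line along the whole lower resp. upper arc, any weights
`a, b, c`) are averages over the real frozen tiles (turns, reflex tiles, left over tiles) of the tied
natural environments `XA O p S` with the weights `w (1 - w)` on the ties of the line and `0` on the ties of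
the other arc. -/

namespace Pool.Agent.H30.Sp

open Pool.Agent.H75.Perc hiding ph
open Pool.Agent.H75.TwoArm Pool.Agent.Q1 Pool.Agent.H33.Q1
open Pool.Agent.H75.Four hiding ev
open Pool.Agent.H69.Q1
open Pool.Agent.H74.R45 (exists_lt iW_det)
open Pool.Agent.H74.Win
open Pool.Agent.H46.Sp (Win Out)
open Pool.Agent.H46.Sp.Win (XJ wal mem_EJ odd_EJ EJ_sub)
open Pool.Agent.H42.Sp (Sd Ix kt rt kt_odd rt_even kt_Tg rt_Tg OTp mg_tw mg_tw' tw wal_odd' wal_even')
open Pool.Agent.H13.R45 (Tg ev gp Ag ev_true ev_false)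
open Pool.Agent.H13.Q1 (Cap mg iW_ties iW)

variable {D : Win} {p : Bool} {j x y : ℤ} {S : Finset (ℤ × ℤ)}

/-- open frozen tiles: the real ones `S` and the deterministic ones -/
noncomputable def frz (O : OutB D) (p : Bool) (j : ℤ) (S : Finset (ℤ × ℤ)) : Finset (ℤ × ℤ) :=
  FZ D p ∩ (S ∪ D.WJ j O.out.Wo)

lemma frz_sub (O : OutB D) (p : Bool) (j : ℤ) (S : Finset (ℤ × ℤ)) : frz O p j S ⊆ FZ D p :=
  inter_subset_left

lemma frz_eq (O : OutB D) (hS : S ⊆ FZ D p) : frz O p j S = S ∪ (FZ D p ∩ D.WJ j O.out.Wo) := by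
  unfold frz
  rw [inter_union_distrib_left, inter_eq_right.2 hS]

/-- the ties of the line and the other ties -/
structure LinS (O : OutB D) (p : Bool) (j : ℤ) (q : ℤ × ℤ → ℂ) (s : Ix → ℂ) : Prop where
  near : ∀ x y, D.InE j x y → InP D p x y ∨ RG D p x y
  far : ∀ x y, InB D x y → ¬ InP D p x y → ¬ RG D p x y →
    (lt (x, y) ∈ D.WJ j O.out.Wo ↔ natc D p x y = true)
  bulk : ∀ x y, InP D p x y → D.InE j x y ∧ q (lt (x, y)) = 1 / 2
  tie : ∀ k, CA D p k → (∃ w, (∀ t, (t = kt k ∨ t = rt k) → D.InE j t.1 t.2 ∧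
      q (lt t) = wal t.1 t.2 w) ∧ s k = w * (1 - w)) ∨
    ((∀ t, (t = kt k ∨ t = rt k) → ¬ D.InE j t.1 t.2 ∧
      (lt t ∈ D.WJ j O.out.Wo ↔ natc D p t.1 t.2 = true)) ∧ s k = 0)

lemma val_on {k : Ix} {f : ℤ × ℤ → ℂ} {w : ℂ} (h1 : f (lt (kt k)) = wal (kt k).1 (kt k).2 w)
    (h2 : f (lt (rt k)) = wal (rt k).1 (rt k).2 w) :
    mg (ev k.2) (f (lt (kt k))) (f (lt (rt k))) =
      if ev k.2 = true then w * (1 - w) else 1 - w * (1 - w) := by
  rw [h1, h2, wal_odd' (kt_odd k), wal_even' (rt_even k)]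
  unfold mg
  cases ev k.2
  · simp only [Bool.false_eq_true, if_false]; ring
  · simp only [if_true]; ring

lemma val_off {k : Ix} {f : ℤ × ℤ → ℂ} (h1 : f (lt (kt k)) = if ev k.2 = true then 0 else 1)
    (h2 : f (lt (rt k)) = if ev k.2 = true then 0 else 1) :
    mg (ev k.2) (f (lt (kt k))) (f (lt (rt k))) = if ev k.2 = true then 0 else 1 - 0 := by
  rw [h1, h2]
  unfold mg
  cases ev k.2
  · simp
  · simp

namespace LinS

variable {O : OutB D} {q : ℤ × ℤ → ℂ} {s : Ix → ℂ} (H : LinS O p j q s)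

include H

lemma EJ_sub' : D.EJ j ⊆ EU D p ∪ FZ D p := by
  intro e he
  obtain ⟨x, y, rfl⟩ := exists_lt (odd_EJ he)
  rw [mem_EJ] at he
  rw [mem_union, mem_EU, mem_FZ]
  rcases H.near x y he with h | h
  · exact Or.inl (Or.inl h)
  · by_cases h2 : TT D p x y
    · exact Or.inl (Or.inr h2)
    · exact Or.inr ⟨h, h2⟩

/-- the sets -/
lemma sets (h0 : 0 ≤ j) (hS : S ⊆ FZ D p ∩ D.EJ j) {P : ℤ × ℤ → Prop} [DecidablePred P]
    (hP : ∀ e, P e ↔ e ∈ D.WJ j O.out.Wo) :
    (WU D p (frz O p j S) ∪ O.Wo) ∪ (EU D p \ D.EJ j).filter P = D.WJ j O.out.Wo ∪ S := by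
  ext e
  have hout : O.out.Wo = FB D ∪ O.Wo := rfl
  by_cases hb : e ∈ GB D
  · have hWo : e ∉ O.Wo := GB_not_Wo O hb
    obtain ⟨x, y, rfl⟩ := exists_lt (odd_GB hb)
    have hB := mem_GB.1 hb
    have hnW : D.InE j x y → lt (x, y) ∉ D.WJ j O.out.Wo := fun h =>
      Pool.Agent.H46.Sp.Win.not_mem_WJ O.out h0 h
    have hZ : lt (x, y) ∈ S → (RG D p x y ∧ ¬ TT D p x y) ∧ D.InE j x y := fun h =>
      ⟨mem_FZ.1 (mem_inter.1 (hS h)).1, mem_EJ.1 (mem_inter.1 (hS h)).2⟩
    rw [mem_union, mem_union, mem_WU, mem_filter, mem_sdiff, mem_EU, hP, mem_union, mem_EJ]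
    unfold frz
    rw [mem_inter, mem_union, mem_FZ]
    by_cases h1 : InP D p x y
    · have h2 := (H.bulk x y h1).1
      have h3 : lt (x, y) ∉ S := fun h => (hZ h).1.1.1 h1
      have h4 : ¬ RG D p x y := fun h => h.1 h1
      simp only [h1, h2, h3, h4, hnW h2, hWo, not_true_eq_false, false_and, and_false, or_self]
    · by_cases h2 : RG D p x y
      · by_cases h3 : TT D p x y
        · have h4 : lt (x, y) ∉ S := fun h => (hZ h).1.2 h3
          by_cases h5 : D.InE j x y
          · simp only [h1, h2, h3, h4, h5, hnW h5, hWo, not_true_eq_false, false_and, and_false,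
              or_self, not_false_eq_true, and_true, true_and, or_true]
          · simp only [h1, h2, h3, h4, h5, hWo, not_true_eq_false, false_and, and_false,
              or_self, not_false_eq_true, and_true, true_and, or_true, or_false, false_or]
        · simp only [h1, h2, h3, hWo, not_true_eq_false, false_and, and_false,
            or_self, not_false_eq_true, and_true, true_and, or_true, or_false, false_or]
          exact or_comm
      · have h3 : lt (x, y) ∉ S := fun h => h2 (hZ h).1.1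
        have h4 : ¬ TT D p x y := fun h => h2 h.rg
        have h5 := H.far x y hB h1 h2
        simp only [h1, h2, h3, h4, h5, hB, hWo, not_true_eq_false, false_and, and_false,
            or_self, not_false_eq_true, and_true, true_and, or_true, or_false, false_or]
  · have h1 : e ∉ WU D p (frz O p j S) := fun h => hb (WU_sub (frz_sub O p j S) h)
    have h2 : e ∉ EU D p := fun h => hb (EU_sub h)
    have h3 : e ∉ S := fun h => hb (FZ_sub (mem_inter.1 (hS h)).1)
    have h4 : e ∈ D.WJ j O.out.Wo ↔ e ∈ O.Wo := by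
      unfold Win.WJ
      rw [mem_union, hout, mem_union]
      constructor
      · rintro (h | h | h)
        · exact absurd (GA_sub_GB (Pool.Agent.H46.Sp.Win.WR_sub h)) hb
        · exact absurd (FB_sub h) hb
        · exact h
      · exact fun h => Or.inr (Or.inr h)
    rw [mem_union, mem_union, mem_filter, mem_sdiff, mem_union, h4]
    simp only [h1, h2, h3, false_and, or_false, false_or]

open Classical in
/-- **The line in the tied natural environments.** -/
theorem line_XA (h0 : 0 ≤ j) {z : ℤ × ℤ} (hz : ∀ k, CA D p k → ¬ Ag k.2 z) :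
    (XJ O.out j h0).incW q z = Ec q (FZ D p ∩ D.EJ j)
      (fun S => (XA O p (frz O p j S) (frz_sub O p j S)).incW (qs D p s) z) := by
  have e0 : (XJ O.out j h0).incW q z = iW (D.EJ j) (D.WJ j O.out.Wo) q O.c0 O.k0 z := by
    unfold XJ
    rw [Pool.Agent.H13.Q1.plane_incW]
    rfl
  rw [e0, iW_freeze (Z := FZ D p ∩ D.EJ j) inter_subset_right]
  refine Ec_congr fun S hS => ?_
  set q1 : ℤ × ℤ → ℂ := fun e => if e ∈ D.EJ j then q e else if e ∈ D.WJ j O.out.Wo then 1 else 0
    with hq1
  unfold XA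
  rw [XB_incW, iW_tied (frz_sub O p j S) hz (q := q1) (q' := qs D p s) ?_ ?_,
    iW_det (D := EU D p \ D.EJ j) (p := fun e => e ∈ D.WJ j O.out.Wo) sdiff_subset (q := q1)
    (fun e he => ?_), H.sets h0 hS (fun _ => Iff.rfl)]
  · have e2 : EU D p \ (EU D p \ D.EJ j) = D.EJ j \ (FZ D p ∩ D.EJ j) := by
      ext e
      rw [mem_sdiff, mem_sdiff, mem_sdiff, mem_inter]
      have h1 : e ∈ D.EJ j → e ∈ EU D p ∪ FZ D p := fun h => H.EJ_sub' h
      rw [mem_union] at h1
      have h2 : e ∈ EU D p → e ∉ FZ D p := fun h => disjoint_left.1 disj_EF h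
      tauto
    rw [e2]
    unfold iW
    refine Ec_congr_q (fun e he => ?_) _
    simp only [hq1]
    rw [if_pos (mem_sdiff.1 he).1]
  · simp only [hq1]
    rw [if_neg (mem_sdiff.1 he).2]
  · intro k hk
    rw [qs_kt hk]
    rcases H.tie k hk with ⟨w, h1, h2⟩ | ⟨h1, h2⟩
    · rw [h2]
      refine (val_on ?_ ?_).symm
      · simp only [hq1]
        have := h1 _ (Or.inl rfl)
        rw [if_pos (mem_EJ.2 this.1)]
        exact this.2
      · simp only [hq1]
        have := h1 _ (Or.inr rfl)
        rw [if_pos (mem_EJ.2 this.1)]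
        exact this.2
    · rw [h2]
      have key : ∀ t, (t = kt k ∨ t = rt k) → q1 (lt t) = if ev k.2 = true then 0 else 1 := by
        intro t ht
        obtain ⟨x, y⟩ := t
        have h3 := h1 _ ht
        have h4 := hk.natc ht
        simp only [hq1]
        rw [if_neg (fun h => h3.1 (mem_EJ.1 h))]
        simp only at h3
        rw [h4] at h3
        by_cases h5 : ev k.2 = true
        · rw [if_pos h5, if_neg]
          rw [h3.2, h5]; simp
        · rw [if_neg h5, if_pos]
          rw [h3.2]; simpa using h5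
      exact (val_off (key _ (Or.inl rfl)) (key _ (Or.inr rfl))).symm
  · intro e he hn
    obtain ⟨x, y, rfl⟩ := exists_lt (odd_TB he)
    have hnT : ¬ TT D p x y := by
      rintro ⟨k, hk, ht⟩
      rcases ht with ht | ht
      · exact (hn k hk).1 (by rw [ht])
      · exact (hn k hk).2 (by rw [ht])
    have hP : InP D p x y := (mem_EU.1 he).resolve_right hnT
    rw [qs_P hP]
    simp only [hq1]
    rw [if_pos (mem_EJ.2 (H.bulk x y hP).1), (H.bulk x y hP).2]

end LinS

end Pool.Agent.H30.Sp
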