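import Mathlib
import Pool.Agent.H30.Sp.LineA

set_option autoImplicit false
open Finset

/-! # The line in the tied natural environments: the two worlds

`lin_false` : `X_0`, `lin_true` : `X_h`. `sL D p a b c` : weights of the ties. -/

namespace Pool.Agent.H30.Sp

open Pool.Agent.H75.Perc hiding ph
open Pool.Agent.H75.TwoArm Pool.Agent.Q1 Pool.Agent.H33.Q1
open Pool.Agent.H75.Four hiding ev
open Pool.Agent.H69.Q1
open Pool.Agent.H74.R45 (exists_lt)
open Pool.Agent.H74.Win
open Pool.Agent.H46.Sp (Win Out)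
open Pool.Agent.H46.Sp.Win (XJ wal mem_EJ odd_EJ EJ_sub m_lo m_hi M_lo M_hi m_lt_M a_min b_max m_le_a
  b_le_M m_le_a' b_le_M' col_l_ex col_r_ex mem_WJ_l mem_WJ_r mem_WJ_l2 mem_WJ_r2 mem_WJ_b mem_WJ_t
  mem_WJ_far qJ_up qJ_dn)
open Pool.Agent.H42.Sp (Sd Ix kt rt kt_odd rt_even qJ_L qJ_R)
open Pool.Agent.H13.R45 (Tg ev gp Ag)

variable {D : Win} {p : Bool} {j x y : ℤ} {a b c : ℂ}

/-! ### Tiles -/

lemma InP_false : InP D false x y ↔ 0 ≤ y ∧ y < D.h ∧ D.a y ≤ x ∧ x < D.b y := by
  unfold InP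
  rw [sh_false, add_zero]

lemma InP_true : InP D true x y ↔ -1 ≤ y ∧ y + 1 < D.h ∧ D.a (y + 1) ≤ x ∧ x < D.b (y + 1) := by
  unfold InP
  rw [sh_true]
  constructor <;> (rintro ⟨h1, h2, h3, h4⟩; exact ⟨by omega, h2, h3, h4⟩)

/-- a neighbour of a tile of `P^p` -/
lemma nearI {x' y' : ℤ} (h : InP D p x' y') (h1 : x - 1 ≤ x') (h2 : x' ≤ x + 1) (h3 : y - 1 ≤ y')
    (h4 : y' ≤ y + 1) : InP D p x y ∨ RG D p x y := by
  by_cases hp : InP D p x y
  · exact Or.inl hp
  · exact Or.inr ⟨hp, x', y', h1, h2, h3, h4, h⟩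

/-- random tiles of `X_0` -/
lemma near_false (h : D.InE 0 x y) : InP D false x y ∨ RG D false x y := by
  have hP0 := D.P0
  have hP1 := D.P1
  have hQ0 := D.Q0
  have hQ1 := D.Q1
  rcases h with ⟨h1, h2, h3, h4⟩ | ⟨h1, h2, ⟨h3, ⟨k1, k2, k3⟩ | ⟨k1, k2, k3⟩⟩ |
    ⟨h3, ⟨k1, k2, k3⟩ | ⟨k1, k2, k3⟩⟩⟩
  · by_cases c1 : y + 1 < D.yP
    · rw [m_lo c1] at h3
      by_cases c2 : y < D.yQ
      · rw [M_lo c2] at h4
        exact nearI (x' := x) (y' := y + 1) (InP_false.2 ⟨by omega, by omega, h3, h4⟩)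
          (by omega) (by omega) (by omega) (by omega)
      · rw [M_hi (by omega)] at h4
        by_cases c3 : D.a y ≤ x
        · exact Or.inl (InP_false.2 ⟨by omega, h2, c3, h4⟩)
        · have := D.ov1 y (by omega) (by omega)
          exact nearI (x' := x) (y' := y + 1) (InP_false.2 ⟨by omega, by omega, h3, by omega⟩)
            (by omega) (by omega) (by omega) (by omega)
    · rw [m_hi (by omega)] at h3
      by_cases c2 : y < D.yQ
      · rw [M_lo c2] at h4
        by_cases c3 : x < D.b y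
        · exact Or.inl (InP_false.2 ⟨by omega, h2, h3, c3⟩)
        · have := D.ov2 y (by omega) (by omega)
          exact nearI (x' := x) (y' := y + 1) (InP_false.2 ⟨by omega, by omega, by omega, h4⟩)
            (by omega) (by omega) (by omega) (by omega)
      · rw [M_hi (by omega)] at h4
        exact Or.inl (InP_false.2 ⟨by omega, h2, h3, h4⟩)
  · have hm : D.m y = D.a y := by
      by_cases c1 : y + 1 < D.yP
      · rw [m_lo c1]
        have := D.aL y k1 c1
        omega
      · exact m_hi (by omega)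
    have hab := D.ab y k1 h2
    exact nearI (x' := x + 1) (y' := y) (InP_false.2 ⟨k1, h2, by omega, by omega⟩)
      (by omega) (by omega) (by omega) (by omega)
  · omega
  · omega
  · have hM : D.M y = D.b (y + 1) := M_lo k2
    have hov := D.ov1 y k1 (by omega)
    exact nearI (x' := x - 1) (y' := y) (InP_false.2 ⟨k1, h2, by omega, by omega⟩)
      (by omega) (by omega) (by omega) (by omega)

/-- random tiles of `X_h` -/
lemma near_true (h : D.InE D.h x y) : InP D true x y ∨ RG D true x y := by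
  have hP0 := D.P0
  have hP1 := D.P1
  have hQ0 := D.Q0
  have hQ1 := D.Q1
  have e1 : y - 1 + 1 = y := by ring
  rcases h with ⟨h1, h2, h3, h4⟩ | ⟨h1, h2, ⟨h3, ⟨k1, k2, k3⟩ | ⟨k1, k2, k3⟩⟩ |
    ⟨h3, ⟨k1, k2, k3⟩ | ⟨k1, k2, k3⟩⟩⟩
  · by_cases c1 : y + 1 < D.yP
    · rw [m_lo c1] at h3
      by_cases c2 : y < D.yQ
      · rw [M_lo c2] at h4
        exact Or.inl (InP_true.2 ⟨h1, by omega, h3, h4⟩)
      · rw [M_hi (by omega)] at h4
        by_cases c3 : x < D.b (y + 1)
        · exact Or.inl (InP_true.2 ⟨h1, by omega, h3, c3⟩)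
        · have := D.ov1 y (by omega) (by omega)
          exact nearI (x' := x) (y' := y - 1)
            (InP_true.2 ⟨by omega, by omega, by rw [e1]; omega, by rw [e1]; omega⟩)
            (by omega) (by omega) (by omega) (by omega)
    · rw [m_hi (by omega)] at h3
      by_cases c2 : y < D.yQ
      · rw [M_lo c2] at h4
        by_cases c3 : D.a (y + 1) ≤ x
        · exact Or.inl (InP_true.2 ⟨h1, by omega, c3, h4⟩)
        · have := D.ov2 y (by omega) (by omega)
          exact nearI (x' := x) (y' := y - 1)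
            (InP_true.2 ⟨by omega, by omega, by rw [e1]; omega, by rw [e1]; omega⟩)
            (by omega) (by omega) (by omega) (by omega)
      · rw [M_hi (by omega)] at h4
        exact nearI (x' := x) (y' := y - 1)
          (InP_true.2 ⟨by omega, by omega, by rw [e1]; omega, by rw [e1]; omega⟩)
          (by omega) (by omega) (by omega) (by omega)
  · omega
  · have hm : D.m y = D.a y := m_hi (by omega)
    have hU := D.aU y k1 k2
    have hov := D.ov1 y (by omega) k2
    exact nearI (x' := x + 1) (y' := y) (InP_true.2 ⟨h1, k2, by omega, by omega⟩)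
      (by omega) (by omega) (by omega) (by omega)
  · have hab := D.ab (y + 1) (by omega) k2
    have hM : D.M y = D.b (y + 1) := by
      by_cases c2 : y < D.yQ
      · exact M_lo c2
      · rw [M_hi (by omega)]
        have := D.bU y (by omega) k2
        omega
    exact nearI (x' := x - 1) (y' := y) (InP_true.2 ⟨h1, k2, by omega, by omega⟩)
      (by omega) (by omega) (by omega) (by omega)
  · omega

/-- turn tiles are ring tiles -/
lemma turnL_false (h0 : -1 ≤ y) (h1 : y < D.h) (h : D.LB 0 y ∨ D.LA 0 y) :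
    InP D false (D.m y - 1) y ∨ RG D false (D.m y - 1) y := by
  have hP0 := D.P0
  have hP1 := D.P1
  have key : y + 1 < D.yP → InP D false (D.m y - 1) y ∨ RG D false (D.m y - 1) y := by
    intro c1
    have hab := D.ab (y + 1) (by omega) (by omega)
    have hm : D.m y = D.a (y + 1) := m_lo c1
    exact nearI (x' := D.m y) (y' := y + 1) (InP_false.2 ⟨by omega, by omega, by omega, by omega⟩)
      (by omega) (by omega) (by omega) (by omega)
  rcases h with (⟨k1, k2, k3⟩ | ⟨k1, k2⟩ | ⟨k1, k2⟩) | (⟨k1, k2⟩ | ⟨k1, k2, k3⟩)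
  · exact key k2
  · have hab := D.ab 0 le_rfl (by omega)
    have hm : D.m y = D.a 0 := by
      rcases eq_or_lt_of_le (show y + 1 ≤ D.yP - 1 by omega) with c1 | c1
      · rw [m_lo (by omega)]; congr 1; omega
      · rw [m_lo (by omega)]; congr 1; omega
    exact nearI (x' := D.m y) (y' := y + 1)
      (InP_false.2 ⟨by omega, by omega, by rw [show y + 1 = 0 by omega]; omega, by
        rw [show y + 1 = 0 by omega]; omega⟩)
      (by omega) (by omega) (by omega) (by omega)
  · omega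
  · omega
  · omega

lemma turnR_false (h0 : -1 ≤ y) (h1 : y < D.h) (h : D.RB 0 y ∨ D.RA 0 y) :
    InP D false (D.M y) y ∨ RG D false (D.M y) y := by
  have hQ0 := D.Q0
  have hQ1 := D.Q1
  have key : y < D.yQ → InP D false (D.M y) y ∨ RG D false (D.M y) y := by
    intro c1
    have hab := D.ab (y + 1) (by omega) (by omega)
    have hm : D.M y = D.b (y + 1) := M_lo c1
    exact nearI (x' := D.M y - 1) (y' := y + 1)
      (InP_false.2 ⟨by omega, by omega, by omega, by omega⟩)
      (by omega) (by omega) (by omega) (by omega)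
  rcases h with (⟨k1, k2, k3⟩ | ⟨k1, k2⟩ | ⟨k1, k2⟩) | (⟨k1, k2⟩ | ⟨k1, k2, k3⟩)
  · omega
  · exact key (by omega)
  · exact key (by omega)
  · exact key (by omega)
  · exact key (by omega)

lemma turnL_true (h0 : -1 ≤ y) (h1 : y < D.h) (h : D.LB D.h y ∨ D.LA D.h y) :
    InP D true (D.m y - 1) y ∨ RG D true (D.m y - 1) y := by
  have hP0 := D.P0
  have hP1 := D.P1
  have e1 : y - 1 + 1 = y := by ring
  have key : D.yP ≤ y + 1 → InP D true (D.m y - 1) y ∨ RG D true (D.m y - 1) y := by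
    intro c1
    have hab := D.ab y (by omega) (by omega)
    have hm : D.m y = D.a y := m_hi c1
    exact nearI (x' := D.m y) (y' := y - 1)
      (InP_true.2 ⟨by omega, by omega, by rw [e1]; omega, by rw [e1]; omega⟩)
      (by omega) (by omega) (by omega) (by omega)
  rcases h with (⟨k1, k2, k3⟩ | ⟨k1, k2⟩ | ⟨k1, k2⟩) | (⟨k1, k2⟩ | ⟨k1, k2, k3⟩)
  · omega
  · exact key (by omega)
  · exact key (by omega)
  · exact key (by omega)
  · exact key (by omega)

lemma turnR_true (h0 : -1 ≤ y) (h1 : y < D.h) (h : D.RB D.h y ∨ D.RA D.h y) :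
    InP D true (D.M y) y ∨ RG D true (D.M y) y := by
  have hQ0 := D.Q0
  have hQ1 := D.Q1
  have e1 : y - 1 + 1 = y := by ring
  have key : D.yQ ≤ y → InP D true (D.M y) y ∨ RG D true (D.M y) y := by
    intro c1
    have hab := D.ab y (by omega) (by omega)
    have hm : D.M y = D.b y := M_hi c1
    exact nearI (x' := D.M y - 1) (y' := y - 1)
      (InP_true.2 ⟨by omega, by omega, by rw [e1]; omega, by rw [e1]; omega⟩)
      (by omega) (by omega) (by omega) (by omega)
  rcases h with (⟨k1, k2, k3⟩ | ⟨k1, k2⟩ | ⟨k1, k2⟩) | (⟨k1, k2⟩ | ⟨k1, k2, k3⟩)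
  · exact key (by omega)
  · exact key (by omega)
  · omega
  · omega
  · omega

/-! ### The far tiles -/

lemma InU_E (h0 : -1 ≤ y) (h1 : y < D.h) (h2 : D.m y ≤ x) (h3 : x < D.M y) : D.InE j x y :=
  Or.inl ⟨h0, h1, h2, h3⟩

/-- **The tiles which are neither in `P^p` nor in the ring have their natural colour.** -/
lemma far_gen (O : OutB D) (near : ∀ x y, D.InE j x y → InP D p x y ∨ RG D p x y)
    (tL : ∀ y, -1 ≤ y → y < D.h → (D.LB j y ∨ D.LA j y) → InP D p (D.m y - 1) y ∨ RG D p (D.m y - 1) y)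
    (tR : ∀ y, -1 ≤ y → y < D.h → (D.RB j y ∨ D.RA j y) → InP D p (D.M y) y ∨ RG D p (D.M y) y)
    (hB : InB D x y) (hP : ¬ InP D p x y) (hR : ¬ RG D p x y) :
    lt (x, y) ∈ D.WJ j O.out.Wo ↔ natc D p x y = true := by
  have hno : ¬ (InP D p x y ∨ RG D p x y) := by
    rintro (h | h)
    · exact hP h
    · exact hR h
  have hU : y < -1 ∨ D.h ≤ y ∨ x < D.m y ∨ D.M y ≤ x := by
    by_contra h
    push Not at h
    exact hno (near x y (InU_E h.1 h.2.1 h.2.2.1 h.2.2.2))
  rw [natc_out hU]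
  by_cases hz : D.InZ x y
  · obtain ⟨z1, z2, z3, z4⟩ := hz
    unfold fillc
    by_cases c1 : y < -1
    · have e : y = -2 := by omega
      subst e
      rw [if_pos c1]
      exact mem_WJ_b O.out z1 z2
    rw [if_neg c1]
    by_cases c2 : D.h ≤ y
    · have e : y = D.h := by omega
      subst e
      rw [if_pos le_rfl]
      exact mem_WJ_t O.out z1 z2
    rw [if_neg c2]
    have hmM := m_lt_M (D := D) (y := y) (by omega) (by omega)
    by_cases c3 : x < D.m y
    · rw [if_pos c3]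
      by_cases c4 : x + 2 ≤ D.m y
      · exact mem_WJ_l2 O.out (by omega) (by omega) c4 z1
      · have e : x = D.m y - 1 := by omega
        subst e
        rw [mem_WJ_l O.out (by omega) (by omega)]
        have n1 : ¬ (D.LB j y ∨ D.LA j y) := fun h => hno (tL y (by omega) (by omega) h)
        have n2 : ¬ (D.LS j y ∨ D.LN j y) := fun h =>
          hno (near _ _ (Or.inr ⟨by omega, by omega, Or.inl ⟨rfl, h⟩⟩))
        have n3 := col_l_ex (D := D) (j := j) (y := y)
        push Not at n1 n2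
        simp only [n1.1, n1.2, n2.1, n2.2, false_or, false_and] at n3 ⊢
        simp only [n3, true_and]
    · rw [if_neg c3]
      by_cases c4 : D.M y + 1 ≤ x
      · exact mem_WJ_r2 O.out (by omega) (by omega) c4 z2
      · have e : x = D.M y := by omega
        subst e
        rw [mem_WJ_r O.out (by omega) (by omega)]
        have n1 : ¬ (D.RB j y ∨ D.RA j y) := fun h => hno (tR y (by omega) (by omega) h)
        have n2 : ¬ (D.RS j y ∨ D.RN j y) := fun h =>
          hno (near _ _ (Or.inr ⟨by omega, by omega, Or.inr ⟨rfl, h⟩⟩))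
        have n3 := col_r_ex (D := D) (j := j) (y := y)
        push Not at n1 n2
        simp only [n1.1, n1.2, n2.1, n2.2, false_or, false_and] at n3 ⊢
        simp only [n3, true_and]
  · rw [mem_WJ_far O.out hz]
    have hout : O.out.Wo = FB D ∪ O.Wo := rfl
    rw [hout, mem_union, mem_FB]
    constructor
    · rintro (h | h)
      · exact h.2.2
      · exact absurd hB (O.far x y h)
    · exact fun h => Or.inl ⟨hB, hz, h⟩

/-! ### The layer tiles of the lower world -/

/-- a tile which is not real, of the natural colour -/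
def Off (O : OutB D) (p : Bool) (j x y : ℤ) : Prop :=
  ¬ D.InE j x y ∧ (lt (x, y) ∈ D.WJ j O.out.Wo ↔ natc D p x y = true)

lemma natc_l (h0 : -1 ≤ y) (h1 : y < D.h) (h2 : x < D.m y) : natc D p x y = D.cl y := by
  unfold natc
  rw [if_neg (by omega), if_neg (by omega), if_pos h2]

lemma natc_r (h0 : -1 ≤ y) (h1 : y < D.h) (h2 : D.M y ≤ x) : natc D p x y = D.cr y := by
  have := m_lt_M (D := D) h0 h1
  unfold natc
  rw [if_neg (by omega), if_neg (by omega), if_neg (by omega), if_pos h2]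

lemma off_l (O : OutB D) (h0 : -1 ≤ y) (h1 : y < D.h) (h2 : x = D.m y - 1) (h3 : ¬ D.LS j y)
    (h4 : ¬ D.LN j y) (h5 : ¬ D.LB j y) (h6 : ¬ D.LA j y) : Off O p j x y := by
  subst h2
  have hM := m_lt_M (D := D) h0 h1
  have h7 := col_l_ex (D := D) (j := j) (y := y)
  refine ⟨?_, ?_⟩
  · rintro (⟨-, -, h, -⟩ | ⟨-, -, ⟨-, h | h⟩ | ⟨h, -⟩⟩)
    · omega
    · exact h3 h
    · exact h4 h
    · omega
  · rw [mem_WJ_l O.out h0 h1, natc_l h0 h1 (by omega)]
    simp only [h3, h4, h5, h6, false_or, false_and] at h7 ⊢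
    simp only [h7, true_and]

lemma off_r (O : OutB D) (h0 : -1 ≤ y) (h1 : y < D.h) (h2 : x = D.M y) (h3 : ¬ D.RS j y)
    (h4 : ¬ D.RN j y) (h5 : ¬ D.RB j y) (h6 : ¬ D.RA j y) : Off O p j x y := by
  subst h2
  have hM := m_lt_M (D := D) h0 h1
  have h7 := col_r_ex (D := D) (j := j) (y := y)
  refine ⟨?_, ?_⟩
  · rintro (⟨-, -, -, h⟩ | ⟨-, -, ⟨h, -⟩ | ⟨-, h | h⟩⟩)
    · omega
    · omega
    · exact h3 h
    · exact h4 h
  · rw [mem_WJ_r O.out h0 h1, natc_r h0 h1 le_rfl]
    simp only [h3, h4, h5, h6, false_or, false_and] at h7 ⊢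
    simp only [h7, true_and]

lemma off_l2 (O : OutB D) (h0 : -1 ≤ y) (h1 : y < D.h) (h2 : x + 2 ≤ D.m y)
    (h3 : D.a (D.yP - 1) ≤ x + 2) : Off O p j x y := by
  refine ⟨Pool.Agent.H46.Sp.Win.not_InE (Or.inr (Or.inr (Or.inl h2))), ?_⟩
  rw [mem_WJ_l2 O.out h0 h1 h2 h3, natc_l h0 h1 (by omega)]

lemma off_r2 (O : OutB D) (h0 : -1 ≤ y) (h1 : y < D.h) (h2 : D.M y + 1 ≤ x)
    (h3 : x ≤ D.b D.yQ + 1) : Off O p j x y := by
  refine ⟨Pool.Agent.H46.Sp.Win.not_InE (Or.inr (Or.inr (Or.inr h2))), ?_⟩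
  rw [mem_WJ_r2 O.out h0 h1 h2 h3, natc_r h0 h1 (by omega)]

lemma off_b (O : OutB D) (h2 : D.a (D.yP - 1) ≤ x + 2) (h3 : x ≤ D.b D.yQ + 1) :
    Off O p j x (-2) := by
  refine ⟨Pool.Agent.H46.Sp.Win.not_InE (Or.inl (by omega)), ?_⟩
  rw [mem_WJ_b O.out h2 h3]
  unfold natc
  rw [if_pos (by omega)]

lemma off_t (O : OutB D) (h2 : D.a (D.yP - 1) ≤ x + 2) (h3 : x ≤ D.b D.yQ + 1) :
    Off O p j x D.h := by
  have := D.hh
  refine ⟨Pool.Agent.H46.Sp.Win.not_InE (Or.inr (Or.inl le_rfl)), ?_⟩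
  rw [mem_WJ_t O.out h2 h3]
  unfold natc
  rw [if_neg (by omega), if_pos le_rfl]

lemma L_false (O : OutB D) (h : LyL D false x y) :
    (y < D.yP → D.InE 0 x y ∧ D.qJ 0 a b c (lt (x, y)) = wal x y (1 - b)) ∧
      (D.yP ≤ y → Off O false 0 x y) := by
  have hP0 := D.P0
  have hP1 := D.P1
  unfold LyL at h
  rw [sh_false, add_zero] at h
  obtain ⟨h1, h2, h3, h4, h5⟩ := h
  refine ⟨fun c1 => ?_, fun c1 => ?_⟩
  · have hm : D.m y = D.a y := by
      by_cases c2 : y + 1 < D.yP
      · rw [m_lo c2]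
        have := D.aL y h1 c2
        have := h4 (by omega)
        omega
      · exact m_hi (by omega)
    refine ⟨Or.inr ⟨by omega, h2, Or.inl ⟨by omega, Or.inl ⟨h1, c1, ?_⟩⟩⟩, ?_⟩
    · rintro ⟨c2, c3⟩
      have := h4 (by omega)
      omega
    · rw [qJ_L (by omega), if_pos c1]
  · have hm : D.m y = D.a y := m_hi (by omega)
    refine off_l O (by omega) h2 (by omega) ?_ ?_ ?_ ?_
    · rintro ⟨-, k, -⟩; omega
    · rintro ⟨-, k, -⟩; omega
    · rintro (⟨-, k, -⟩ | ⟨k, -⟩ | ⟨-, k⟩) <;> omega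
    · rintro (⟨k, -⟩ | ⟨-, k, -⟩) <;> omega

lemma R_false (O : OutB D) (h : LyR D false x y) :
    (y < D.yQ → D.InE 0 x y ∧ D.qJ 0 a b c (lt (x, y)) = wal x y (1 - c)) ∧
      (D.yQ ≤ y → Off O false 0 x y) := by
  have hQ0 := D.Q0
  have hQ1 := D.Q1
  unfold LyR at h
  rw [sh_false, add_zero] at h
  obtain ⟨h1, h2, h3, h4, h5⟩ := h
  refine ⟨fun c1 => ?_, fun c1 => ?_⟩
  · have hM : D.M y = D.b (y + 1) := M_lo c1
    have h6 := h4 (by omega)
    have hm : D.b (y + 1) = D.b y := by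
      by_cases c2 : y + 1 < D.yQ
      · have := D.bL y h1 c2
        omega
      · have h7 := D.bQ (by omega)
        have e : y + 1 = D.yQ := by omega
        rw [← e, add_sub_cancel_right] at h7
        omega
    refine ⟨Or.inr ⟨by omega, h2, Or.inr ⟨by omega, Or.inr ⟨h1, c1, by omega⟩⟩⟩, ?_⟩
    rw [qJ_R (by omega) h2 (by omega), if_pos h1]
  · have hM : D.M y = D.b y := M_hi c1
    refine off_r O (by omega) h2 (by omega) ?_ ?_ ?_ ?_
    · rintro ⟨-, k, -⟩; omega
    · rintro ⟨-, k, -⟩; omega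
    · rintro (⟨k, -, -⟩ | ⟨k, -⟩ | ⟨-, k⟩) <;> omega
    · rintro (⟨k, -⟩ | ⟨-, k, -⟩) <;> omega

lemma F_false (h : LyF D false x y) :
    D.InE 0 x y ∧ D.qJ 0 a b c (lt (x, y)) = wal x y a := by
  have hP0 := D.P0
  have hP1 := D.P1
  have hQ0 := D.Q0
  have hQ1 := D.Q1
  unfold LyF at h
  rw [sh_false, add_zero] at h
  obtain ⟨h1, h2, h3, h4, h5⟩ := h
  have hU : D.m y ≤ x ∧ x < D.M y := by
    rcases lt_or_ge y 0 with c0 | c0
    · rw [m_lo (by omega), M_lo (by omega)]
      exact ⟨h3, h4⟩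
    · have hab := D.ab y c0 (by omega)
      rcases h5 c0 with c1 | c1
      · have k := a_drop (D := D) c0 h2 (by omega)
        rw [m_lo k]
        have := b_le_M (D := D) (y := y) c0
        omega
      · have k := b_rise (D := D) h2 (by omega : D.b y < D.b (y + 1))
        rw [M_lo (by omega)]
        have := m_le_a (D := D) (y := y) c0
        omega
  refine ⟨InU_E h1 (by omega) hU.1 hU.2, ?_⟩
  refine Pool.Agent.H42.Sp.qJ_row le_rfl (by omega) (by omega) hU.1 hU.2 ?_
  rcases lt_or_ge y 0 with c0 | c0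
  · exact Or.inl (by omega)
  · exact Or.inr (Or.inl ⟨c0, h5 c0⟩)

lemma C_false (O : OutB D) (h : LyC D false x y) : Off O false 0 x y := by
  have hP0 := D.P0
  have hP1 := D.P1
  have hQ0 := D.Q0
  have hQ1 := D.Q1
  unfold LyC at h
  rw [sh_false, add_zero] at h
  obtain ⟨h1, h2, h3, h4, h5⟩ := h
  have k1 := a_min (D := D) (y := y - 1) (by omega) (by omega)
  have k2 := b_max (D := D) (y := y - 1) (by omega) (by omega)
  rcases eq_or_lt_of_le h2 with c0 | c0
  · subst c0
    exact off_t O (by omega) (by omega)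
  · have hab := D.ab y (by omega) c0
    rcases h5 c0 with c1 | c1
    · have k := a_rise (D := D) (y := y - 1) (by omega) (by rw [sub_add_cancel]; omega)
      have hm : D.m y = D.a y := m_hi (by omega)
      exact off_l2 O (by omega) c0 (by omega) (by omega)
    · have k := b_drop (D := D) (y := y - 1) (by omega) (by rw [sub_add_cancel]; omega)
      have hM : D.M y = D.b y := M_hi (by omega)
      exact off_r2 O (by omega) c0 (by omega) (by omega)

/-! ### The layer tiles of the upper world -/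

lemma L_true (O : OutB D) (h : LyL D true x y) :
    (D.yP ≤ y → D.InE D.h x y ∧ D.qJ D.h a b c (lt (x, y)) = wal x y (1 - c)) ∧
      (y < D.yP → Off O true D.h x y) := by
  have hP0 := D.P0
  have hP1 := D.P1
  unfold LyL at h
  rw [sh_true, add_sub_cancel_right] at h
  obtain ⟨h1, h2, h3, h4, h5⟩ := h
  refine ⟨fun c1 => ?_, fun c1 => ?_⟩
  · have hm : D.m y = D.a y := m_hi (by omega)
    have k1 := D.aU y c1 h2
    have k2 := h5 (by omega)
    refine ⟨Or.inr ⟨by omega, by omega, Or.inl ⟨by omega, Or.inr ⟨c1, h2, by omega⟩⟩⟩, ?_⟩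
    rw [qJ_L (by omega), if_neg (by omega)]
  · have c2 : y + 1 < D.yP := by
      by_contra c2
      have e : y = D.yP - 1 := by omega
      have k1 := D.aP (by omega)
      have k2 := h5 (by omega)
      rw [e, sub_add_cancel] at k2
      omega
    have hm : D.m y = D.a (y + 1) := m_lo c2
    refine off_l O (by omega) (by omega) (by omega) ?_ ?_ ?_ ?_
    · rintro ⟨k, -, -⟩; omega
    · rintro ⟨k, -, -⟩; omega
    · rintro (⟨k, -, -⟩ | ⟨k, -⟩ | ⟨k, -⟩) <;> omega
    · rintro (⟨k, -⟩ | ⟨k, -, -⟩) <;> omega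

lemma R_true (O : OutB D) (h : LyR D true x y) :
    (D.yQ ≤ y + 1 → D.InE D.h x y ∧ D.qJ D.h a b c (lt (x, y)) = wal x y (1 - b)) ∧
      (y + 1 < D.yQ → Off O true D.h x y) := by
  have hQ0 := D.Q0
  have hQ1 := D.Q1
  unfold LyR at h
  rw [sh_true, add_sub_cancel_right] at h
  obtain ⟨h1, h2, h3, h4, h5⟩ := h
  refine ⟨fun c1 => ?_, fun c1 => ?_⟩
  · have hM : D.M y = D.b (y + 1) := by
      by_cases c2 : y < D.yQ
      · exact M_lo c2
      · rw [M_hi (by omega)]
        have k1 := D.bU y (by omega) h2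
        have k2 := h5 (by omega)
        omega
    refine ⟨Or.inr ⟨by omega, by omega, Or.inr ⟨by omega, Or.inl ⟨c1, h2, ?_⟩⟩⟩, ?_⟩
    · rintro ⟨k1, k2⟩
      have := h5 (by omega)
      omega
    · rw [qJ_R (by omega) (by omega) (by omega), if_neg (by omega)]
  · have hM : D.M y = D.b (y + 1) := M_lo (by omega)
    refine off_r O (by omega) (by omega) (by omega) ?_ ?_ ?_ ?_
    · rintro ⟨k, -, -⟩; omega
    · rintro ⟨k, -, -⟩; omega
    · rintro (⟨-, k, -⟩ | ⟨k, -⟩ | ⟨k, -⟩) <;> omega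
    · rintro (⟨k, -⟩ | ⟨k, -, -⟩) <;> omega

lemma F_true (O : OutB D) (h : LyF D true x y) : Off O true D.h x y := by
  have hP0 := D.P0
  have hP1 := D.P1
  have hQ0 := D.Q0
  have hQ1 := D.Q1
  unfold LyF at h
  rw [sh_true] at h
  obtain ⟨h1, h2, h3, h4, h5⟩ := h
  have k1 := a_min (D := D) (y := y + 1 + 1) (by omega) (by omega)
  have k2 := b_max (D := D) (y := y + 1 + 1) (by omega) (by omega)
  rcases eq_or_lt_of_le (show -2 ≤ y by omega) with c0 | c0
  · subst c0
    exact off_b O (by omega) (by omega)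
  · have hab := D.ab (y + 1) (by omega) (by omega)
    rcases h5 (by omega) with c1 | c1
    · have k := a_drop (D := D) (y := y + 1) (by omega) h2 (by omega)
      have hm : D.m y = D.a (y + 1) := m_lo (by omega)
      exact off_l2 O (by omega) (by omega) (by omega) (by omega)
    · have k := b_rise (D := D) (y := y + 1) h2 (by omega)
      have hM : D.M y = D.b (y + 1) := M_lo (by omega)
      exact off_r2 O (by omega) (by omega) (by omega) (by omega)

lemma C_true (h : LyC D true x y) :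
    D.InE D.h x y ∧ D.qJ D.h a b c (lt (x, y)) = wal x y a := by
  have hP0 := D.P0
  have hP1 := D.P1
  have hQ0 := D.Q0
  have hQ1 := D.Q1
  have hh := D.hh
  unfold LyC at h
  rw [sh_true, add_sub_cancel_right] at h
  obtain ⟨h1, h2, h3, h4, h5⟩ := h
  have hU : D.m y ≤ x ∧ x < D.M y := by
    rcases eq_or_lt_of_le h2 with c0 | c0
    · rw [m_hi (by omega), M_hi (by omega)]
      exact ⟨h3, h4⟩
    · have hab := D.ab (y + 1) (by omega) c0
      rcases h5 c0 with c1 | c1
      · have k := a_rise (D := D) (y := y) (by omega) (by omega)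
        rw [m_hi k]
        have := b_le_M (D := D) (y := y) (by omega)
        omega
      · have k := b_drop (D := D) (y := y) (by omega) (by omega)
        rw [M_hi k]
        have := m_le_a (D := D) (y := y) (by omega)
        omega
  refine ⟨InU_E (by omega) (by omega) hU.1 hU.2, ?_⟩
  refine Pool.Agent.H42.Sp.qJ_row (by omega) le_rfl (by omega) hU.1 hU.2 ?_
  rcases eq_or_lt_of_le h2 with c0 | c0
  · exact Or.inl (by omega)
  · exact Or.inr (Or.inr ⟨by omega, by omega, h5 c0⟩)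

end Pool.Agent.H30.Sp
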