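import Mathlib
import Pool.Agent.H30.Sp.LineB

set_option autoImplicit false
open Finset

/-! # The line in the tied natural environments: the theorems

`X0_XA` : the environment number `0` of a window (line along the lower arc) at any weights `a, b, c` is the
average over the real frozen tiles of `XA O false S` with the weights `sL D false a b c` of the ties
(`w (1 - w)` on the lower arc, `w = a` on floors, `b` on left walls, `c` on right walls, and `0` on the upper
arc). `Xh_XA` : the same for the environment number `h` (line along the upper arc). -/

namespace Pool.Agent.H30.Sp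

open Pool.Agent.H75.Perc hiding ph
open Pool.Agent.H75.TwoArm Pool.Agent.Q1 Pool.Agent.H33.Q1
open Pool.Agent.H75.Four hiding ev
open Pool.Agent.H69.Q1
open Pool.Agent.H74.R45 (exists_lt)
open Pool.Agent.H74.Win
open Pool.Agent.H46.Sp (Win Out)
open Pool.Agent.H46.Sp.Win (XJ wal m_lo m_hi M_lo M_hi m_lt_M m_le_a b_le_M m_le_a' b_le_M' qJ_up qJ_dn)
open Pool.Agent.H42.Sp (Sd Ix kt rt)
open Pool.Agent.H13.R45 (Tg ev gp Ag)

variable {D : Win} {x y : ℤ} {a b c : ℂ}

/-- weights of the ties, line along the lower (`p = false`) or upper (`p = true`) arc -/
noncomputable def sL (D : Win) (p : Bool) (a b c : ℂ) (k : Ix) : ℂ :=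
  match p, k with
  | false, (.L, g) => if g.2 < D.yP then b * (1 - b) else 0
  | false, (.R, g) => if g.2 < D.yQ then c * (1 - c) else 0
  | false, (.F, _) => a * (1 - a)
  | false, (.C, _) => 0
  | true, (.L, g) => if D.yP ≤ g.2 then c * (1 - c) else 0
  | true, (.R, g) => if D.yQ ≤ g.2 then b * (1 - b) else 0
  | true, (.F, _) => 0
  | true, (.C, _) => a * (1 - a)

/-- **The line along the lower arc** -/
theorem lin_false (O : OutB D) : LinS O false 0 (D.qJ 0 a b c) (sL D false a b c) where
  near _ _ h := near_false h
  far _ _ hB hP hR := far_gen O (fun _ _ h => near_false h) (fun _ h0 h1 h => turnL_false h0 h1 h)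
    (fun _ h0 h1 h => turnR_false h0 h1 h) hB hP hR
  bulk x y h := by
    rw [InP_false] at h
    obtain ⟨h1, h2, h3, h4⟩ := h
    have k1 := m_le_a (D := D) h1
    have k2 := b_le_M (D := D) h1
    exact ⟨InU_E (by omega) h2 (by omega) (by omega), qJ_up h1 h1 h3 h4⟩
  tie k hk := by
    have hP0 := D.P0
    have hP1 := D.P1
    obtain ⟨s, x, y⟩ := k
    cases s
    · obtain ⟨k1, k2, -⟩ := hk
      by_cases c1 : y < D.yP
      · refine Or.inl ⟨1 - b, fun t ht => ?_, ?_⟩
        · rw [kr_L] at ht
          rcases ht with rfl | rfl
          · exact (L_false O k1).1 c1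
          · exact (L_false O k2).1 (by omega)
        · unfold sL
          simp only
          rw [if_pos c1]; ring
      · refine Or.inr ⟨fun t ht => ?_, ?_⟩
        · have c2 : D.yP < y := by
            rcases eq_or_lt_of_le (not_lt.1 c1) with h | h
            · exfalso
              unfold LyL at k1 k2
              rw [sh_false, add_zero] at k1 k2
              have h3 := D.aP (by omega)
              rw [h] at h3
              omega
            · exact h
          rw [kr_L] at ht
          rcases ht with rfl | rfl
          · exact (L_false (a := a) (b := b) (c := c) O k1).2 (by omega)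
          · exact (L_false (a := a) (b := b) (c := c) O k2).2 (by omega)
        · unfold sL
          simp only
          rw [if_neg c1]
    · obtain ⟨k1, k2, -⟩ := hk
      by_cases c1 : y < D.yQ
      · refine Or.inl ⟨1 - c, fun t ht => ?_, ?_⟩
        · rw [kr_R] at ht
          rcases ht with rfl | rfl
          · exact (R_false O k1).1 c1
          · exact (R_false O k2).1 (by omega)
        · unfold sL
          simp only
          rw [if_pos c1]; ring
      · refine Or.inr ⟨fun t ht => ?_, ?_⟩
        · have c2 : D.yQ < y := by
            rcases eq_or_lt_of_le (not_lt.1 c1) with h | h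
            · exfalso
              unfold LyR at k1 k2
              rw [sh_false, add_zero] at k1 k2
              have h3 := D.bQ (by omega)
              rw [h] at h3
              omega
            · exact h
          rw [kr_R] at ht
          rcases ht with rfl | rfl
          · exact (R_false (a := a) (b := b) (c := c) O k1).2 (by omega)
          · exact (R_false (a := a) (b := b) (c := c) O k2).2 (by omega)
        · unfold sL
          simp only
          rw [if_neg c1]
    · obtain ⟨k1, k2, -⟩ := hk
      refine Or.inl ⟨a, fun t ht => ?_, rfl⟩
      rw [kr_F] at ht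
      rcases ht with rfl | rfl
      · exact F_false k1
      · exact F_false k2
    · obtain ⟨k1, k2, -⟩ := hk
      refine Or.inr ⟨fun t ht => ?_, rfl⟩
      rw [kr_C] at ht
      rcases ht with rfl | rfl
      · exact C_false O k1
      · exact C_false O k2

/-- **The line along the upper arc** -/
theorem lin_true (O : OutB D) : LinS O true D.h (D.qJ D.h a b c) (sL D true a b c) where
  near _ _ h := near_true h
  far _ _ hB hP hR := far_gen O (fun _ _ h => near_true h) (fun _ h0 h1 h => turnL_true h0 h1 h)
    (fun _ h0 h1 h => turnR_true h0 h1 h) hB hP hR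
  bulk x y h := by
    rw [InP_true] at h
    obtain ⟨h1, h2, h3, h4⟩ := h
    have k1 := m_le_a' (D := D) h2
    have k2 := b_le_M' (D := D) h2
    exact ⟨InU_E h1 (by omega) (by omega) (by omega), qJ_dn h2 h2 h3 h4⟩
  tie k hk := by
    have hP0 := D.P0
    have hP1 := D.P1
    obtain ⟨s, x, y⟩ := k
    cases s
    · obtain ⟨k1, k2, -⟩ := hk
      by_cases c1 : D.yP ≤ y
      · have c2 : D.yP < y := by
          rcases eq_or_lt_of_le c1 with h | h
          · exfalso
            unfold LyL at k2
            rw [sh_true, sub_add_cancel] at k2
            obtain ⟨a1, a2, a3, a4, a5⟩ := k2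
            have h3 := D.aP (by omega)
            have h4 := a5 (by omega)
            rw [h] at h3
            omega
          · exact h
        refine Or.inl ⟨1 - c, fun t ht => ?_, ?_⟩
        · rw [kr_L] at ht
          rcases ht with rfl | rfl
          · exact (L_true O k1).1 (by omega)
          · exact (L_true O k2).1 (by omega)
        · unfold sL
          simp only
          rw [if_pos c1]; ring
      · refine Or.inr ⟨fun t ht => ?_, ?_⟩
        · rw [kr_L] at ht
          rcases ht with rfl | rfl
          · exact (L_true (a := a) (b := b) (c := c) O k1).2 (by omega)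
          · exact (L_true (a := a) (b := b) (c := c) O k2).2 (by omega)
        · unfold sL
          simp only
          rw [if_neg c1]
    · obtain ⟨k1, k2, -⟩ := hk
      by_cases c1 : D.yQ ≤ y
      · refine Or.inl ⟨1 - b, fun t ht => ?_, ?_⟩
        · rw [kr_R] at ht
          rcases ht with rfl | rfl
          · exact (R_true O k1).1 (by omega)
          · exact (R_true O k2).1 (by omega)
        · unfold sL
          simp only
          rw [if_pos c1]; ring
      · refine Or.inr ⟨fun t ht => ?_, ?_⟩
        · have c2 : y + 1 < D.yQ := by
            by_contra h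
            have e : y + 1 = D.yQ := by omega
            unfold LyR at k1 k2
            rw [sh_true] at k1 k2
            rw [sub_add_cancel] at k2
            have h3 := D.bQ (by omega)
            rw [← e, add_sub_cancel_right] at h3
            omega
          rw [kr_R] at ht
          rcases ht with rfl | rfl
          · exact (R_true (a := a) (b := b) (c := c) O k1).2 (by omega)
          · exact (R_true (a := a) (b := b) (c := c) O k2).2 (by omega)
        · unfold sL
          simp only
          rw [if_neg c1]
    · obtain ⟨k1, k2, -⟩ := hk
      refine Or.inr ⟨fun t ht => ?_, rfl⟩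
      rw [kr_F] at ht
      rcases ht with rfl | rfl
      · exact F_true O k1
      · exact F_true O k2
    · obtain ⟨k1, k2, -⟩ := hk
      refine Or.inl ⟨a, fun t ht => ?_, rfl⟩
      rw [kr_C] at ht
      rcases ht with rfl | rfl
      · exact C_true k1
      · exact C_true k2

/-- **`X_0` in the tied natural environments of the lower world.** -/
theorem X0_XA (O : OutB D) {z : ℤ × ℤ} (hz : ∀ k, CA D false k → ¬ Ag k.2 z) (a b c : ℂ) :
    (XJ O.out 0 le_rfl).incW (D.qJ 0 a b c) z = Ec (D.qJ 0 a b c) (FZ D false ∩ D.EJ 0)
      (fun S => (XA O false (frz O false 0 S) (frz_sub O false 0 S)).incW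
        (qs D false (sL D false a b c)) z) :=
  (lin_false O).line_XA le_rfl hz

/-- **`X_h` in the tied natural environments of the upper world.** -/
theorem Xh_XA (O : OutB D) (hh : 0 ≤ D.h) {z : ℤ × ℤ} (hz : ∀ k, CA D true k → ¬ Ag k.2 z)
    (a b c : ℂ) :
    (XJ O.out D.h hh).incW (D.qJ D.h a b c) z = Ec (D.qJ D.h a b c) (FZ D true ∩ D.EJ D.h)
      (fun S => (XA O true (frz O true D.h S) (frz_sub O true D.h S)).incW
        (qs D true (sL D true a b c)) z) :=
  (lin_true O).line_XA hh hz

end Pool.Agent.H30.Sp
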