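import Mathlib
import Pool.Agent.H30.Sp.LineC
import Pool.Agent.H30.Sp.BaseT

set_option autoImplicit false
open Finset

/-! # Frozen real tiles of the line

`FE_false`, `FE_true` : the tiles of the line along a whole arc which do not belong to a tie of the tied natural
environment are left over tiles (`LoT`, at most `8 (6 |F| + 30)`). `qJ_norm` : bound of the weights.
`Ec_near` : complex means of few labels. -/

namespace Pool.Agent.H30.Sp

open Pool.Agent.H75.Perc hiding ph
open Pool.Agent.H75.TwoArm Pool.Agent.Q1 Pool.Agent.H33.Q1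
open Pool.Agent.H75.Four hiding ev
open Pool.Agent.H69.Q1
open Pool.Agent.H74.R45 (exists_lt)
open Pool.Agent.H74.Win
open Pool.Agent.H46.Sp (Win Out)
open Pool.Agent.H46.Sp.Win (XJ wal mem_EJ odd_EJ m_lo m_hi M_lo M_hi m_lt_M m_le_a b_le_M m_le_a' b_le_M')
open Pool.Agent.H42.Sp (Sd Ix kt rt cl_eq cr_eq)
open Pool.Agent.H13.R45 (Tg ev gp Ag)

variable {D : Win} {p : Bool} {j x y : ℤ} {a b c : ℂ} {F : Finset ℤ}

/-- nothing changes near the row `y` -/
theorem far_eq2 (hF : Few D F) (h : y ∉ Sr D F j) (h1 : -1 ≤ y) (h2 : y < D.h) :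
    (D.a (y - 2) = D.a y ∧ D.a (y - 1) = D.a y ∧ D.a (y + 1) = D.a y ∧ D.a (y + 2) = D.a y ∧
      D.a (y + 3) = D.a y) ∧
    (D.b (y - 2) = D.b y ∧ D.b (y - 1) = D.b y ∧ D.b (y + 1) = D.b y ∧ D.b (y + 2) = D.b y ∧
      D.b (y + 3) = D.b y) ∧ 2 < y ∧ y < D.h - 3 := by
  obtain ⟨k0, k1, k2, k3, k4, k5⟩ := not_Sr h
  obtain ⟨e1, e2, e3, e4, e5, e6, -⟩ := far_eq hF h h1 h2
  have f1 := hF (y - 1) (by omega) (by omega) (k5 _ (by omega) (by omega))
  have f2 := hF (y + 3) (by omega) (by omega) (k5 _ (by omega) (by omega))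
  rw [show y - 1 - 1 = y - 2 by ring] at f1
  rw [show y + 3 - 1 = y + 2 by ring] at f2
  exact ⟨⟨f1.1.symm.trans e1, e1, e2, e3, f2.1.trans e3⟩,
    ⟨f1.2.symm.trans e4, e4, e5, e6, f2.2.trans e6⟩, by omega, by omega⟩

theorem far_cl (hF : Few D F) (h : y ∉ Sr D F j) (h1 : -1 ≤ y) (h2 : y < D.h) :
    D.cl (y - 1) = D.cl y ∧ D.cl (y + 1) = D.cl y ∧ D.cr (y - 1) = D.cr y ∧ D.cr (y + 1) = D.cr y := by
  obtain ⟨f1, f2, f3, f4, f5, f6⟩ := far_mM hF h h1 h2
  obtain ⟨-, -, k1, k2⟩ := far_eq2 hF h h1 h2
  have c1 := cl_eq (D := D) (y := y + 1) (by omega) (by omega) (by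
    rw [show y + 1 - 1 = y by ring, f1, f2])
  have c2 := cl_eq (D := D) (y := y) (by omega) (by omega) (by rw [f1, f3])
  have c3 := cr_eq (D := D) (y := y + 1) (by omega) (by omega) (by
    rw [show y + 1 - 1 = y by ring, f4, f5])
  have c4 := cr_eq (D := D) (y := y) (by omega) (by omega) (by rw [f4, f6])
  rw [show y + 1 - 1 = y by ring] at c1 c3
  exact ⟨c2, c1.symm, c4, c3.symm⟩

/-- the colour of the parity -/
lemma dec_of {z : ℤ} {k : Bool} (h : z % 2 = 1 ↔ k = true) : k = decide (z % 2 = 1) := by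
  cases k
  · have : ¬ z % 2 = 1 := fun h' => by simpa using h.1 h'
    simp [this]
  · have := h.2 rfl
    simp [this]

lemma mono_of {k : Bool} (h : (x + y) % 2 = 1 ↔ k = true) (h1 : natc D p x y = k)
    (h2 : natc D p (x - 1) y = k) (h3 : natc D p x (y - 1) = k) (h4 : natc D p (x - 1) (y - 1) = k) :
    Mono D p x y := by
  have e := dec_of h
  exact ⟨h1.trans e, h2.trans e, h3.trans e, h4.trans e⟩

/-! ### Straight parts of the boundary are tied -/

/-- a straight part of a left column -/
lemma tt_L {k : Bool} (h0 : LyL D p x y) (hd : LyL D p x (y - 1)) (hu : LyL D p x (y + 1))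
    (c0 : natc D p x y = k) (c1 : natc D p (x - 1) y = k) (c2 : natc D p x (y - 1) = k)
    (c3 : natc D p (x - 1) (y - 1) = k) (c4 : natc D p x (y + 1) = k)
    (c5 : natc D p (x - 1) (y + 1) = k) : TT D p x y := by
  rw [TT_iff]
  rcases par_or (x + y) k with hp | hp
  · exact Or.inl ⟨h0, Or.inl ⟨hd, mono_of hp c0 c1 c2 c3⟩⟩
  · refine Or.inl ⟨h0, Or.inr ⟨hu, mono_of (by rw [← add_assoc]; exact hp) c4 c5 ?_ ?_⟩⟩
    · rw [add_sub_cancel_right]; exact c0
    · rw [add_sub_cancel_right]; exact c1

lemma tt_R {k : Bool} (h0 : LyR D p x y) (hd : LyR D p x (y - 1)) (hu : LyR D p x (y + 1))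
    (c0 : natc D p x y = k) (c1 : natc D p (x + 1) y = k) (c2 : natc D p x (y - 1) = k)
    (c3 : natc D p (x + 1) (y - 1) = k) (c4 : natc D p x (y + 1) = k)
    (c5 : natc D p (x + 1) (y + 1) = k) : TT D p x y := by
  rw [TT_iff]
  rcases par_or (x + 1 + y) k with hp | hp
  · refine Or.inr (Or.inl ⟨h0, Or.inl ⟨hd, mono_of hp c1 ?_ c3 ?_⟩⟩)
    · rw [add_sub_cancel_right]; exact c0
    · rw [add_sub_cancel_right]; exact c2
  · refine Or.inr (Or.inl ⟨h0, Or.inr ⟨hu, mono_of (by rw [← add_assoc]; exact hp) c5 ?_ ?_ ?_⟩⟩)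
    · rw [add_sub_cancel_right]; exact c4
    · rw [add_sub_cancel_right]; exact c1
    · rw [add_sub_cancel_right, add_sub_cancel_right]; exact c0

lemma tt_F {k : Bool} (h0 : LyF D p x y) (hd : LyF D p (x - 1) y) (hu : LyF D p (x + 1) y)
    (c0 : natc D p x y = k) (c1 : natc D p x (y - 1) = k) (c2 : natc D p (x - 1) y = k)
    (c3 : natc D p (x - 1) (y - 1) = k) (c4 : natc D p (x + 1) y = k)
    (c5 : natc D p (x + 1) (y - 1) = k) : TT D p x y := by
  rw [TT_iff]
  rcases par_or (x + y) k with hp | hp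
  · exact Or.inr (Or.inr (Or.inl ⟨h0, Or.inl ⟨hd, mono_of hp c0 c2 c1 c3⟩⟩))
  · refine Or.inr (Or.inr (Or.inl ⟨h0, Or.inr ⟨hu, mono_of ?_ c4 ?_ c5 ?_⟩⟩))
    · rw [show x + 1 + y = x + y + 1 by ring]; exact hp
    · rw [add_sub_cancel_right]; exact c0
    · rw [add_sub_cancel_right]; exact c1

lemma tt_C {k : Bool} (h0 : LyC D p x y) (hd : LyC D p (x - 1) y) (hu : LyC D p (x + 1) y)
    (c0 : natc D p x y = k) (c1 : natc D p x (y + 1) = k) (c2 : natc D p (x - 1) y = k)
    (c3 : natc D p (x - 1) (y + 1) = k) (c4 : natc D p (x + 1) y = k)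
    (c5 : natc D p (x + 1) (y + 1) = k) : TT D p x y := by
  rw [TT_iff]
  rcases par_or (x + (y + 1)) k with hp | hp
  · refine Or.inr (Or.inr (Or.inr ⟨h0, Or.inl ⟨hd, mono_of hp c1 c3 ?_ ?_⟩⟩))
    · rw [add_sub_cancel_right]; exact c0
    · rw [add_sub_cancel_right]; exact c2
  · refine Or.inr (Or.inr (Or.inr ⟨h0, Or.inr ⟨hu, mono_of ?_ c5 ?_ ?_ ?_⟩⟩))
    · rw [show x + 1 + (y + 1) = x + (y + 1) + 1 by ring]; exact hp
    · rw [add_sub_cancel_right]; exact c1
    · rw [add_sub_cancel_right]; exact c4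
    · rw [add_sub_cancel_right, add_sub_cancel_right]; exact c0

/-- all rows near a far row are the same -/
structure Cst (D : Win) (y : ℤ) : Prop where
  lo : 2 < y
  hi : y < D.h - 3
  ab : ∀ z, y - 2 ≤ z → z ≤ y + 3 → D.a z = D.a y ∧ D.b z = D.b y
  mM : ∀ z, y - 1 ≤ z → z ≤ y + 1 → D.m z = D.a y ∧ D.M z = D.b y ∧ D.cl z = D.cl y ∧ D.cr z = D.cr y

theorem cst_of (hF : Few D F) (h : y ∉ Sr D F j) (h1 : -1 ≤ y) (h2 : y < D.h) : Cst D y := by
  obtain ⟨⟨e1, e2, e3, e4, e5⟩, ⟨g1, g2, g3, g4, g5⟩, k1, k2⟩ := far_eq2 hF h h1 h2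
  obtain ⟨f1, f2, f3, f4, f5, f6⟩ := far_mM hF h h1 h2
  obtain ⟨c1, c2, c3, c4⟩ := far_cl hF h h1 h2
  refine ⟨k1, k2, fun z a1 a2 => ?_, fun z a1 a2 => ?_⟩
  · rcases (show z = y - 2 ∨ z = y - 1 ∨ z = y ∨ z = y + 1 ∨ z = y + 2 ∨ z = y + 3 by omega) with
      r | r | r | r | r | r <;> subst r
    · exact ⟨e1, g1⟩
    · exact ⟨e2, g2⟩
    · exact ⟨rfl, rfl⟩
    · exact ⟨e3, g3⟩
    · exact ⟨e4, g4⟩
    · exact ⟨e5, g5⟩
  · rcases (show z = y - 1 ∨ z = y ∨ z = y + 1 by omega) with r | r | r <;> subst r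
    · exact ⟨f3, f6, c1, c3⟩
    · exact ⟨f1, f4, rfl, rfl⟩
    · exact ⟨f2, f5, c2, c4⟩

namespace Cst

variable (H : Cst D y)

include H

lemma lyL {z : ℤ} (h1 : y - 1 ≤ z) (h2 : z ≤ y + 1) (hx : x = D.a y - 1) : LyL D p x z := by
  have k1 := H.lo
  have k2 := H.hi
  have s0 := sh_nonneg p
  have s1 := sh_le p
  have e1 := (H.ab (z + sh p) (by omega) (by omega)).1
  have e2 := (H.ab (z + sh p + 1) (by omega) (by omega)).1
  have e3 := (H.ab (z + sh p - 1) (by omega) (by omega)).1
  exact ⟨by omega, by omega, by omega, fun _ => by omega, fun _ => by omega⟩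

lemma lyR {z : ℤ} (h1 : y - 1 ≤ z) (h2 : z ≤ y + 1) (hx : x = D.b y) : LyR D p x z := by
  have k1 := H.lo
  have k2 := H.hi
  have s0 := sh_nonneg p
  have s1 := sh_le p
  have e1 := (H.ab (z + sh p) (by omega) (by omega)).2
  have e2 := (H.ab (z + sh p + 1) (by omega) (by omega)).2
  have e3 := (H.ab (z + sh p - 1) (by omega) (by omega)).2
  exact ⟨by omega, by omega, by omega, fun _ => by omega, fun _ => by omega⟩

lemma ncl {z : ℤ} (h1 : y - 1 ≤ z) (h2 : z ≤ y + 1) (hx : x < D.a y) : natc D p x z = D.cl y := by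
  have k1 := H.lo
  have k2 := H.hi
  obtain ⟨e1, -, e2, -⟩ := H.mM z h1 h2
  rw [natc_l (by omega) (by omega) (by omega), e2]

lemma ncr {z : ℤ} (h1 : y - 1 ≤ z) (h2 : z ≤ y + 1) (hx : D.b y ≤ x) : natc D p x z = D.cr y := by
  have k1 := H.lo
  have k2 := H.hi
  obtain ⟨-, e1, -, e2⟩ := H.mM z h1 h2
  rw [natc_r (by omega) (by omega) (by omega), e2]

/-- the columns are tied -/
lemma ttL (hx : x = D.a y - 1) : TT D p x y :=
  tt_L (k := D.cl y) (H.lyL (by omega) (by omega) hx) (H.lyL (by omega) (by omega) hx)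
    (H.lyL (by omega) (by omega) hx) (H.ncl (by omega) (by omega) (by omega))
    (H.ncl (by omega) (by omega) (by omega)) (H.ncl (by omega) (by omega) (by omega))
    (H.ncl (by omega) (by omega) (by omega)) (H.ncl (by omega) (by omega) (by omega))
    (H.ncl (by omega) (by omega) (by omega))

lemma ttR (hx : x = D.b y) : TT D p x y :=
  tt_R (k := D.cr y) (H.lyR (by omega) (by omega) hx) (H.lyR (by omega) (by omega) hx)
    (H.lyR (by omega) (by omega) hx) (H.ncr (by omega) (by omega) (by omega))
    (H.ncr (by omega) (by omega) (by omega)) (H.ncr (by omega) (by omega) (by omega))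
    (H.ncr (by omega) (by omega) (by omega)) (H.ncr (by omega) (by omega) (by omega))
    (H.ncr (by omega) (by omega) (by omega))

end Cst

/-! ### Colours inside of the union -/

lemma natc_in (h0 : -1 ≤ y) (h1 : y < D.h) (h2 : D.m y ≤ x) (h3 : x < D.M y) :
    natc D p x y = if p = true then
      (if y = D.h - 1 then D.ct else if x < D.a (y + 1) then D.cl (y + 1) else D.cr (y + 1))
      else (if y = -1 then D.cb else if x < D.a y then D.cl (y - 1) else D.cr (y - 1)) := by
  unfold natc
  rw [if_neg (by omega), if_neg (by omega), if_neg (by omega), if_neg (by omega)]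

/-- **Real tiles of the line along the lower arc which are not left over belong to a tie.** -/
theorem FE_false (hF : Few D F) (hE : D.InE 0 x y) (hP : ¬ InP D false x y)
    (hn : (x, y) ∉ LoT D F 0) : TT D false x y := by
  have hP0 := D.P0
  have hP1 := D.P1
  have hQ0 := D.Q0
  have hQ1 := D.Q1
  have hh := D.hh
  have hn' := not_LoT hn
  rw [InP_false] at hP
  rcases hE with ⟨h1, h2, h3, h4⟩ | ⟨h1, h2, ⟨h3, -⟩ | ⟨h3, -⟩⟩
  · rcases eq_or_lt_of_le h1 with c0 | c0
    · -- the floor of the window
      subst c0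
      have hp : x ≠ D.m (-1) ∧ x ≠ D.M (-1) - 1 := by
        rcases hn' with h | h
        · have := (cst_of hF h h1 h2).lo
          omega
        · exact ⟨h.2.1, h.2.2.2.2.2.1⟩
      have em : D.m (-1) = D.a 0 := m_lo (by omega)
      have eM : D.M (-1) = D.b 0 := M_lo (by omega)
      have ly : ∀ x', x - 1 ≤ x' → x' ≤ x + 1 → LyF D false x' (-1) := fun x' k1 k2 => by
        unfold LyF
        rw [sh_false, add_zero, show (-1 : ℤ) + 1 = 0 by norm_num]
        exact ⟨by omega, by omega, by omega, by omega, fun h => by omega⟩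
      have n1 : ∀ x', x - 1 ≤ x' → x' ≤ x + 1 → natc D false x' (-1) = D.cb := fun x' k1 k2 => by
        rw [natc_in (by omega) (by omega) (by omega) (by omega), if_neg (by simp), if_pos rfl]
      have n2 : ∀ x', natc D false x' (-1 - 1) = D.cb := fun x' => by
        unfold natc
        rw [if_pos (by omega)]
      exact tt_F (ly _ (by omega) (by omega)) (ly _ (by omega) (by omega)) (ly _ (by omega) (by omega))
        (n1 _ (by omega) (by omega)) (n2 _) (n1 _ (by omega) (by omega)) (n2 _)
        (n1 _ (by omega) (by omega)) (n2 _)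
    · have hy : 0 ≤ y := by omega
      have hab := D.ab y hy h2
      have hpos : y + 1 < D.h ∧ ((x < D.a y ∧ D.m y + 1 ≤ x ∧ x + 3 ≤ D.a y) ∨
          (D.b y + 2 ≤ x ∧ x + 2 ≤ D.M y)) := by
        rcases hn' with h | h
        · have H := cst_of hF h h1 h2
          have := (H.mM y (by omega) (by omega))
          omega
        · unfold aj bj at h
          rw [if_pos hy] at h
          refine ⟨?_, by omega⟩
          by_contra hc
          rw [m_hi (by omega)] at h3
          rw [M_hi (by omega)] at h4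
          omega
      obtain ⟨hy1, hpos⟩ := hpos
      have o1 := D.ov1 y hy hy1
      have o2 := D.ov2 y hy hy1
      rcases hpos with ⟨c1, c2, c3⟩ | ⟨c2, c3⟩
      · have hyP : y + 1 < D.yP := by
          by_contra hc
          rw [m_hi (by omega)] at h3
          omega
        have em : D.m y = D.a (y + 1) := m_lo hyP
        have em' : D.m (y - 1) = D.a y := Pool.Agent.H42.Sp.m_lo' (by omega)
        have kM := b_le_M (D := D) hy
        have ly : ∀ x', x - 1 ≤ x' → x' ≤ x + 1 → LyF D false x' y := fun x' k1 k2 => by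
          unfold LyF
          rw [sh_false, add_zero]
          exact ⟨by omega, hy1, by omega, by omega, fun _ => Or.inl (by omega)⟩
        have n1 : ∀ x', x - 1 ≤ x' → x' ≤ x + 1 → natc D false x' y = D.cl (y - 1) :=
          fun x' k1 k2 => by
          rw [natc_in (by omega) (by omega) (by omega) (by omega), if_neg (by simp),
            if_neg (by omega), if_pos (by omega)]
        have n2 : ∀ x', x - 1 ≤ x' → x' ≤ x + 1 → natc D false x' (y - 1) = D.cl (y - 1) :=
          fun x' k1 k2 => natc_l (by omega) (by omega) (by omega)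
        exact tt_F (ly _ (by omega) (by omega)) (ly _ (by omega) (by omega))
          (ly _ (by omega) (by omega)) (n1 _ (by omega) (by omega)) (n2 _ (by omega) (by omega))
          (n1 _ (by omega) (by omega)) (n2 _ (by omega) (by omega)) (n1 _ (by omega) (by omega))
          (n2 _ (by omega) (by omega))
      · have hyQ : y < D.yQ := by
          by_contra hc
          rw [M_hi (by omega)] at h4
          omega
        have em : D.M y = D.b (y + 1) := M_lo hyQ
        have em' : D.M (y - 1) = D.b y := Pool.Agent.H42.Sp.M_lo' (by omega)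
        have kM := m_le_a (D := D) hy
        have ly : ∀ x', x - 1 ≤ x' → x' ≤ x + 1 → LyF D false x' y := fun x' k1 k2 => by
          unfold LyF
          rw [sh_false, add_zero]
          exact ⟨by omega, hy1, by omega, by omega, fun _ => Or.inr (by omega)⟩
        have n1 : ∀ x', x - 1 ≤ x' → x' ≤ x + 1 → natc D false x' y = D.cr (y - 1) :=
          fun x' k1 k2 => by
          rw [natc_in (by omega) (by omega) (by omega) (by omega), if_neg (by simp),
            if_neg (by omega), if_neg (by omega)]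
        have n2 : ∀ x', x - 1 ≤ x' → x' ≤ x + 1 → natc D false x' (y - 1) = D.cr (y - 1) :=
          fun x' k1 k2 => natc_r (by omega) (by omega) (by omega)
        exact tt_F (ly _ (by omega) (by omega)) (ly _ (by omega) (by omega))
          (ly _ (by omega) (by omega)) (n1 _ (by omega) (by omega)) (n2 _ (by omega) (by omega))
          (n1 _ (by omega) (by omega)) (n2 _ (by omega) (by omega)) (n1 _ (by omega) (by omega))
          (n2 _ (by omega) (by omega))
  · have hS : y ∉ Sr D F 0 := by
      rcases hn' with h | h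
      · exact h
      · exact absurd h3 h.1
    have H := cst_of hF hS h1 h2
    have := (H.mM y (by omega) (by omega)).1
    exact H.ttL (by omega)
  · have hS : y ∉ Sr D F 0 := by
      rcases hn' with h | h
      · exact h
      · exact absurd h3 h.2.2.2.2.1
    have H := cst_of hF hS h1 h2
    have := (H.mM y (by omega) (by omega)).2.1
    exact H.ttR (by omega)

/-- **Real tiles of the line along the upper arc which are not left over belong to a tie.** -/
theorem FE_true (hF : Few D F) (hE : D.InE D.h x y) (hP : ¬ InP D true x y)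
    (hn : (x, y) ∉ LoT D F D.h) : TT D true x y := by
  have hP0 := D.P0
  have hP1 := D.P1
  have hQ0 := D.Q0
  have hQ1 := D.Q1
  have hh := D.hh
  have hn' := not_LoT hn
  rw [InP_true] at hP
  rcases hE with ⟨h1, h2, h3, h4⟩ | ⟨h1, h2, ⟨h3, -⟩ | ⟨h3, -⟩⟩
  · rcases eq_or_lt_of_le (show y ≤ D.h - 1 by omega) with c0 | c0
    · -- the ceiling of the window
      have hp : x ≠ D.m y ∧ x ≠ D.M y - 1 := by
        rcases hn' with h | h
        · have := (cst_of hF h h1 h2).hi
          omega
        · exact ⟨h.2.1, h.2.2.2.2.2.1⟩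
      have em : D.m y = D.a y := m_hi (by omega)
      have eM : D.M y = D.b y := M_hi (by omega)
      have ly : ∀ x', x - 1 ≤ x' → x' ≤ x + 1 → LyC D true x' y := fun x' k1 k2 => by
        unfold LyC
        rw [sh_true, add_sub_cancel_right]
        exact ⟨by omega, by omega, by omega, by omega, fun h => by omega⟩
      have n1 : ∀ x', x - 1 ≤ x' → x' ≤ x + 1 → natc D true x' y = D.ct := fun x' k1 k2 => by
        rw [natc_in (by omega) (by omega) (by omega) (by omega), if_pos rfl, if_pos c0]
      have n2 : ∀ x', natc D true x' (y + 1) = D.ct := fun x' => by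
        unfold natc
        rw [if_neg (by omega), if_pos (by omega)]
      exact tt_C (ly _ (by omega) (by omega)) (ly _ (by omega) (by omega)) (ly _ (by omega) (by omega))
        (n1 _ (by omega) (by omega)) (n2 _) (n1 _ (by omega) (by omega)) (n2 _)
        (n1 _ (by omega) (by omega)) (n2 _)
    · have hy1 : y + 1 < D.h := by omega
      have hab := D.ab (y + 1) (by omega) hy1
      have hpos : 0 ≤ y ∧ ((x < D.a (y + 1) ∧ D.m y + 1 ≤ x ∧ x + 3 ≤ D.a (y + 1)) ∨
          (D.b (y + 1) + 2 ≤ x ∧ x + 2 ≤ D.M y)) := by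
        rcases hn' with h | h
        · have H := cst_of hF h h1 h2
          have e1 := (H.mM y (by omega) (by omega))
          have e2 := (H.ab (y + 1) (by omega) (by omega))
          omega
        · unfold aj bj at h
          rw [if_neg (by omega)] at h
          refine ⟨?_, by omega⟩
          by_contra hc
          rw [m_lo (by omega)] at h3
          rw [M_lo (by omega)] at h4
          omega
      obtain ⟨hy, hpos⟩ := hpos
      have o1 := D.ov1 y hy hy1
      have o2 := D.ov2 y hy hy1
      rcases hpos with ⟨c1, c2, c3⟩ | ⟨c2, c3⟩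
      · have hyP : D.yP ≤ y + 1 := by
          by_contra hc
          rw [m_lo (by omega)] at h3
          omega
        have em : D.m y = D.a y := m_hi hyP
        have em' : D.m (y + 1) = D.a (y + 1) := m_hi (by omega)
        have kM := b_le_M (D := D) hy
        have ly : ∀ x', x - 1 ≤ x' → x' ≤ x + 1 → LyC D true x' y := fun x' k1 k2 => by
          unfold LyC
          rw [sh_true, add_sub_cancel_right]
          exact ⟨by omega, by omega, by omega, by omega, fun _ => Or.inl (by omega)⟩
        have n1 : ∀ x', x - 1 ≤ x' → x' ≤ x + 1 → natc D true x' y = D.cl (y + 1) :=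
          fun x' k1 k2 => by
          rw [natc_in (by omega) (by omega) (by omega) (by omega), if_pos rfl,
            if_neg (by omega), if_pos (by omega)]
        have n2 : ∀ x', x - 1 ≤ x' → x' ≤ x + 1 → natc D true x' (y + 1) = D.cl (y + 1) :=
          fun x' k1 k2 => natc_l (by omega) (by omega) (by omega)
        exact tt_C (ly _ (by omega) (by omega)) (ly _ (by omega) (by omega))
          (ly _ (by omega) (by omega)) (n1 _ (by omega) (by omega)) (n2 _ (by omega) (by omega))
          (n1 _ (by omega) (by omega)) (n2 _ (by omega) (by omega)) (n1 _ (by omega) (by omega))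
          (n2 _ (by omega) (by omega))
      · have hyQ : D.yQ ≤ y := by
          by_contra hc
          rw [M_lo (by omega)] at h4
          omega
        have em : D.M y = D.b y := M_hi hyQ
        have em' : D.M (y + 1) = D.b (y + 1) := M_hi (by omega)
        have kM := m_le_a (D := D) hy
        have ly : ∀ x', x - 1 ≤ x' → x' ≤ x + 1 → LyC D true x' y := fun x' k1 k2 => by
          unfold LyC
          rw [sh_true, add_sub_cancel_right]
          exact ⟨by omega, by omega, by omega, by omega, fun _ => Or.inr (by omega)⟩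
        have n1 : ∀ x', x - 1 ≤ x' → x' ≤ x + 1 → natc D true x' y = D.cr (y + 1) :=
          fun x' k1 k2 => by
          rw [natc_in (by omega) (by omega) (by omega) (by omega), if_pos rfl,
            if_neg (by omega), if_neg (by omega)]
        have n2 : ∀ x', x - 1 ≤ x' → x' ≤ x + 1 → natc D true x' (y + 1) = D.cr (y + 1) :=
          fun x' k1 k2 => natc_r (by omega) (by omega) (by omega)
        exact tt_C (ly _ (by omega) (by omega)) (ly _ (by omega) (by omega))
          (ly _ (by omega) (by omega)) (n1 _ (by omega) (by omega)) (n2 _ (by omega) (by omega))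
          (n1 _ (by omega) (by omega)) (n2 _ (by omega) (by omega)) (n1 _ (by omega) (by omega))
          (n2 _ (by omega) (by omega))
  · have hS : y ∉ Sr D F D.h := by
      rcases hn' with h | h
      · exact h
      · exact absurd h3 h.1
    have H := cst_of hF hS h1 h2
    have := (H.mM y (by omega) (by omega)).1
    exact H.ttL (by omega)
  · have hS : y ∉ Sr D F D.h := by
      rcases hn' with h | h
      · exact h
      · exact absurd h3 h.2.2.2.2.1
    have H := cst_of hF hS h1 h2
    have := (H.mM y (by omega) (by omega)).2.1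
    exact H.ttR (by omega)

end Pool.Agent.H30.Sp
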