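import Mathlib
import Pool.Agent.H30.Sp.LineD

set_option autoImplicit false
open Finset

/-! # The line of a window as a mean of tied natural environments: number of real frozen tiles, weights -/

namespace Pool.Agent.H30.Sp

open Pool.Agent.H75.Perc hiding ph
open Pool.Agent.H75.TwoArm Pool.Agent.Q1 Pool.Agent.H33.Q1
open Pool.Agent.H75.Four hiding ev
open Pool.Agent.H69.Q1
open Pool.Agent.H74.R45 (exists_lt)
open Pool.Agent.H74.Win
open Pool.Agent.H46.Sp (Win Out)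
open Pool.Agent.H46.Sp.Win (XJ wal mem_EJ odd_EJ)
open Pool.Agent.H42.Sp (Sd Ix kt rt)
open Pool.Agent.H13.R45 (Tg ev gp Ag)

variable {D : Win} {p : Bool} {j x y : ℤ} {a b c : ℂ} {F : Finset ℤ}

/-! ### Number of the real frozen tiles -/

lemma FZ_EJ_sub (h : ∀ x y, D.InE j x y → ¬ InP D p x y → (x, y) ∉ LoT D F j → TT D p x y) :
    FZ D p ∩ D.EJ j ⊆ (LoT D F j).image lt := by
  intro e he
  rw [mem_inter] at he
  obtain ⟨x, y, rfl⟩ := exists_lt (odd_EJ he.2)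
  rw [mem_FZ, mem_EJ] at he
  by_contra hc
  exact he.1.2 (h x y he.2 he.1.1.1 fun h2 => hc (mem_image_of_mem _ h2))

theorem card_FZ_false (hF : Few D F) : (FZ D false ∩ D.EJ 0).card ≤ 8 * (6 * F.card + 30) :=
  (card_le_card (FZ_EJ_sub fun _ _ h1 h2 h3 => FE_false hF h1 h2 h3)).trans
    (card_image_le.trans (card_LoT F))

theorem card_FZ_true (hF : Few D F) : (FZ D true ∩ D.EJ D.h).card ≤ 8 * (6 * F.card + 30) :=
  (card_le_card (FZ_EJ_sub fun _ _ h1 h2 h3 => FE_true hF h1 h2 h3)).trans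
    (card_image_le.trans (card_LoT F))

/-! ### Weights -/

/-- a weight and its complement are at most `2` -/
def B2 (w : ℂ) : Prop := ‖w‖ ≤ 2 ∧ ‖1 - w‖ ≤ 2

lemma B2.wal {w : ℂ} (h : B2 w) : B2 (wal x y w) := by
  unfold Pool.Agent.H46.Sp.Win.wal
  split_ifs
  · exact h
  · exact ⟨h.2, by rw [sub_sub_cancel]; exact h.1⟩

lemma B2.sym {w : ℂ} (h : B2 w) : B2 (1 - w) := ⟨h.2, by rw [sub_sub_cancel]; exact h.1⟩

lemma B2.of_one {w : ℂ} (h : ‖w‖ ≤ 1) : B2 w := by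
  refine ⟨by linarith, (norm_sub_le _ _).trans ?_⟩
  rw [norm_one]; linarith

lemma B2.mul {w v : ℂ} (h : ‖w‖ ≤ 1) (h' : ‖v‖ ≤ 1) : B2 (w * v) :=
  B2.of_one (by rw [norm_mul]; exact mul_le_one₀ h (norm_nonneg _) h')

theorem qJ_B2 (ha : ‖a‖ ≤ 1) (ha' : ‖1 - a‖ ≤ 1) (hb : ‖b‖ ≤ 1) (hc : ‖c‖ ≤ 1) (hc' : ‖1 - c‖ ≤ 1)
    (e : ℤ × ℤ) : B2 (D.qJ j a b c e) := by
  have k1 : B2 (1 - b) := (B2.of_one hb).sym
  have k2 : B2 (1 - c) := (B2.of_one hc).sym
  have k3 : B2 a := B2.of_one ha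
  have k4 : B2 (1 - (1 - a) * b) := (B2.mul ha' hb).sym
  have k5 : B2 ((1 - c) * a) := B2.mul hc' ha
  have k6 : B2 (a * (1 - c)) := B2.mul ha hc'
  have k7 : B2 (1 - b * (1 - a)) := (B2.mul hb ha').sym
  have k8 : B2 (1 / 2 : ℂ) := B2.of_one (by norm_num)
  unfold Win.qJ
  split_ifs <;> first
    | exact k1.wal
    | exact k2.wal
    | exact k3.wal
    | exact k4.wal
    | exact k5.wal
    | exact k6.wal
    | exact k7.wal
    | exact k8

/-! ### The edges of the polygon are not at the ties -/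

/-- an edge of a tile of `P^p` is not at a tie -/
theorem tie_RC {z : ℤ × ℤ} (h : Pool.Agent.H74.R45.RC (EN D p) z) (k : Ix) (hk : CA D p k) :
    ¬ Ag k.2 z := by
  intro hA
  obtain ⟨u1, u2, hall, o1, o2⟩ := hk.outer
  have key : ∀ e, Tg k.2 e → e ∉ EN D p := by
    intro e he h2
    have hT : ∀ t : ℤ × ℤ, (t = kt k ∨ t = rt k) → ¬ InP D p t.1 t.2 := fun t ht => (hk.tt ht).rg.1
    rcases hall e he with r | r | r | r
    · rw [r] at h2
      exact hT _ (Or.inl rfl) (mem_EN.1 h2)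
    · rw [r] at h2
      exact hT _ (Or.inr rfl) (mem_EN.1 h2)
    · rw [r] at h2
      exact o1.np (mem_EN.1 h2)
    · rw [r] at h2
      exact o2.np (mem_EN.1 h2)
  rcases h with h | h
  · exact key _ (Pool.Agent.H13.R45.lab_at hA) h
  · exact key _ (Pool.Agent.H42.Sp.plab_at hA) h

/-! ### Means -/

/-- complex means over few labels -/
theorem Ec_near {q : ℤ × ℤ → ℂ} {Z : Finset (ℤ × ℤ)} (hq : ∀ e ∈ Z, B2 (q e)) {ζ : ℂ} {B : ℝ} :
    ∀ {f : Finset (ℤ × ℤ) → ℂ}, (∀ S ⊆ Z, ‖f S - ζ‖ ≤ B) → ‖Ec q Z f - ζ‖ ≤ 4 ^ Z.card * B := by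
  classical
  induction Z using Finset.induction_on with
  | empty =>
    intro f hf
    rw [Ec_empty, card_empty, pow_zero, one_mul]
    exact hf ∅ (subset_refl _)
  | insert e Z he ih =>
    intro f hf
    have ih' := @ih fun e' h' => hq e' (mem_insert_of_mem h')
    have h1 := ih' (f := f) fun S hS => hf S (hS.trans (subset_insert _ _))
    have h2 := ih' (f := fun S => f (insert e S)) fun S hS => hf _ (insert_subset_insert _ hS)
    have hB := hq e (mem_insert_self _ _)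
    rw [Ec_insert q he]
    have e1 : (1 - q e) * Ec q Z f + q e * Ec q Z (fun S => f (insert e S)) - ζ =
        (1 - q e) * (Ec q Z f - ζ) + q e * (Ec q Z (fun S => f (insert e S)) - ζ) := by ring
    rw [e1, card_insert_of_notMem he]
    refine (norm_add_le _ _).trans ?_
    rw [norm_mul, norm_mul]
    have p0 : 0 ≤ (4 : ℝ) ^ Z.card * B := (norm_nonneg _).trans h1
    calc ‖1 - q e‖ * ‖Ec q Z f - ζ‖ + ‖q e‖ * ‖Ec q Z (fun S => f (insert e S)) - ζ‖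
        ≤ 2 * (4 ^ Z.card * B) + 2 * (4 ^ Z.card * B) :=
          add_le_add (mul_le_mul hB.2 h1 (norm_nonneg _) (by norm_num))
            (mul_le_mul hB.1 h2 (norm_nonneg _) (by norm_num))
      _ = 4 ^ (Z.card + 1) * B := by ring

/-- linear combinations of increments -/
lemma sum_Ec {q : ℤ × ℤ → ℂ} {Z Cs : Finset (ℤ × ℤ)} {La g : ℤ × ℤ → ℂ}
    {f : ℤ × ℤ → Finset (ℤ × ℤ) → ℂ} (h : ∀ z ∈ Cs, g z = Ec q Z (f z)) :
    ∑ z ∈ Cs, La z * g z = Ec q Z (fun S => ∑ z ∈ Cs, La z * f z S) := by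
  rw [Ec_sum]
  refine sum_congr rfl fun z hz => ?_
  rw [h z hz, ← Ec_smul]

section Final

variable (O : OutB D) {Cs : Finset (ℤ × ℤ)} {La : ℤ × ℤ → ℂ} {ζ : ℂ} {B : ℝ}

/-- **The line along the lower arc is close to the tied natural environments.** -/
theorem X0_near (hF : Few D F) (ha : ‖a‖ ≤ 1) (ha' : ‖1 - a‖ ≤ 1) (hb : ‖b‖ ≤ 1) (hc : ‖c‖ ≤ 1)
    (hc' : ‖1 - c‖ ≤ 1) (hz : ∀ z ∈ Cs, ∀ k, CA D false k → ¬ Ag k.2 z)
    (h : ∀ S ⊆ FZ D false ∩ D.EJ 0, ‖∑ z ∈ Cs, La z *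
      (XA O false (frz O false 0 S) (frz_sub O false 0 S)).incW (qs D false (sL D false a b c)) z
        - ζ‖ ≤ B) :
    ‖∑ z ∈ Cs, La z * (XJ O.out 0 le_rfl).incW (D.qJ 0 a b c) z - ζ‖ ≤
      4 ^ (8 * (6 * F.card + 30)) * B := by
  have e : ∑ z ∈ Cs, La z * (XJ O.out 0 le_rfl).incW (D.qJ 0 a b c) z =
      Ec (D.qJ 0 a b c) (FZ D false ∩ D.EJ 0) (fun S => ∑ z ∈ Cs, La z *
        (XA O false (frz O false 0 S) (frz_sub O false 0 S)).incW (qs D false (sL D false a b c)) z) :=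
    sum_Ec fun z hz' => X0_XA O (hz z hz') a b c
  rw [e]
  have h0 : 0 ≤ B := (norm_nonneg _).trans (h ∅ (empty_subset _))
  refine (Ec_near (fun e _ => qJ_B2 ha ha' hb hc hc' e) h).trans ?_
  exact mul_le_mul_of_nonneg_right (pow_le_pow_right₀ (by norm_num) (card_FZ_false hF)) h0

/-- **The line along the upper arc is close to the tied natural environments.** -/
theorem Xh_near (hh : 0 ≤ D.h) (hF : Few D F) (ha : ‖a‖ ≤ 1) (ha' : ‖1 - a‖ ≤ 1) (hb : ‖b‖ ≤ 1)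
    (hc : ‖c‖ ≤ 1) (hc' : ‖1 - c‖ ≤ 1) (hz : ∀ z ∈ Cs, ∀ k, CA D true k → ¬ Ag k.2 z)
    (h : ∀ S ⊆ FZ D true ∩ D.EJ D.h, ‖∑ z ∈ Cs, La z *
      (XA O true (frz O true D.h S) (frz_sub O true D.h S)).incW (qs D true (sL D true a b c)) z
        - ζ‖ ≤ B) :
    ‖∑ z ∈ Cs, La z * (XJ O.out D.h hh).incW (D.qJ D.h a b c) z - ζ‖ ≤
      4 ^ (8 * (6 * F.card + 30)) * B := by
  have e : ∑ z ∈ Cs, La z * (XJ O.out D.h hh).incW (D.qJ D.h a b c) z =
      Ec (D.qJ D.h a b c) (FZ D true ∩ D.EJ D.h) (fun S => ∑ z ∈ Cs, La z *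
        (XA O true (frz O true D.h S) (frz_sub O true D.h S)).incW (qs D true (sL D true a b c)) z) :=
    sum_Ec fun z hz' => Xh_XA O hh (hz z hz') a b c
  rw [e]
  have h0 : 0 ≤ B := (norm_nonneg _).trans (h ∅ (empty_subset _))
  refine (Ec_near (fun e _ => qJ_B2 ha ha' hb hc hc' e) h).trans ?_
  exact mul_le_mul_of_nonneg_right (pow_le_pow_right₀ (by norm_num) (card_FZ_true hF)) h0

end Final

end Pool.Agent.H30.Sp
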