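import Mathlib
import Pool.Agent.H30.Sp.LineC
import Pool.Agent.H40.Sp.MCor
import Pool.Agent.H74.Win.Bri

set_option autoImplicit false
open Finset

/-! # The frozen tiles of the walls without line have their natural colours

`natS_false` : the environments `XA O false (frz O false 0 S)` of `X_0` (`X0_XA`), `natS_true` : those of `X_h`
(`Xh_XA`). -/

namespace Pool.Agent.H30.Sp

open Pool.Agent.H75.Perc hiding ph
open Pool.Agent.H75.TwoArm Pool.Agent.Q1 Pool.Agent.H33.Q1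
open Pool.Agent.H75.Four hiding ev
open Pool.Agent.H69.Q1
open Pool.Agent.H74.R45 (exists_lt)
open Pool.Agent.H74.Win
open Pool.Agent.H46.Sp (Win Out)
open Pool.Agent.H46.Sp.Win (m_lo m_hi M_lo M_hi m_lt_M)
open Pool.Agent.H40.Sp (NatS NatPl)

variable {D : Win} {p : Bool} {j x y : ℤ} {S : Finset (ℤ × ℤ)}

/-- off the line the open frozen tiles are the naturally open ones -/
lemma frz_off (O : OutB D) (hS : S ⊆ FZ D p ∩ D.EJ j) (hR : RG D p x y) (hT : ¬ TT D p x y)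
    (ho : Off O p j x y) : lt (x, y) ∈ frz O p j S ↔ natc D p x y = true := by
  obtain ⟨h1, h2⟩ := ho
  unfold frz
  rw [mem_inter, mem_union, h2, mem_FZ]
  constructor
  · rintro ⟨-, h | h⟩
    · exact absurd (Pool.Agent.H46.Sp.Win.mem_EJ.1 (mem_inter.1 (hS h)).2) h1
    · exact h
  · exact fun h => ⟨⟨hR, hT⟩, Or.inr h⟩

/-- rows and columns of the ring -/
lemma RG_rng (h : RG D p x y) : D.a (D.yP - 1) ≤ x + 1 ∧ x ≤ D.b D.yQ ∧ -1 ≤ y + sh p ∧
    y + sh p ≤ D.h := by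
  obtain ⟨-, x', y', h1, h2, h3, h4, h5⟩ := h
  have h6 := h5.box
  obtain ⟨h7, h8, -, -⟩ := h5
  omega

/-- **The walls without line of `X_0`.** -/
theorem natS_false (O : OutB D) (hS : S ⊆ FZ D false ∩ D.EJ 0) : NatS D false (frz O false 0 S) := by
  intro x y hF hN
  obtain ⟨hR, hT⟩ := FRt13.1 hF
  obtain ⟨r1, r2, r3, r4⟩ := RG_rng hR
  rw [sh_false, add_zero] at r3 r4
  have hP0 := D.P0
  have hP1 := D.P1
  have hQ0 := D.Q0
  have hQ1 := D.Q1
  refine frz_off O hS hR hT ?_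
  unfold NatPl at hN
  rw [if_neg (by simp)] at hN
  by_cases c : y = D.h
  · subst c; exact off_t O (by omega) (by omega)
  rcases hN with h | h | h | ⟨h1, h2⟩ | ⟨h1, h2⟩
  · omega
  · exact off_l2 O (by omega) (by omega) h (by omega)
  · exact off_r2 O (by omega) (by omega) h (by omega)
  · by_cases c1 : x + 2 ≤ D.m y
    · exact off_l2 O (by omega) (by omega) c1 (by omega)
    · refine off_l O (by omega) (by omega) (by omega) ?_ ?_ ?_ ?_
      · rintro ⟨-, k, -⟩; omega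
      · rintro ⟨-, k, -⟩; omega
      · rintro (⟨-, k, -⟩ | ⟨k, -⟩ | ⟨-, k⟩) <;> omega
      · rintro (⟨k, -⟩ | ⟨-, k, -⟩) <;> omega
  · by_cases c1 : D.M y + 1 ≤ x
    · exact off_r2 O (by omega) (by omega) c1 (by omega)
    · refine off_r O (by omega) (by omega) (by omega) ?_ ?_ ?_ ?_
      · rintro ⟨-, k, -⟩; omega
      · rintro ⟨-, k, -⟩; omega
      · rintro (⟨k, -, -⟩ | ⟨k, -⟩ | ⟨-, k⟩) <;> omega
      · rintro (⟨k, -⟩ | ⟨-, k, -⟩) <;> omega

/-- **The walls without line of `X_h`.** -/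
theorem natS_true (O : OutB D) (hS : S ⊆ FZ D true ∩ D.EJ D.h) :
    NatS D true (frz O true D.h S) := by
  intro x y hF hN
  obtain ⟨hR, hT⟩ := FRt13.1 hF
  obtain ⟨r1, r2, r3, r4⟩ := RG_rng hR
  rw [sh_true] at r3 r4
  have hP0 := D.P0
  have hP1 := D.P1
  have hQ0 := D.Q0
  have hQ1 := D.Q1
  refine frz_off O hS hR hT ?_
  unfold NatPl at hN
  rw [if_pos rfl] at hN
  by_cases c : y = -2
  · subst c; exact off_b O (by omega) (by omega)
  rcases hN with h | h | h | ⟨h1, h2⟩ | ⟨h1, h2⟩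
  · omega
  · exact off_l2 O (by omega) (by omega) h (by omega)
  · exact off_r2 O (by omega) (by omega) h (by omega)
  · by_cases c1 : x + 2 ≤ D.m y
    · exact off_l2 O (by omega) (by omega) c1 (by omega)
    · refine off_l O (by omega) (by omega) (by omega) ?_ ?_ ?_ ?_
      · rintro ⟨k, -⟩; omega
      · rintro ⟨k, -⟩; omega
      · rintro (⟨k, -⟩ | ⟨k, -⟩ | ⟨k, -⟩) <;> omega
      · rintro (⟨k, -⟩ | ⟨k, -⟩) <;> omega
  · by_cases c1 : D.M y + 1 ≤ x
    · exact off_r2 O (by omega) (by omega) c1 (by omega)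
    · refine off_r O (by omega) (by omega) (by omega) ?_ ?_ ?_ ?_
      · rintro ⟨k, -⟩; omega
      · rintro ⟨k, -⟩; omega
      · rintro (⟨-, k, -⟩ | ⟨k, -⟩ | ⟨k, -⟩) <;> omega
      · rintro (⟨k, -⟩ | ⟨k, -⟩) <;> omega

end Pool.Agent.H30.Sp
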