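import Pool.Agent.H30.Sp.BaseT
import Pool.Agent.H76.Sp.WinX

set_option autoImplicit false
open Finset

/-! # The corner labels of a window and the base state of an expansion term

`Cw_sub` : the remaining labels `Cw D j N P` (not real in the row, not in `P+`, `P-`, not ties) are labels
of left over tiles; `card_Cw`. `base_st` : `Base` for the frozen labels `ξ ∪ symmDiff T (tF P) ∪ s`. -/

namespace Pool.Agent.H30.Sp

open Pool.Agent.H75.Perc Pool.Agent.H75.TwoArm Pool.Agent.Q1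
open Pool.Agent.H46.Sp (Win Out)
open Pool.Agent.H46.Sp.Win (m_min M_max m_lt_M a_min b_max m_le_a b_le_M m_le_a' b_le_M' mem_EJ)
open Pool.Agent.H42.Sp
open Pool.Agent.H30.Mid Pool.Agent.H33.Q1
open Pool.Agent.H69.M6b (lbt)
open Pool.Agent.H13.R45 (ev gp Tg)
open Pool.Agent.H76.Sp (tA tF Cw)

variable {D : Win} {j x y : ℤ} {P : Finset Ix} {O : Out D} {N : ℕ} {B t T ξ s : Finset (ℤ × ℤ)}

/-- **The remaining labels are left over.** -/
theorem Cw_sub (h0 : 0 < j) (h1 : j < D.h)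
    (hc : ∀ k, CP D j k → NRow j k → k ∈ P) (hN : (N : ℤ) = D.M (j - 1) - D.m (j - 1))
    {F : Finset ℤ} (hF : Few D F) : Cw D j N P ⊆ (LoT D F j).image lt := by
  intro e he
  unfold Cw at he
  rw [mem_sdiff, mem_union, mem_union, mem_union] at he
  obtain ⟨he, hn⟩ := he
  have hE := ETp_sub he
  obtain ⟨x, y, rfl⟩ := Pool.Agent.H74.R45.exists_lt (Pool.Agent.H46.Sp.Win.odd_EJ hE)
  rw [mem_EJ] at hE
  push Not at hn
  obtain ⟨hnr, hnt, hnl, hnu⟩ := hn
  rw [← lbt_lt, mem_RS'] at hnr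
  rw [← lbt_lt, mem_BLw] at hnl
  rw [← lbt_lt, mem_BUw] at hnu
  have hrow : y ≠ j - 1 := by
    intro h2
    rcases hE with ⟨a1, a2, a3, a4⟩ | ⟨a1, a2, ⟨a3, ⟨a4, -⟩ | ⟨-, a4, -⟩⟩ | ⟨a3, ⟨-, a4, -⟩ | ⟨a4, -⟩⟩⟩
    · subst h2
      exact hnr ⟨a3, by omega, rfl⟩
    · omega
    · omega
    · omega
    · omega
  by_contra hcon
  have hno : (x, y) ∉ LoT D F j := fun h => hcon (mem_image_of_mem _ h)
  have hz := hE.z
  -- a cap or an outside tile is impossible
  have key : ∀ {c : Bool}, (OutT D j x y c ∨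
      ∃ k, (CP D j k ∧ NRow j k) ∧ ((x, y) = kt k ∨ (x, y) = rt k) ∧ ev k.2 = c) → False := by
    intro c h
    rcases h with h | ⟨k, ⟨hk, hkr⟩, hp | hp, -⟩
    · exact h.1 hE
    · exact hnt (mem_image.2 ⟨k, hc k hk hkr, by rw [hp]⟩)
    · unfold ETp at he
      exact (mem_sdiff.1 he).2 (mem_image.2 ⟨k, hc k hk hkr, by rw [hp]⟩)
  by_cases hl : x < aj D j y
  · exact key (line_l h0 h1 hF hz.1 hz.2.1 hrow (by omega) hl hno)
  · by_cases hr : bj D j y ≤ x
    · exact key (line_r h0 h1 hF hz.1 hz.2.1 hrow hr (by omega) hno)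
    · unfold aj at hl
      unfold bj at hr
      rcases lt_or_ge y j with h2 | h2
      · rw [if_neg (by omega)] at hl hr
        exact hnl ⟨⟨hz.1, by omega, by omega, by omega, by omega⟩, by simp⟩
      · rw [if_pos h2] at hl hr
        exact hnu ⟨⟨h2, by omega, hz.2.1, by omega, by omega⟩, by simp⟩

theorem card_Cw (h0 : 0 < j) (h1 : j < D.h)
    (hc : ∀ k, CP D j k → NRow j k → k ∈ P) (hN : (N : ℤ) = D.M (j - 1) - D.m (j - 1))
    {F : Finset ℤ} (hF : Few D F) : (Cw D j N P).card ≤ 8 * (6 * F.card + 30) :=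
  (card_le_card (Cw_sub h0 h1 hc hN hF)).trans (card_image_le.trans (card_LoT F))

/-- the label of the kept tile of a cap of `P` is cut if it is closed, iff the cap is on a free side -/
theorem mem_tF (h0 : 0 < j) (h1 : j < D.h) (hP : ∀ k ∈ P, CP D j k) {k : Ix} (hk : k ∈ P) :
    lt (kt k) ∈ tF P ↔ ev k.2 = true := by
  unfold tF
  rw [mem_image]
  constructor
  · rintro ⟨l, hl, h2⟩
    rw [mem_filter] at hl
    rw [← kt_inj h0.le h1.le (hP l hl.1) (hP k hk) (lt_inj h2)]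
    exact hl.2
  · exact fun h => ⟨k, mem_filter.2 ⟨hk, h⟩, rfl⟩

/-- **Base state of a term of the expansion.** -/
theorem base_st (h0 : 0 < j) (h1 : j < D.h) (hP : ∀ k ∈ P, CP D j k)
    (hc : ∀ k, CP D j k → NRow j k → k ∈ P) (hN : (N : ℤ) = D.M (j - 1) - D.m (j - 1))
    {F : Finset ℤ} (hF : Few D F) (ht : ∀ e ∈ tA P, e ∉ T → (e ∈ t ↔ e ∈ tF P)) :
    Base D j (WFw (XTp O j h0.le h1.le P hP) (WTp D j P O.Wo) D j N B t)
      (LoT D F j ∪ T.image tlf) :=
  base_T h0 h1 hP hc hN hF fun k hk hn => by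
    rw [ht _ (mem_image_of_mem _ hk) hn, mem_tF h0 h1 hP hk]

end Pool.Agent.H30.Sp
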