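import Mathlib
import Pool.Agent.H44.FM.Wi6
import Pool.Agent.H44.FM.Wi8
import Pool.Agent.H30.Sp.NatF
import Pool.Agent.H31.Sp.TotG
import Pool.Agent.H20.Sp.WinC
import Pool.Agent.Q1.M6e.Comb

set_option autoImplicit false
open Filter Topology Set

/-! # The line potential of a window is a mean of totals

`line_near` : one coarse window. `linW_of` : helper44's `LinW` for a sequence of coarse windows. `linW_DW` : the
windows of a shape. -/

namespace Pool.Agent.H30.Sp

open Pool.Agent.Q1 Pool.Agent.H33.Q1 Pool.Agent.H74.R45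
open Pool.Agent.H44.FM.Wi
open Pool.Agent.H44.FM.Br (hd arcG)
open Pool.Agent.H44.FM.WG (Gr)
open Pool.Agent.Q1.M6e (Lk LC La LC_sum norm_wa norm_one_sub_wa sw_wa)
open Pool.Agent.Q1.M6e.Wn (swn)
open Pool.Agent.H46.Sp (Win)
open Pool.Agent.H46.Sp.Win (XJ)
open Pool.Agent.H74.Win
open Pool.Agent.H64.Q1 (wa)
open Pool.Agent.H31.Sp (CoarseC Kp sG sL_grp totG)
open Pool.Agent.H13.Sp (colp FR FR_eq XA_eq)
open Pool.Agent.H40.Sp (NatS)
open Pool.Agent.H20.Sp (GC card_GC lev_C)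
open Pool.Agent.H13.R45 (Ag)
open Pool.Agent.Q1.M6b.ABW (PotT)

section wts

variable {N : ℕ}

lemma uN_re : (uN N).re = Real.pi / 2 := by
  unfold uN
  rw [Complex.add_re, Complex.ofReal_re, Complex.mul_re, Complex.ofReal_im, Complex.ofReal_re,
    Complex.I_im, Complex.I_re]
  ring

lemma hp_re : ((Real.pi : ℂ) / 2).re = Real.pi / 2 := by
  rw [show ((Real.pi : ℂ) / 2) = ((Real.pi / 2 : ℝ) : ℂ) by push_cast; ring, Complex.ofReal_re]

lemma up_re : (uN N + Real.pi / 2).re = Real.pi := by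
  rw [Complex.add_re, uN_re, hp_re]; ring

lemma um_re : (uN N - Real.pi / 2).re = 0 := by
  rw [Complex.sub_re, uN_re, hp_re]; ring

lemma swn_u : wa (uN N) * (1 - wa (uN N)) = swn N (Real.pi / 2 : ℝ) := by
  have hp := Real.pi_pos
  rw [sw_wa (by rw [uN_re]; linarith) (by rw [uN_re]; linarith)]
  rfl

lemma swn_up : wa (uN N + Real.pi / 2) * (1 - wa (uN N + Real.pi / 2)) = swn N (Real.pi : ℝ) := by
  have hp := Real.pi_pos
  rw [sw_wa (by rw [up_re]; linarith) (by rw [up_re])]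
  unfold swn uN
  congr 1
  push_cast
  ring

lemma swn_um : wa (uN N - Real.pi / 2) * (1 - wa (uN N - Real.pi / 2)) = swn N 0 := by
  have hp := Real.pi_pos
  rw [sw_wa (by rw [um_re]) (by rw [um_re]; linarith)]
  unfold swn uN
  congr 1
  push_cast
  ring

/-- the weights of the line -/
theorem sG_tL (p : Bool) (g : Gr) :
    sG p (wa (uN N)) (wa (uN N + Real.pi / 2)) (wa (uN N - Real.pi / 2)) g = tL p N g := by
  classical
  cases p <;> cases g <;>
    simp only [sG, tL, arcG, hd, swn_u, swn_up, swn_um, Finset.mem_insert, Finset.mem_singleton,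
      reduceCtorEq, or_false, or_true, or_self, if_true, if_false]

end wts

section one

variable {D : Win} {O : OutB D} {n H : ℤ} {A B : ℤ → ℤ} {YP YQ : ℤ} {CL CR : ℤ → Bool} {p : Bool}
  {s0 L m : ℤ} {w0 : Kp H A B} {a b : ℤ × ℤ}

/-- the weights of the ties depend on the ties only -/
lemma qs_congr' {s s' : Pool.Agent.H42.Sp.Ix → ℂ} (h : ∀ k, CA D p k → s k = s' k) :
    qs D p s = qs D p s' := by
  funext e
  unfold qs
  by_cases c : ∃ k, CA D p k ∧ e = lt (Pool.Agent.H42.Sp.kt k)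
  · rw [dif_pos c, dif_pos c, h _ c.choose_spec.1]
  · rw [dif_neg c, dif_neg c]

/-- the potential of the line along the path -/
theorem sum_HL (N : ℕ) (hL : Lk (InP D p) 1 a b) :
    ∑ z ∈ LC a.1 a.2 b.1 b.2, La a.1 a.2 b.1 b.2 z *
      FW O.out (wa (uN N)) (wa (uN N + Real.pi / 2)) (wa (uN N - Real.pi / 2))
        (if p then D.h else 0) z = HL O p N a.1 a.2 - HL O p N b.1 b.2 := by
  have h := potT_HL O p N
  unfold PotT at h
  cases p with
  | false =>
    rw [if_neg (by simp)] at h ⊢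
    refine sumN_lk (p := false) ?_ le_rfl hL
    unfold PotN
    simp only [sh_false, add_zero, neg_zero, sub_zero]
    exact h
  | true =>
    rw [if_pos rfl] at h ⊢
    refine sumN_lk (p := true) ?_ le_rfl hL
    unfold PotN
    simp only [sh_true, add_sub_cancel_right]
    exact h

/-- **One coarse window.** -/
theorem line_near (C : CoarseC D n H A B YP YQ CL CR) (hn : 30 ≤ n)
    (hcut : colp D (s0 - 1) ≠ colp D s0) (hL : Lk (InP D p) 1 a b) {N : ℕ} {ζ : ℂ} {M : ℝ}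
    (h : ∀ (S : Finset (ℤ × ℤ)) (hS : S ⊆ FR D p), NatS D p S →
      ‖(caseD O n H A B p s0 L m S hS w0 a b).tot (fun w : Kp H A B => tL p N (gE YP YQ w.1)) - ζ‖ ≤ M) :
    ‖(HL O p N a.1 a.2 - HL O p N b.1 b.2) - ζ‖ ≤ 4 ^ (8 * (6 * (3 * (H.toNat + 1)) + 30)) * M := by
  have hp := Real.pi_pos
  have hF : Few D (GC D n H) := (lev_C C).1
  have hc : (GC D n H).card ≤ 3 * (H.toNat + 1) :=
    card_GC C.HH.le (by have := C.HH; omega)
  have b1 : ‖wa (uN N)‖ ≤ 1 := norm_wa (by rw [uN_re]; linarith) (by rw [uN_re]; linarith)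
  have b2 : ‖1 - wa (uN N)‖ ≤ 1 := norm_one_sub_wa (by rw [uN_re]; linarith) (by rw [uN_re]; linarith)
  have b3 : ‖wa (uN N + Real.pi / 2)‖ ≤ 1 := norm_wa (by rw [up_re]; linarith) (by rw [up_re])
  have b4 : ‖wa (uN N - Real.pi / 2)‖ ≤ 1 := norm_wa (by rw [um_re]) (by rw [um_re]; linarith)
  have b5 : ‖1 - wa (uN N - Real.pi / 2)‖ ≤ 1 :=
    norm_one_sub_wa (by rw [um_re]) (by rw [um_re]; linarith)
  have hz : ∀ z ∈ LC a.1 a.2 b.1 b.2, ∀ k, CA D p k → ¬ Ag k.2 z := fun z hz =>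
    tie_RC (rc_path le_rfl hL hz)
  -- the totals
  have key : ∀ (S : Finset (ℤ × ℤ)) (hS : S ⊆ FZ D p), NatS D p S →
      ‖∑ z ∈ LC a.1 a.2 b.1 b.2, La a.1 a.2 b.1 b.2 z *
        (XA O p S hS).incW (qs D p (sL D p (wa (uN N)) (wa (uN N + Real.pi / 2))
          (wa (uN N - Real.pi / 2)))) z - ζ‖ ≤ M := by
    intro S hS hN
    have hS' : S ⊆ FR D p := by rw [FR_eq]; exact hS
    have e := totG O C hn p s0 L m hcut S hS' w0 a b (tL p N)
    have h1 := h S hS' hN
    rw [e] at h1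
    rw [XA_eq]
    rw [qs_congr' (fun k hk => (sL_grp (Pool.Agent.H13.Sp.CA_iff.2 hk) _ _ _).trans (sG_tL p (grp D p k)))]
    exact h1
  have hM : 0 ≤ M := by
    cases p with
    | false => exact (norm_nonneg _).trans (key _ (frz_sub O false 0 ∅)
        (natS_false O (Finset.empty_subset _)))
    | true => exact (norm_nonneg _).trans (key _ (frz_sub O true D.h ∅)
        (natS_true O (Finset.empty_subset _)))
  have hpow : (4 : ℝ) ^ (8 * (6 * (GC D n H).card + 30)) * M ≤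
      4 ^ (8 * (6 * (3 * (H.toNat + 1)) + 30)) * M :=
    mul_le_mul_of_nonneg_right (pow_le_pow_right₀ (by norm_num) (by omega)) hM
  rw [← sum_HL (O := O) N hL]
  cases p with
  | false =>
    refine le_trans ?_ hpow
    simp only [Bool.false_eq_true, if_false, FW_eq le_rfl]
    exact X0_near O hF b1 b2 b3 b4 b5 hz fun S hS => key _ _ (natS_false O hS)
  | true =>
    have hh : 0 ≤ D.h := by rw [C.hh]; have := C.HH; positivity
    refine le_trans ?_ hpow
    simp only [if_true, FW_eq hh]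
    exact Xh_near O hh hF b1 b2 b3 b4 b5 hz fun S hS => key _ _ (natS_true O hS)

end one

section seq

variable {R : ℕ → ℕ} {F : Filter ℕ} {D : ℕ → Win} {H : ℤ} {A B : ℤ → ℤ} {YP YQ : ℤ} {s0 : ℕ → ℤ}

/-- **helper44's `LinW`.** -/
theorem linW_of {O : ∀ j, OutB (D j)} (hR : Tendsto R F atTop) (hC : SeqC R F D H A B YP YQ s0)
    (w0 : Kp H A B) : LinW R F O s0 YP YQ w0 := by
  refine ⟨4 ^ (8 * (6 * (3 * (H.toNat + 1)) + 30)), ?_⟩
  filter_upwards [hC.co, hC.cut, hR.eventually_ge_atTop 30] with j h1 h2 h3 p L m a b hL N _ ζ M h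
  obtain ⟨CL, CR, h1⟩ := h1
  exact line_near h1 (by exact_mod_cast h3) h2 hL h

end seq

section shape

open Pool.Agent.H5.FM (RowF)
open Pool.Agent.H21.FM (Shape)

variable {S : Shape} {y0 y1 : ℤ} {a b : ℤ → ℤ} {yP yQ : ℤ}

/-- **The windows of a shape.** -/
theorem linW_DW (F : RowF S.P.Q y0 y1 a b yP yQ) {O : ∀ j, OutB (DW F j)} {s0 : ℕ → ℤ}
    (hs : ∀ᶠ j in atTop, colp (DW F j) (s0 j - 1) ≠ colp (DW F j) (s0 j)) :
    LinW (fun j => 2 * j) atTop O s0 (yP - y0) (yQ - y0) (w0F F) :=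
  linW_of (tendsto_atTop_mono (fun j => by simp only [id]; omega) tendsto_id) (seqC_DW F hs) _

end shape

end Pool.Agent.H30.Sp
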